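import Pool.Agent.Helper665_SP.Tri

/-! The area functional of the family of triangles between two almost radial arms. -/

set_option autoImplicit false
open Complex Set

namespace Pool.Agent.Helper665_SP

variable {φ α β : ℝ → ℝ} {R : ℝ}

/-- the area function of an arm -/
noncomputable def Sw (φ : ℝ → ℝ) (M r : ℝ) : ℝ := r ^ 2 * φ r / 2 + ∫ x in r..M, x * φ x

theorem zz_im (r r' : ℝ) : ((starRingEnd ℂ) (zz φ r) * zz φ r').im = r * r' * Real.sin (φ r' - φ r) := by
  have e : (starRingEnd ℂ) (zz φ r) * zz φ r' = ((r * r' : ℝ) : ℂ) * exp ((φ r' - φ r : ℝ) * I) := by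
    rw [zz_conj]
    unfold zz
    have : exp ((φ r' - φ r : ℝ) * I) = exp ((-φ r : ℝ) * I) * exp (φ r' * I) := by
      rw [← Complex.exp_add]
      congr 1
      push_cast
      ring
    rw [this]
    push_cast
    ring
  rw [e, im_ofReal_mul, exp_ofReal_mul_I_im]

theorem sin_sub_self {x : ℝ} (hx : |x| ≤ 1) : |Real.sin x - x| ≤ x ^ 2 := by
  have h1 := abs_le.1 (Real.sin_bound hx)
  have h2 := abs_nonneg x
  have h3 : |x| ^ 4 ≤ x ^ 2 := by
    rw [show |x| ^ 4 = |x| ^ 2 * |x| ^ 2 by ring, sq_abs]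
    have : x ^ 2 ≤ 1 := by rw [← sq_abs]; nlinarith
    nlinarith [sq_nonneg x]
  have h4 : |x ^ 3| ≤ x ^ 2 := by
    rw [abs_pow, show |x| ^ 3 = |x| ^ 2 * |x| by ring, sq_abs]
    nlinarith [sq_nonneg x]
  have h4' := abs_le.1 h4
  rw [abs_le]
  constructor <;> nlinarith [sq_nonneg x]

theorem Sw_diff (h : Slow φ R) {M : ℝ} (hM : M < R) {r r' : ℝ} (hr : 0 < r) (hrr : r ≤ r')
    (h2 : r' ≤ 2 * r) (hM' : r' ≤ M) :
    |Sw φ M r' - Sw φ M r - ((starRingEnd ℂ) (zz φ r) * zz φ r').im / 2| ≤ (r' - r) ^ 2 / 30 := by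
  have hc : ContinuousOn (fun x => x * φ x) (Ioo 0 R) := by
    have := h.cont
    fun_prop
  have i1 : IntervalIntegrable (fun x => x * φ x) MeasureTheory.volume r r' :=
    (hc.mono (by
      rw [uIcc_of_le hrr]
      exact fun x hx => ⟨by linarith [hx.1], by linarith [hx.2]⟩)).intervalIntegrable
  have i2 : IntervalIntegrable (fun x => x * φ x) MeasureTheory.volume r' M :=
    (hc.mono (by
      rw [uIcc_of_le hM']
      exact fun x hx => ⟨by linarith [hx.1], by linarith [hx.2]⟩)).intervalIntegrable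
  have e1 := intervalIntegral.integral_add_adjacent_intervals i1 i2
  have i3 : IntervalIntegrable (fun x => x * φ r) MeasureTheory.volume r r' :=
    (by fun_prop : Continuous fun x : ℝ => x * φ r).intervalIntegrable r r'
  have e2 : ∫ x in r..r', x * φ r = φ r * (r' ^ 2 - r ^ 2) / 2 := by
    rw [intervalIntegral.integral_mul_const, integral_id]
    ring
  obtain ⟨J, hJ⟩ : ∃ J, J = ∫ x in r..r', (x * φ x - x * φ r) := ⟨_, rfl⟩
  have e3 : J = (∫ x in r..r', x * φ x) - φ r * (r' ^ 2 - r ^ 2) / 2 := by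
    rw [hJ, intervalIntegral.integral_sub i1 i3, e2]
  have hJn : |J| ≤ (r' - r) ^ 2 / 50 := by
    have := intervalIntegral.norm_integral_le_of_norm_le_const (a := r) (b := r')
      (f := fun x => x * φ x - x * φ r) (C := (r' - r) / 50) (fun x hx => by
        rw [uIoc_of_le hrr] at hx
        have h3 := h r x hr hx.1.le (by linarith [hx.2])
        have h4 := abs_nonneg (φ x - φ r)
        rw [Real.norm_eq_abs, ← mul_sub, abs_mul, abs_of_pos (by linarith [hx.1] : 0 < x)]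
        have : x * |φ x - φ r| ≤ 2 * r * |φ x - φ r| :=
          mul_le_mul_of_nonneg_right (by linarith [hx.2]) h4
        linarith [hx.2])
    rw [← hJ, Real.norm_eq_abs, abs_of_nonneg (by linarith : 0 ≤ r' - r)] at this
    linarith
  obtain ⟨D, hD⟩ : ∃ D, D = φ r' - φ r := ⟨_, rfl⟩
  have hs := h r r' hr hrr (by linarith)
  rw [← hD] at hs
  have hD0 := abs_nonneg D
  have hD1 : |D| ≤ 1 := by
    by_contra hcon
    push Not at hcon
    nlinarith
  have hsin := sin_sub_self hD1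
  have e4 : Sw φ M r' - Sw φ M r - ((starRingEnd ℂ) (zz φ r) * zz φ r').im / 2 =
      r' * (r' - r) * D / 2 - J - r * r' * (Real.sin D - D) / 2 := by
    rw [zz_im, ← hD]
    unfold Sw
    rw [← e1, e3, hD]
    ring
  have b1 : |r' * (r' - r) * D / 2| ≤ (r' - r) ^ 2 / 100 := by
    rw [abs_div, abs_mul, abs_mul, abs_of_pos (by linarith : 0 < r'),
      abs_of_nonneg (by linarith : 0 ≤ r' - r), abs_of_pos (by norm_num : (0:ℝ) < 2)]
    have : r' * |D| ≤ (r' - r) / 50 := by nlinarith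
    nlinarith
  have b2 : |r * r' * (Real.sin D - D) / 2| ≤ (r' - r) ^ 2 / 10000 := by
    rw [abs_div, abs_mul, abs_mul, abs_of_pos (by linarith : 0 < r'), abs_of_pos hr,
      abs_of_pos (by norm_num : (0:ℝ) < 2)]
    have h5 : r' * |D| ≤ (r' - r) / 50 := by nlinarith
    have h6 : r * |D| ≤ (r' - r) / 100 := by linarith
    have hr' : 0 < r' := by linarith
    have h7 : r * r' * |Real.sin D - D| ≤ r * r' * D ^ 2 :=
      mul_le_mul_of_nonneg_left hsin (by positivity)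
    have h8 : r * r' * D ^ 2 = (r * |D|) * (r' * |D|) := by rw [← sq_abs]; ring
    have h9 : (r * |D|) * (r' * |D|) ≤ (r' - r) / 100 * ((r' - r) / 50) :=
      mul_le_mul h6 h5 (by positivity) (by linarith)
    rw [h8] at h7
    nlinarith
  have b1' := abs_le.1 b1
  have b2' := abs_le.1 b2
  have b3' := abs_le.1 hJn
  rw [e4, abs_le]
  constructor <;> nlinarith [sq_nonneg (r' - r)]

theorem Sw_diff' (h : Slow φ R) {M : ℝ} (hM : M < R) {r r' : ℝ} (hr : 0 < r) (hr' : 0 < r')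
    (h1 : r ≤ 2 * r') (h2 : r' ≤ 2 * r) (m1 : r ≤ M) (m2 : r' ≤ M) :
    |Sw φ M r' - Sw φ M r - ((starRingEnd ℂ) (zz φ r) * zz φ r').im / 2| ≤ (r' - r) ^ 2 / 30 := by
  rcases le_total r r' with hle | hle
  · exact Sw_diff h hM hr hle h2 m2
  · have := Sw_diff h hM hr' hle h1 m1
    have e : ((starRingEnd ℂ) (zz φ r) * zz φ r').im = -((starRingEnd ℂ) (zz φ r') * zz φ r).im := by
      rw [← conj_im, map_mul, conj_conj, mul_comm]
    rw [e]
    rw [show Sw φ M r' - Sw φ M r - -((starRingEnd ℂ) (zz φ r') * zz φ r).im / 2 =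
      -(Sw φ M r - Sw φ M r' - ((starRingEnd ℂ) (zz φ r') * zz φ r).im / 2) by ring, abs_neg,
      show (r' - r) ^ 2 = (r - r') ^ 2 by ring]
    exact this

/-- the side from `E` to a point `F` with the same modulus is perpendicular to the bisector -/
theorem north {E F : ℂ} (hEF : ‖E‖ = ‖F‖) (v : ℂ) :
    normSq (E + F) * ((starRingEnd ℂ) (F - E) * v).im =
      -(2 * ((starRingEnd ℂ) E * F).im * ((starRingEnd ℂ) (E + F) * v).re) := by
  have h : normSq E = normSq F := by rw [normSq_eq_norm_sq, normSq_eq_norm_sq, hEF]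
  rw [normSq_apply, normSq_apply] at h
  simp only [normSq_apply, mul_im, mul_re, conj_re, conj_im, add_re, add_im, sub_re, sub_im]
  linear_combination (-(E.re * v.im + F.re * v.im - E.im * v.re - F.im * v.re)) * h

/-- the area functional -/
noncomputable def Psi (α β : ℝ → ℝ) (M a t b : ℝ) : ℝ :=
  (Sw α M a - Sw α M t) - (Sw β M b - Sw β M ‖EE α β a t b‖) -
    ((starRingEnd ℂ) (EE α β a t b) * zz β ‖EE α β a t b‖).im / 2

section
variable {a t b : ℝ}

theorem Tr.mid (h : Thin α β R) (T : Tr α β R a t b) :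
    ‖(EE α β a t b + zz β ‖EE α β a t b‖) / 2 - zz α a‖ ≤ a / 12 := by
  have h1 := T.dE h
  have h2 := T.dE0 h
  have h3 := T.a0
  have e : (EE α β a t b + zz β ‖EE α β a t b‖) / 2 - zz α a =
      ((EE α β a t b - zz α a) + (zz β ‖EE α β a t b‖ - zz α a)) / 2 := by ring
  rw [e, norm_div]
  have h4 := norm_add_le (EE α β a t b - zz α a) (zz β ‖EE α β a t b‖ - zz α a)
  have h5 : ‖(2:ℂ)‖ = 2 := by norm_num
  rw [h5]
  linarith

theorem half_re (E F v : ℂ) : ((starRingEnd ℂ) ((E + F) / 2) * v).re =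
    ((starRingEnd ℂ) (E + F) * v).re / 2 := by
  have : (starRingEnd ℂ) ((E + F) / 2) * v = ((1 / 2 : ℝ) : ℂ) * ((starRingEnd ℂ) (E + F) * v) := by
    rw [map_div₀]
    simp only [map_ofNat]
    push_cast
    ring
  rw [this, re_ofReal_mul]
  ring

theorem Tr.sum_pos (h : Thin α β R) (T : Tr α β R a t b) :
    0 < normSq (EE α β a t b + zz β ‖EE α β a t b‖) := by
  rw [normSq_pos]
  intro h0
  have h1 := T.mid h
  rw [h0, zero_div, zero_sub, norm_neg, norm_zz T.a0.le] at h1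
  linarith [T.a0]

theorem Psi_pos (h : Thin α β R) {M : ℝ} (hM : M < R) (hM2 : 2 * R ≤ 3 * M) (T : Tr α β R a t b)
    (hσ : 0 ≤ ((starRingEnd ℂ) (EE α β a t b) * zz β ‖EE α β a t b‖).im) : 0 < Psi α β M a t b := by
  have ha0 := T.a0
  have haR := T.aR
  have s1 := abs_le.1 (T.bb h)
  have s2 := abs_le.1 (T.ee h)
  have s3 := T.t1
  have s5 := T.ta
  obtain ⟨E, hE⟩ : ∃ E, E = EE α β a t b := ⟨_, rfl⟩
  obtain ⟨F, hF⟩ : ∃ F, F = zz β ‖E‖ := ⟨_, rfl⟩
  have hEn : 0 < ‖E‖ := by rw [hE]; linarith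
  have hFn : ‖E‖ = ‖F‖ := by rw [hF, norm_zz hEn.le]
  obtain ⟨g, hg⟩ : ∃ g, g = zz α a - zz α t := ⟨_, rfl⟩
  have hg0 : 0 < ‖g‖ := by
    rw [norm_pos_iff, hg, sub_ne_zero]
    intro hc
    have := congrArg norm hc
    rw [norm_zz ha0.le, norm_zz T.t0.le] at this
    linarith
  have d1 := abs_le.1 (Sw_diff' h.sa hM T.t0 ha0 (by linarith) (by linarith) (by linarith)
    (by linarith))
  have d2 := abs_le.1 (Sw_diff' h.sb hM (r := ‖E‖) (r' := b) hEn T.b0 (by rw [hE]; linarith)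
    (by rw [hE]; linarith) (by rw [hE]; linarith) (by linarith))
  have hat : (a - t) ^ 2 ≤ ‖g‖ ^ 2 := by
    have := abs_norm_sub_norm_le (zz α a) (zz α t)
    rw [norm_zz ha0.le, norm_zz T.t0.le, ← hg] at this
    rw [← sq_abs]
    exact pow_le_pow_left₀ (abs_nonneg _) this 2
  have heb : (b - ‖E‖) ^ 2 ≤ ‖g‖ ^ 2 := by
    have := T.eb h
    rw [← hg, ← hE, abs_sub_comm] at this
    rw [← sq_abs]
    exact pow_le_pow_left₀ (abs_nonneg _) this 2
  have hBE : zz β b - E = g := by rw [hE, hg]; unfold EE; ring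
  have hED : E - zz α t = I * g := by
    rw [hE, hg]; unfold EE; rw [T.sq]; ring
  have id1 : ((starRingEnd ℂ) (zz α t) * zz α a).im - ((starRingEnd ℂ) F * zz β b).im -
      ((starRingEnd ℂ) E * F).im = ‖g‖ ^ 2 - ((starRingEnd ℂ) (F - E) * g).im := by
    have e1 : zz α a = zz α t + g := by rw [hg]; ring
    have e2 : E = zz α t + I * g := by rw [← hED]; ring
    have e3 : zz β b = zz α t + I * g + g := by rw [← e2, ← hBE]; ring
    rw [e1, e3, e2, ← normSq_eq_norm_sq, normSq_apply]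
    simp only [mul_im, conj_re, conj_im, add_re, add_im, sub_re, sub_im, I_re, I_im, mul_re]
    ring
  have hN := T.sum_pos h
  rw [← hE, ← hF] at hN
  have hno := north hFn g
  have hre : 0 ≤ ((starRingEnd ℂ) (E + F) * g).re := by
    have hA : zz α a ≠ 0 := zz_ne ha0
    have hAn : ‖zz α a‖ = a := norm_zz ha0.le
    have hm := T.mid h
    rw [← hE, ← hF] at hm
    have hD : ‖zz α t - zz α a‖ ≤ ‖zz α a‖ / 12 := by
      rw [hAn, norm_sub_rev]; linarith [T.dD h]
    have c := cone h.sa T.t0 s5.le (by linarith) (by linarith)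
      (near_sec hA (e := (E + F) / 2) (by rw [hAn]; exact hm) hD).1
    rw [← hg, half_re] at c
    have := abs_nonneg ((starRingEnd ℂ) ((E + F) / 2) * g).im
    linarith
  have hle : ((starRingEnd ℂ) (F - E) * g).im ≤ 0 := by
    rw [← hE, ← hF] at hσ
    by_contra hcon
    push Not at hcon
    have h1 := mul_pos hN hcon
    rw [hno] at h1
    have := mul_nonneg hσ hre
    linarith
  unfold Psi
  rw [← hE, ← hF]
  rw [← hF] at d2
  have hg2 : 0 < ‖g‖ ^ 2 := by positivity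
  linarith

theorem Psi_hi (h : Thin α β R) {M : ℝ} (hM : M < R) (hM2 : 2 * R ≤ 3 * M) (T : Tr α β R a t b) :
    Psi α β M a t b ≤ 4 * a ^ 2 := by
  have ha0 := T.a0
  have haR := T.aR
  have s1 := abs_le.1 (T.bb h)
  have s2 := abs_le.1 (T.ee h)
  have s3 := T.t1
  have s5 := T.ta
  obtain ⟨E, hE⟩ : ∃ E, E = EE α β a t b := ⟨_, rfl⟩
  obtain ⟨F, hF⟩ : ∃ F, F = zz β ‖E‖ := ⟨_, rfl⟩
  have hEn : 0 < ‖E‖ := by rw [hE]; linarith
  have hFn : ‖F‖ = ‖E‖ := by rw [hF, norm_zz hEn.le]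
  have hE2 : ‖E‖ ≤ 6 / 5 * a := by rw [hE]; linarith
  have d1 := abs_le.1 (Sw_diff' h.sa hM T.t0 ha0 (by linarith) (by linarith) (by linarith)
    (by linarith))
  have d2 := abs_le.1 (Sw_diff' h.sb hM (r := ‖E‖) (r' := b) hEn T.b0 (by rw [hE]; linarith)
    (by rw [hE]; linarith) (by rw [hE]; linarith) (by linarith))
  have b1 : |((starRingEnd ℂ) (zz α t) * zz α a).im| ≤ a * a := by
    refine (abs_im_le_norm _).trans ?_
    rw [norm_mul, RCLike.norm_conj, norm_zz ha0.le, norm_zz T.t0.le]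
    exact mul_le_mul_of_nonneg_right s5.le ha0.le
  have b2 : |((starRingEnd ℂ) F * zz β b).im| ≤ (6 / 5 * a) * (6 / 5 * a) := by
    refine (abs_im_le_norm _).trans ?_
    rw [norm_mul, RCLike.norm_conj, norm_zz T.b0.le, hFn]
    exact mul_le_mul hE2 (by linarith) T.b0.le (by positivity)
  have b3 : |((starRingEnd ℂ) E * F).im| ≤ (6 / 5 * a) * (6 / 5 * a) := by
    refine (abs_im_le_norm _).trans ?_
    rw [norm_mul, RCLike.norm_conj, hFn]
    exact mul_le_mul hE2 hE2 hEn.le (by positivity)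
  have b1' := abs_le.1 b1
  have b2' := abs_le.1 b2
  have b3' := abs_le.1 b3
  have c1 : (a - t) ^ 2 ≤ a ^ 2 := by
    have := T.t0
    nlinarith
  have c2 : (b - ‖E‖) ^ 2 ≤ a ^ 2 := by
    have h1 : -a ≤ b - ‖E‖ := by linarith
    have h2 : b - ‖E‖ ≤ a := by
      have : 0 ≤ ‖E‖ := hEn.le
      rw [hE]; linarith
    nlinarith
  unfold Psi
  rw [← hE, ← hF]
  rw [← hF] at d2
  nlinarith

end

/-- sizes of the increments -/
theorem incr (h : Thin α β R) {a t b a' t' b' : ℝ} (T : Tr α β R a t b) (T' : Tr α β R a' t' b')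
    (haa : a ≤ a') (ha' : a' ≤ 201 / 200 * a) :
    ‖zz α t' - zz α t‖ ≤ 3 * (a' - a) ∧ ‖zz β b' - zz β b‖ ≤ 3 * (a' - a) ∧
      ‖EE α β a' t' b' - EE α β a t b‖ ≤ 8 * (a' - a) ∧ ‖EE α β a t b‖ ≤ ‖EE α β a' t' b'‖ := by
  have ha0 := T.a0
  have haR := T.aR
  have haR' := T'.aR
  have hAn : ‖zz α a‖ = a := norm_zz ha0.le
  have hdA : ‖zz α a' - zz α a‖ ≤ 51 / 50 * (a' - a) :=
    zz_dist h.sa ha0 haa (by linarith) (by linarith)
  obtain ⟨⟨l1, l2, l3, l4, -⟩, l6, l7⟩ := two h T T' haa ha' (e := zz α a)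
    (by rw [sub_self, norm_zero]; positivity)
  have hp : ((starRingEnd ℂ) (zz α a) * (zz α a' - zz α a)).re ≤ a * (51 / 50 * (a' - a)) := by
    refine (le_abs_self _).trans ((abs_re_le_norm _).trans ?_)
    rw [norm_mul, RCLike.norm_conj, hAn]
    exact mul_le_mul_of_nonneg_left hdA ha0.le
  have gen : ∀ v : ℂ, 0 ≤ ((starRingEnd ℂ) (zz α a) * v).re →
      ((starRingEnd ℂ) (zz α a) * v).re ≤ 2 * ((starRingEnd ℂ) (zz α a) * (zz α a' - zz α a)).re →
      4 * |((starRingEnd ℂ) (zz α a) * v).im| ≤ |((starRingEnd ℂ) (zz α a) * v).re| →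
      ‖v‖ ≤ 3 * (a' - a) := by
    intro v v1 v2 v3
    rw [abs_of_nonneg v1] at v3
    have h1 := norm_le_abs_re_add_abs_im ((starRingEnd ℂ) (zz α a) * v)
    rw [norm_mul, RCLike.norm_conj, hAn, abs_of_nonneg v1] at h1
    have h2 : a * ‖v‖ ≤ a * (3 * (a' - a)) := by nlinarith
    exact le_of_mul_le_mul_left h2 ha0
  have hD := gen _ l3 l4 l7
  have hB := gen _ l1 l2 l6
  refine ⟨hD, hB, ?_, ?_⟩
  · have e : EE α β a' t' b' - EE α β a t b = (zz β b' - zz β b) + (zz α t' - zz α t) -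
      (zz α a' - zz α a) := by unfold EE; ring
    rw [e]
    have := norm_sub_le ((zz β b' - zz β b) + (zz α t' - zz α t)) (zz α a' - zz α a)
    have := norm_add_le (zz β b' - zz β b) (zz α t' - zz α t)
    linarith
  · obtain ⟨⟨-, -, -, -, l5⟩, -, -⟩ := two h T T' haa ha' (e := EE α β a t b)
      (by linarith [T.dE h])
    obtain ⟨E, hE⟩ : ∃ E, E = EE α β a t b := ⟨_, rfl⟩
    obtain ⟨E', hE'⟩ : ∃ E', E' = EE α β a' t' b' := ⟨_, rfl⟩
    rw [← hE, ← hE'] at l5 ⊢
    have hEn : 0 < ‖E‖ := by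
      have := abs_le.1 (T.ee h)
      rw [hE]; linarith
    have e1 : ((starRingEnd ℂ) E * (E' - E)).re = ((starRingEnd ℂ) E * E').re - ‖E‖ ^ 2 := by
      rw [mul_sub, sub_re]
      congr 1
      rw [mul_comm, mul_conj, normSq_eq_norm_sq, ofReal_re]
    have e2 : ((starRingEnd ℂ) E * E').re ≤ ‖E‖ * ‖E'‖ := by
      refine (le_abs_self _).trans ((abs_re_le_norm _).trans ?_)
      rw [norm_mul, RCLike.norm_conj]
    have e3 : ‖E‖ * ‖E‖ ≤ ‖E‖ * ‖E'‖ := by nlinarith
    exact le_of_mul_le_mul_left e3 hEn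

theorem Psi_step (h : Thin α β R) {M : ℝ} (hM : M < R) (hM2 : 2 * R ≤ 3 * M)
    {a t b a' t' b' : ℝ} (T : Tr α β R a t b) (T' : Tr α β R a' t' b')
    (haa : a ≤ a') (ha' : a' ≤ 201 / 200 * a)
    (hσ : 0 ≤ ((starRingEnd ℂ) (EE α β a t b) * zz β ‖EE α β a t b‖).im) :
    Psi α β M a' t' b' ≤ Psi α β M a t b + 40 * (a' - a) ^ 2 := by
  obtain ⟨i1, i2, i3, i4⟩ := incr h T T' haa ha'
  have ha0 := T.a0
  have haR := T.aR
  have ha0' := T'.a0
  have haR' := T'.aR
  have s1 := abs_le.1 (T.bb h)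
  have s2 := abs_le.1 (T.ee h)
  have s3 := T.t1
  have s5 := T.ta
  have s1' := abs_le.1 (T'.bb h)
  have s2' := abs_le.1 (T'.ee h)
  have s3' := T'.t1
  have s5' := T'.ta
  have hm := T.mid h
  have hN := T.sum_pos h
  have hE0 := T.dE0 h
  obtain ⟨-, -, -, -, l5⟩ := (two h T T' haa ha' hm).1
  obtain ⟨E, hE⟩ : ∃ E, E = EE α β a t b := ⟨_, rfl⟩
  obtain ⟨F, hF⟩ : ∃ F, F = zz β ‖E‖ := ⟨_, rfl⟩
  obtain ⟨E', hE'⟩ : ∃ E', E' = EE α β a' t' b' := ⟨_, rfl⟩
  obtain ⟨F', hF'⟩ : ∃ F', F' = zz β ‖E'‖ := ⟨_, rfl⟩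
  rw [← hE] at s2 i3 i4 l5 hm hN hE0 hσ
  rw [← hE'] at s2' i3 i4 l5
  rw [← hF] at l5 hm hN hE0 hσ
  have hEn : 0 < ‖E‖ := by linarith
  have hEn' : 0 < ‖E'‖ := by linarith
  have hFn : ‖E‖ = ‖F‖ := by rw [hF, norm_zz hEn.le]
  obtain ⟨d, hd⟩ : ∃ d, d = a' - a := ⟨_, rfl⟩
  have hd0 : 0 ≤ d := by linarith
  rw [← hd] at i1 i2 i3
  have hAn : ‖zz α a‖ = a := norm_zz ha0.le
  have n3 : |‖E'‖ - ‖E‖| ≤ 8 * d := (abs_norm_sub_norm_le _ _).trans i3
  have n1 : |t' - t| ≤ 3 * d := by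
    have := abs_norm_sub_norm_le (zz α t') (zz α t)
    rw [norm_zz T.t0.le, norm_zz T'.t0.le] at this
    exact this.trans i1
  have n2 : |b' - b| ≤ 3 * d := by
    have := abs_norm_sub_norm_le (zz β b') (zz β b)
    rw [norm_zz T.b0.le, norm_zz T'.b0.le] at this
    exact this.trans i2
  have hf : ‖F' - F‖ ≤ 9 * d := by
    rw [hF, hF']
    have := zz_dist' h.sb (r := ‖E‖) (r' := ‖E'‖) hEn hEn' (by linarith) (by linarith)
      (by linarith) (by linarith)
    linarith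
  have sq1 : ∀ x y : ℝ, |x| ≤ y → x ^ 2 ≤ y ^ 2 := fun x y hxy => by
    rw [← sq_abs]; exact pow_le_pow_left₀ (abs_nonneg _) hxy 2
  have q1 : (t' - t) ^ 2 ≤ 9 * d ^ 2 := (sq1 _ _ n1).trans (by linarith [mul_pow 3 d 2])
  have q2 : (b' - b) ^ 2 ≤ 9 * d ^ 2 := (sq1 _ _ n2).trans (by linarith [mul_pow 3 d 2])
  have q3 : (‖E'‖ - ‖E‖) ^ 2 ≤ 64 * d ^ 2 := (sq1 _ _ n3).trans (by linarith [mul_pow 8 d 2])
  have d1 := abs_le.1 (Sw_diff' h.sa hM (r := a) (r' := a') ha0 ha0' (by linarith) (by linarith)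
    (by linarith) (by linarith))
  have d2 := abs_le.1 (Sw_diff' h.sa hM (r := t) (r' := t') T.t0 T'.t0 (by linarith) (by linarith)
    (by linarith) (by linarith))
  have d3 := abs_le.1 (Sw_diff' h.sb hM (r := b) (r' := b') T.b0 T'.b0 (by linarith) (by linarith)
    (by linarith) (by linarith))
  have d4 := abs_le.1 (Sw_diff' h.sb hM (r := ‖E‖) (r' := ‖E'‖) hEn hEn' (by linarith)
    (by linarith) (by linarith) (by linarith))
  rw [← hF, ← hF'] at d4
  rw [← hd] at d1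
  have hDt : zz α t = E + I * zz α t - I * zz α a := by
    rw [hE]; unfold EE; rw [T.sq]; ring
  have id0 : ((starRingEnd ℂ) (zz α a) * zz α a').im - ((starRingEnd ℂ) (zz α t) * zz α t').im -
      ((starRingEnd ℂ) (zz β b) * zz β b').im + ((starRingEnd ℂ) E * E').im = 0 := by
    rw [hE, hE']
    unfold EE
    rw [T.sq, T'.sq]
    simp only [mul_im, conj_re, conj_im, add_re, add_im, sub_re, sub_im, I_re, I_im, mul_re, one_re,
      one_im]
    ring
  have id1 : ((starRingEnd ℂ) F * F').im - ((starRingEnd ℂ) E * E').im -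
      ((starRingEnd ℂ) E' * F').im + ((starRingEnd ℂ) E * F).im =
      ((starRingEnd ℂ) (F - E) * (E' - E)).im + ((starRingEnd ℂ) (F - E) * (F' - F)).im +
        ((starRingEnd ℂ) (F' - F) * (E' - E)).im := by
    simp only [mul_im, conj_re, conj_im, sub_re, sub_im]
    ring
  have r1 : 0 ≤ ((starRingEnd ℂ) (E + F) * (E' - E)).re := by
    rw [half_re] at l5; linarith
  have r2 : 0 ≤ ((starRingEnd ℂ) (E + F) * (F' - F)).re := by
    have hA : zz α a ≠ 0 := zz_ne ha0
    have c := cone h.sb (r := ‖E‖) (r' := ‖E'‖) hEn i4 (by linarith) (by linarith)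
      (near_sec hA (e := (E + F) / 2) (by rw [hAn]; exact hm)
        (by rw [← hF, hAn]; exact hE0)).1
    rw [← hF, ← hF', half_re] at c
    have := abs_nonneg ((starRingEnd ℂ) ((E + F) / 2) * (F' - F)).im
    linarith
  have neg : ∀ v, 0 ≤ ((starRingEnd ℂ) (E + F) * v).re → ((starRingEnd ℂ) (F - E) * v).im ≤ 0 := by
    intro v hv
    by_contra hcon
    push Not at hcon
    have h1 := mul_pos hN hcon
    rw [north hFn v] at h1
    have := mul_nonneg hσ hv
    linarith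
  have m1 := neg _ r1
  have m2 := neg _ r2
  have m3 : ((starRingEnd ℂ) (F' - F) * (E' - E)).im ≤ 72 * d ^ 2 := by
    refine (le_abs_self _).trans ((abs_im_le_norm _).trans ?_)
    rw [norm_mul, RCLike.norm_conj]
    exact (mul_le_mul hf i3 (norm_nonneg _) (by positivity)).trans (by ring_nf; rfl)
  have hdd : 0 ≤ d ^ 2 := sq_nonneg d
  obtain ⟨d11, d12⟩ := d1
  obtain ⟨d21, d22⟩ := d2
  obtain ⟨d31, d32⟩ := d3
  obtain ⟨d41, d42⟩ := d4
  clear hm hN hE0 l5 s1 s2 s3 s5 s1' s2' s3' s5' hEn hEn' hFn hDt r1 r2 neg hf i1 i2 i3 i4 sq1 n1 n2 n3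
  unfold Psi
  rw [← hE, ← hF, ← hE', ← hF', ← hd]
  generalize ((starRingEnd ℂ) (zz α a) * zz α a').im = y1 at *
  generalize ((starRingEnd ℂ) (zz α t) * zz α t').im = y2 at *
  generalize ((starRingEnd ℂ) (zz β b) * zz β b').im = y3 at *
  generalize ((starRingEnd ℂ) E * E').im = y4 at *
  generalize ((starRingEnd ℂ) F * F').im = y5 at *
  generalize ((starRingEnd ℂ) E' * F').im = y6 at *
  generalize ((starRingEnd ℂ) E * F).im = y7 at *
  generalize ((starRingEnd ℂ) (F - E) * (E' - E)).im = y8 at *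
  generalize ((starRingEnd ℂ) (F - E) * (F' - F)).im = y9 at *
  generalize ((starRingEnd ℂ) (F' - F) * (E' - E)).im = y10 at *
  linarith

/-- a function that does not increase up to a local quadratic error does not increase -/
theorem mono_loc {P : ℝ → ℝ} {a b C η : ℝ} (hη : 0 < η) (hab : a ≤ b)
    (h : ∀ x y, a ≤ x → x ≤ y → y ≤ b → y - x ≤ η → P y ≤ P x + C * (y - x) ^ 2) : P b ≤ P a := by
  have key : ∀ n : ℕ, 0 < n → (b - a) / n ≤ η → P b ≤ P a + C * (b - a) ^ 2 / n := by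
    intro n hn hnη
    have hn' : (0:ℝ) < n := by exact_mod_cast hn
    have step : ∀ k : ℕ, k ≤ n → P (a + k * ((b - a) / n)) ≤ P a + k * (C * ((b - a) / n) ^ 2) := by
      intro k
      induction k with
      | zero => intro _; simp
      | succ k ih =>
        intro hk
        have hk' : ((k:ℝ) + 1) ≤ n := by exact_mod_cast hk
        have h0 : 0 ≤ (b - a) / n := div_nonneg (by linarith) hn'.le
        have h1 : ((k:ℝ) + 1) * ((b - a) / n) ≤ b - a := by
          calc ((k:ℝ) + 1) * ((b - a) / n) ≤ n * ((b - a) / n) :=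
                mul_le_mul_of_nonneg_right hk' h0
            _ = b - a := by field_simp
        have e : a + (k + 1) * ((b - a) / n) - (a + k * ((b - a) / n)) = (b - a) / n := by ring
        have := h (a + k * ((b - a) / n)) (a + (k + 1) * ((b - a) / n))
          (by have : 0 ≤ (k:ℝ) * ((b - a) / n) := by positivity
              linarith) (by nlinarith) (by linarith) (by rw [e]; exact hnη)
        rw [e] at this
        have ih' := ih (by omega)
        push_cast
        linarith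
    have := step n le_rfl
    have e1 : (n:ℝ) * ((b - a) / n) = b - a := by field_simp
    have e2 : (n:ℝ) * (C * ((b - a) / n) ^ 2) = C * (b - a) ^ 2 / n := by field_simp
    rw [e1, e2] at this
    have e3 : a + (b - a) = b := by ring
    rwa [e3] at this
  by_contra hcon
  push Not at hcon
  have hpos : 0 < P b - P a := by linarith
  obtain ⟨n, hn⟩ := exists_nat_gt (max (C * (b - a) ^ 2 / (P b - P a)) ((b - a) / η))
  have h1 := (le_max_left _ _).trans_lt hn
  have h2 := (le_max_right _ _).trans_lt hn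
  have hn0 : 0 < n := by
    have : (0:ℝ) ≤ (b - a) / η := div_nonneg (by linarith) hη.le
    have : (0:ℝ) < n := by linarith
    exact_mod_cast this
  have hn1 : (0:ℝ) < n := by exact_mod_cast hn0
  have := key n hn0 (by
    rw [div_lt_iff₀ hη] at h2
    rw [div_le_iff₀ hn1]; linarith)
  rw [div_lt_iff₀ hpos] at h1
  have h3 : C * (b - a) ^ 2 / n < P b - P a := by
    rw [div_lt_iff₀ hn1]; linarith
  linarith

end Pool.Agent.Helper665_SP
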