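import Mathlib

/-! Plane curves that leave a point almost radially: the two arms and elementary geometry. -/

set_option autoImplicit false
open Complex Set

namespace Pool.Agent.Helper665_SP

/-- an angle that turns slowly with the radius -/
def Slow (φ : ℝ → ℝ) (R : ℝ) : Prop :=
  ∀ r r', 0 < r → r ≤ r' → r' < R → 100 * (r * |φ r' - φ r|) ≤ r' - r

/-- the point of an arm at the distance `r` -/
noncomputable def zz (φ : ℝ → ℝ) (r : ℝ) : ℂ := r * exp (φ r * I)

variable {φ α β : ℝ → ℝ} {R : ℝ}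

theorem norm_zz {r : ℝ} (hr : 0 ≤ r) : ‖zz φ r‖ = r := by
  unfold zz
  rw [norm_mul, norm_exp_ofReal_mul_I, mul_one, norm_real, Real.norm_eq_abs, abs_of_nonneg hr]

theorem zz_ne {r : ℝ} (hr : 0 < r) : zz φ r ≠ 0 := by
  rw [← norm_pos_iff, norm_zz hr.le]; exact hr

theorem zz_conj (r : ℝ) : (starRingEnd ℂ) (zz φ r) = zz (fun x => -φ x) r := by
  unfold zz
  rw [map_mul, conj_ofReal, ← exp_conj, map_mul, conj_ofReal, conj_I]
  push_cast
  congr 2
  ring

theorem Slow.neg (h : Slow φ R) : Slow (fun x => -φ x) R := fun r r' a b d => by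
  have := h r r' a b d
  rwa [show -φ r' - -φ r = -(φ r' - φ r) by ring, abs_neg]

theorem Slow.add_const (h : Slow φ R) (k : ℝ) : Slow (fun x => φ x + k) R := fun r r' a b d => by
  have := h r r' a b d
  rwa [show φ r' + k - (φ r + k) = φ r' - φ r by ring]

theorem zz_add_two_pi (n : ℤ) (r : ℝ) : zz (fun x => φ x + n * (2 * Real.pi)) r = zz φ r := by
  unfold zz
  congr 1
  rw [Complex.exp_eq_exp_iff_exists_int]
  exact ⟨n, by push_cast; ring⟩

theorem Slow.cont (h : Slow φ R) : ContinuousOn φ (Ioo 0 R) := by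
  rw [Metric.continuousOn_iff]
  intro b hb ε hε
  obtain ⟨hb0, hbR⟩ := hb
  refine ⟨min (b / 2) (b * ε), by positivity, fun a ha hab => ?_⟩
  rw [Real.dist_eq] at hab ⊢
  have h1 := hab.trans_le (min_le_left _ _)
  have h2 := hab.trans_le (min_le_right _ _)
  have h1' := abs_lt.1 h1
  rcases le_total a b with hle | hle
  · have := h a b ha.1 hle hbR
    rw [abs_sub_comm (φ a)]
    rw [abs_sub_comm, abs_of_nonneg (by linarith)] at h2
    have ha2 : b / 2 < a := by linarith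
    by_contra hcon
    push Not at hcon
    have : b / 2 * ε ≤ a * |φ b - φ a| := mul_le_mul ha2.le hcon hε.le ha.1.le
    nlinarith
  · have := h b a hb0 hle ha.2
    rw [abs_of_nonneg (by linarith)] at h2
    by_contra hcon
    push Not at hcon
    have : b * ε ≤ b * |φ a - φ b| := mul_le_mul_of_nonneg_left hcon hb0.le
    nlinarith

theorem zz_contOn (h : Slow φ R) : ContinuousOn (zz φ) (Ioo 0 R) := by
  unfold zz
  have := h.cont
  fun_prop

/-- the quotient of two points of an arm -/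
theorem zz_quot {r r' : ℝ} (hr : 0 < r) : zz φ r' = zz φ r * ((r' / r : ℝ) * exp ((φ r' - φ r : ℝ) * I)) := by
  unfold zz
  have hrc : (r : ℂ) ≠ 0 := by exact_mod_cast hr.ne'
  have e : exp (φ r' * I) = exp (φ r * I) * exp ((φ r' - φ r : ℝ) * I) := by
    rw [← Complex.exp_add]
    congr 1
    push_cast
    ring
  rw [e]
  push_cast
  field_simp

theorem norm_exp_sub_one (x : ℝ) : ‖exp (x * I) - 1‖ ≤ |x| := by
  have := Real.norm_exp_I_mul_ofReal_sub_one_le (x := x)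
  rwa [mul_comm, Real.norm_eq_abs] at this

/-- increments of an arm are almost radial -/
theorem zz_incr (h : Slow φ R) {r r' : ℝ} (hr : 0 < r) (hrr : r ≤ r') (h2 : r' ≤ 2 * r) (hR : r' < R) :
    ∃ v : ℂ, zz φ r' - zz φ r = ((r' - r) / r : ℝ) * (zz φ r * (1 + v)) ∧ ‖v‖ ≤ 1 / 50 := by
  have hs := h r r' hr hrr hR
  rcases hrr.eq_or_lt with he | hlt
  · exact ⟨0, by rw [he]; simp, by simp⟩
  obtain ⟨m, hm⟩ : ∃ m, m = (r' - r) / r := ⟨_, rfl⟩
  have hm0 : 0 < m := by rw [hm]; exact div_pos (by linarith) hr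
  have hmc : (m : ℂ) ≠ 0 := by exact_mod_cast hm0.ne'
  have hq : r' / r = 1 + m := by rw [hm]; field_simp; ring
  obtain ⟨E, hE⟩ : ∃ E, E = exp ((φ r' - φ r : ℝ) * I) - 1 := ⟨_, rfl⟩
  have hEn : ‖E‖ ≤ |φ r' - φ r| := by rw [hE]; exact norm_exp_sub_one _
  refine ⟨(1 + m) * E / m, ?_, ?_⟩
  · rw [zz_quot (r' := r') hr, ← hm, hq]
    have : exp ((φ r' - φ r : ℝ) * I) = 1 + E := by rw [hE]; ring
    rw [this]
    push_cast
    field_simp
    ring
  · rw [norm_div, norm_mul, norm_real, Real.norm_eq_abs, abs_of_pos hm0]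
    rw [div_le_iff₀ hm0]
    have e1 : ‖(1 + m : ℂ)‖ ≤ 2 := by
      have : (1 + m : ℂ) = ((1 + m : ℝ) : ℂ) := by push_cast; ring
      rw [this, norm_real, Real.norm_eq_abs, abs_of_pos (by linarith), ← hq]
      rw [div_le_iff₀ hr]; linarith
    have e2 : |φ r' - φ r| ≤ m / 100 := by
      rw [hm, div_div, le_div_iff₀ (by positivity)]
      linarith
    calc ‖(1 + m : ℂ)‖ * ‖E‖ ≤ 2 * (m / 100) :=
          mul_le_mul e1 (hEn.trans e2) (norm_nonneg _) (by norm_num)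
      _ = 1 / 50 * m := by ring

/-- the product with a conjugate as real and imaginary part of one frame -/
theorem near_sec {A e z : ℂ} (hA : A ≠ 0) (he : ‖e - A‖ ≤ ‖A‖ / 12) (hz : ‖z - A‖ ≤ ‖A‖ / 12) :
    14 * |((starRingEnd ℂ) e * z).im| ≤ 3 * ((starRingEnd ℂ) e * z).re ∧
      0 < ((starRingEnd ℂ) e * z).re := by
  obtain ⟨n, hn⟩ : ∃ n, n = ‖A‖ := ⟨_, rfl⟩
  have hn0 : 0 < n := by rw [hn]; exact norm_pos_iff.2 hA
  obtain ⟨u, hu⟩ : ∃ u, u = e - A := ⟨_, rfl⟩
  obtain ⟨v, hv⟩ : ∃ v, v = z - A := ⟨_, rfl⟩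
  rw [← hu, ← hn] at he
  rw [← hv, ← hn] at hz
  obtain ⟨x, hx⟩ : ∃ x, x = (starRingEnd ℂ) A * v + (starRingEnd ℂ) u * A +
    (starRingEnd ℂ) u * v := ⟨_, rfl⟩
  have e1 : (starRingEnd ℂ) e * z = ((n ^ 2 : ℝ) : ℂ) + x := by
    have h1 : e = A + u := by rw [hu]; ring
    have h2 : z = A + v := by rw [hv]; ring
    have h3 : (starRingEnd ℂ) A * A = ((n ^ 2 : ℝ) : ℂ) := by
      rw [mul_comm, mul_conj, normSq_eq_norm_sq, hn]
    rw [h1, h2, map_add, hx, ← h3]
    ring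
  have hxn : ‖x‖ ≤ n ^ 2 * (25 / 144) := by
    rw [hx]
    refine (norm_add_le _ _).trans ?_
    refine (add_le_add_left (norm_add_le _ _) _).trans ?_
    rw [norm_mul, norm_mul, norm_mul, RCLike.norm_conj, RCLike.norm_conj, ← hn]
    have hu0 := norm_nonneg u
    have hv0 := norm_nonneg v
    have : ‖u‖ * ‖v‖ ≤ n / 12 * (n / 12) := mul_le_mul he hz hv0 (by positivity)
    nlinarith
  have h1 := (abs_re_le_norm x).trans hxn
  have h2 := (abs_im_le_norm x).trans hxn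
  have h1' := abs_le.1 h1
  have hn2 : 0 < n ^ 2 := by positivity
  rw [e1, add_re, add_im, ofReal_re, ofReal_im, zero_add]
  constructor
  · linarith
  · linarith

/-- the cone property of an arm in a frame -/
theorem cone (h : Slow φ R) {r r' : ℝ} (hr : 0 < r) (hrr : r ≤ r') (h2 : r' ≤ 2 * r) (hR : r' < R)
    {e : ℂ} (he : 14 * |((starRingEnd ℂ) e * zz φ r).im| ≤ 3 * ((starRingEnd ℂ) e * zz φ r).re) :
    4 * |((starRingEnd ℂ) e * (zz φ r' - zz φ r)).im| ≤
      ((starRingEnd ℂ) e * (zz φ r' - zz φ r)).re := by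
  obtain ⟨v, hv, hvn⟩ := zz_incr h hr hrr h2 hR
  obtain ⟨m, hm⟩ : ∃ m, m = (r' - r) / r := ⟨_, rfl⟩
  have hm0 : 0 ≤ m := by rw [hm]; exact div_nonneg (by linarith) hr.le
  obtain ⟨w, hw⟩ : ∃ w, w = (starRingEnd ℂ) e * zz φ r := ⟨_, rfl⟩
  rw [← hw] at he
  have e1 : (starRingEnd ℂ) e * (zz φ r' - zz φ r) = (m : ℂ) * (w * (1 + v)) := by
    rw [hv, hw, hm]; ring
  have h1 := abs_le.1 ((abs_re_le_norm v).trans hvn)
  have h2 := abs_le.1 ((abs_im_le_norm v).trans hvn)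
  have hi := abs_le.1 (le_refl |w.im|)
  have hi0 := abs_nonneg w.im
  rw [e1, re_ofReal_mul, im_ofReal_mul, abs_mul, abs_of_nonneg hm0]
  have key : 4 * |(w * (1 + v)).im| ≤ (w * (1 + v)).re := by
    have e2 : (w * (1 + v)).im = w.im + (w.re * v.im + w.im * v.re) := by
      simp only [mul_im, add_im, one_im, add_re, one_re]; ring
    have e3 : (w * (1 + v)).re = w.re + (w.re * v.re - w.im * v.im) := by
      simp only [mul_re, add_im, one_im, add_re, one_re]; ring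
    have hw0 : 0 ≤ w.re := by linarith
    have b1 : |w.re * v.im| ≤ w.re * (1 / 50) := by
      rw [abs_mul, abs_of_nonneg hw0]
      exact mul_le_mul_of_nonneg_left (abs_le.2 h2) hw0
    have b2 : |w.im * v.re| ≤ |w.im| * (1 / 50) := by
      rw [abs_mul]
      exact mul_le_mul_of_nonneg_left (abs_le.2 h1) hi0
    have b3 : |w.re * v.re| ≤ w.re * (1 / 50) := by
      rw [abs_mul, abs_of_nonneg hw0]
      exact mul_le_mul_of_nonneg_left (abs_le.2 h1) hw0
    have b4 : |w.im * v.im| ≤ |w.im| * (1 / 50) := by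
      rw [abs_mul]
      exact mul_le_mul_of_nonneg_left (abs_le.2 h2) hi0
    have b1' := abs_le.1 b1
    have b2' := abs_le.1 b2
    have b3' := abs_le.1 b3
    have b4' := abs_le.1 b4
    have : |w.im + (w.re * v.im + w.im * v.re)| ≤ |w.im| + (w.re * (1 / 50) + |w.im| * (1 / 50)) :=
      (abs_add_le _ _).trans (add_le_add le_rfl ((abs_add_le _ _).trans (add_le_add b1 b2)))
    rw [e2, e3]
    linarith
  nlinarith

theorem zz_dist (h : Slow φ R) {r r' : ℝ} (hr : 0 < r) (hrr : r ≤ r') (h2 : r' ≤ 2 * r) (hR : r' < R) :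
    ‖zz φ r' - zz φ r‖ ≤ 51 / 50 * (r' - r) := by
  obtain ⟨v, hv, hvn⟩ := zz_incr h hr hrr h2 hR
  rw [hv, norm_mul, norm_mul, norm_zz hr.le, norm_real, Real.norm_eq_abs,
    abs_of_nonneg (div_nonneg (by linarith) hr.le)]
  have : ‖1 + v‖ ≤ 51 / 50 := by
    refine (norm_add_le _ _).trans ?_
    rw [norm_one]; linarith
  have e : (r' - r) / r * (r * ‖1 + v‖) = (r' - r) * ‖1 + v‖ := by field_simp
  rw [e]
  nlinarith

theorem zz_dist' (h : Slow φ R) {r r' : ℝ} (hr : 0 < r) (hr' : 0 < r') (h1 : r ≤ 2 * r')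
    (h2 : r' ≤ 2 * r) (hR : r < R) (hR' : r' < R) : ‖zz φ r' - zz φ r‖ ≤ 51 / 50 * |r' - r| := by
  rcases le_total r r' with hle | hle
  · rw [abs_of_nonneg (by linarith)]; exact zz_dist h hr hle h2 hR'
  · rw [norm_sub_rev, abs_sub_comm, abs_of_nonneg (by linarith)]; exact zz_dist h hr' hle h1 hR

end Pool.Agent.Helper665_SP
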