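import Pool.Agent.Helper665_SP.Gd
import Pool.Agent.Helper584_CU.Glob

/-! The number of half turns of the angle function does not change across a family of chords for
which one of the two further vertices of the square stays on one side. -/

set_option autoImplicit false
open Complex Set Topology Metric

namespace Pool.Agent.Helper665_SP

open Pool.Agent.H763R2 Pool.Agent.H763R2.An Pool.Agent.W675.Peg Pool.Agent.TH569.Peg
open Pool.Agent.Y535.PEG Pool.Agent.Helper584_CU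
open Pool.Agent.H763R2.Dm (NoSq)

variable {c : ℝ → ℂ} {θ : ℝ → ℝ → ℝ} {g : ℤ}

/-- the chords from `p` to the arc and from the arc to `q` -/
def Brd (p q : ℝ) : Set (ℝ × ℝ) :=
  ((fun y => (p, y)) '' Ioc p q) ∪ ((fun x => (x, q)) '' Ico p q)

theorem Brd_pre {p q : ℝ} (hpq : p < q) : IsPreconnected (Brd p q) := by
  refine IsPreconnected.union (p, q) ⟨q, ⟨hpq, le_rfl⟩, rfl⟩ ⟨p, ⟨le_rfl, hpq⟩, rfl⟩ ?_ ?_
  · exact isPreconnected_Ioc.image _ (by fun_prop)
  · exact isPreconnected_Ico.image _ (by fun_prop)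

theorem Brd_lt {p q : ℝ} {v : ℝ × ℝ} (hv : v ∈ Brd p q) : p ≤ v.1 ∧ v.1 < v.2 ∧ v.2 ≤ q := by
  rcases hv with ⟨y, hy, rfl⟩ | ⟨x, hx, rfl⟩
  · exact ⟨le_rfl, hy.1, hy.2⟩
  · exact ⟨hx.1, hx.2, le_rfl⟩

/-- the bridge lemma -/
theorem bridge (L : Loop c) (J : Inj c) (nosq : NoSq (range c)) (A : Ang c (mgc c) θ g) {p q : ℝ}
    (hpq : p < q) (hqp : q < p + 1) (Cp : Cone c p) (Cq : Cone c q) {τ : ℝ} (hτ : τ = 1 ∨ τ = -1)
    (H : (∀ v ∈ Brd p q, 0 < τ * mgc c (DD c v.1 v.2) ∨ 0 < τ * mgc c (CC c v.1 v.2)) ∨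
      (∀ v ∈ Brd p q, 0 < τ * mgc c (DD c v.2 v.1) ∨ 0 < τ * mgc c (CC c v.2 v.1)))
    {k l : ℤ} (hk : KL θ p k) (hl : KL θ q l) : k = l := by
  have near : ∀ {r1 r2 : ℝ}, 0 < r1 → 0 < r2 → ∃ v ∈ Brd p q, |v.1 - p| < r1 ∧ |v.2 - p| < r1 ∧
      |v.1 - p| < r2 ∧ |v.2 - p| < r2 := by
    intro r1 r2 h1 h2
    obtain ⟨r, hr, a1, a2, a3⟩ : ∃ r > 0, r ≤ r1 ∧ r ≤ r2 ∧ r ≤ q - p :=
      ⟨min (min r1 r2) (q - p), by
        have : 0 < q - p := by linarith
        positivity, (min_le_left _ _).trans (min_le_left _ _),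
        (min_le_left _ _).trans (min_le_right _ _), min_le_right _ _⟩
    refine ⟨(p, p + r / 2), Or.inl ⟨p + r / 2, ⟨by linarith, by linarith⟩, rfl⟩, ?_, ?_, ?_, ?_⟩
    · simpa using h1
    · simp only
      rw [abs_lt]; constructor <;> linarith
    · simpa using h2
    · simp only
      rw [abs_lt]; constructor <;> linarith
  have near' : ∀ {r1 r2 : ℝ}, 0 < r1 → 0 < r2 → ∃ v ∈ Brd p q, |v.1 - q| < r1 ∧ |v.2 - q| < r1 ∧
      |v.1 - q| < r2 ∧ |v.2 - q| < r2 := by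
    intro r1 r2 h1 h2
    obtain ⟨r, hr, a1, a2, a3⟩ : ∃ r > 0, r ≤ r1 ∧ r ≤ r2 ∧ r ≤ q - p :=
      ⟨min (min r1 r2) (q - p), by
        have : 0 < q - p := by linarith
        positivity, (min_le_left _ _).trans (min_le_left _ _),
        (min_le_left _ _).trans (min_le_right _ _), min_le_right _ _⟩
    refine ⟨(q - r / 2, q), Or.inr ⟨q - r / 2, ⟨by linarith, by linarith⟩, rfl⟩, ?_, ?_, ?_, ?_⟩
    · simp only
      rw [abs_lt]; constructor <;> linarith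
    · simpa using h1
    · simp only
      rw [abs_lt]; constructor <;> linarith
    · simpa using h2
  obtain ⟨r2, hr2, h2⟩ := cone_sign L J Cp
  obtain ⟨r3, hr3, h3⟩ := cone_sign L J Cq
  rcases H with H | H
  · obtain ⟨r1, hr1, h1⟩ := hk
    obtain ⟨r4, hr4, h4⟩ := hl
    obtain ⟨z, hz, z1, z2, z3, z4⟩ := near hr1 hr2
    obtain ⟨w, hw, w1, w2, w3, w4⟩ := near' hr4 hr3
    have bz := Brd_lt hz
    have bw := Brd_lt hw
    rw [← h1 z.1 z.2 z1 z2 bz.2.1, ← h4 w.1 w.2 w1 w2 bw.2.1]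
    refine quad_floor (Brd_pre hpq) (f := fun v => θ v.1 v.2) (A.cont.mono fun v hv =>
      ⟨(Brd_lt hv).2.1, by linarith [Brd_lt hv]⟩) hτ (fun v hv => ?_) hz hw
      (cs_pos A bz.2.1 (by linarith) (h2 z.1 z.2 z3 z4 bz.2.1).1)
      (cs_pos A bw.2.1 (by linarith) (h3 w.1 w.2 w3 w4 bw.2.1).1)
    have bv := Brd_lt hv
    obtain ⟨r, hr, e1, e2⟩ := A.ex v.1 v.2 bv.2.1 (by linarith)
    have := H v hv
    rw [e1, e2] at this
    rcases this with h | h
    · left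
      rw [show τ * (r * Real.cos (θ v.1 v.2)) = r * (τ * Real.cos (θ v.1 v.2)) by ring] at h
      exact (mul_pos_iff_of_pos_left hr).1 h
    · right
      rw [show τ * (r * Real.sin (θ v.1 v.2)) = r * (τ * Real.sin (θ v.1 v.2)) by ring] at h
      exact (mul_pos_iff_of_pos_left hr).1 h
  · obtain ⟨k', hk'⟩ := exKR L J A Cp
    obtain ⟨l', hl'⟩ := exKR L J A Cq
    have hk'' := hk'
    have hl'' := hl'
    obtain ⟨r1, hr1, h1⟩ := hk''
    obtain ⟨r4, hr4, h4⟩ := hl''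
    obtain ⟨z, hz, z1, z2, z3, z4⟩ := near hr1 hr2
    obtain ⟨w, hw, w1, w2, w3, w4⟩ := near' hr4 hr3
    have bz := Brd_lt hz
    have bw := Brd_lt hw
    have hUU : ∀ v ∈ Brd p q, v.2 < v.1 + 1 ∧ v.1 + 1 < v.2 + 1 := fun v hv => by
      have := Brd_lt hv
      constructor <;> linarith
    have e : k' = l' := by
      rw [← h1 z.1 z.2 z1 z2 bz.2.1, ← h4 w.1 w.2 w1 w2 bw.2.1]
      refine quad_floor (Brd_pre hpq) (f := fun v => θ v.2 (v.1 + 1)) (A.cont.comp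
        (f := fun v : ℝ × ℝ => ((v.2, v.1 + 1) : ℝ × ℝ)) (by fun_prop) fun v hv => hUU v hv) hτ
        (fun v hv => ?_) hz hw
        (cs_pos A (hUU z hz).1 (hUU z hz).2 (by
          rw [DD_per1 L, CC_per1 L]
          exact (h2 z.1 z.2 z3 z4 bz.2.1).2))
        (cs_pos A (hUU w hw).1 (hUU w hw).2 (by
          rw [DD_per1 L, CC_per1 L]
          exact (h3 w.1 w.2 w3 w4 bw.2.1).2))
      obtain ⟨r, hr, e1, e2⟩ := A.ex v.2 (v.1 + 1) (hUU v hv).1 (hUU v hv).2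
      have := H v hv
      rw [← DD_per1 L, ← CC_per1 L, e1, e2] at this
      rcases this with h | h
      · left
        rw [show τ * (r * Real.cos (θ v.2 (v.1 + 1))) = r * (τ * Real.cos (θ v.2 (v.1 + 1))) by
          ring] at h
        exact (mul_pos_iff_of_pos_left hr).1 h
      · right
        rw [show τ * (r * Real.sin (θ v.2 (v.1 + 1))) = r * (τ * Real.sin (θ v.2 (v.1 + 1))) by
          ring] at h
        exact (mul_pos_iff_of_pos_left hr).1 h
    have := parityX jP jT1 Y407.PEG.sgU jI L J nosq A hpq hqp Cp Cq hk hl hk' hl'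
    linarith

end Pool.Agent.Helper665_SP
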