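import Pool.Agent.Helper665_SP.Chord

/-! Nearly radial points in terms of short chords. -/

set_option autoImplicit false
open Complex Set Topology Metric

namespace Pool.Agent.Helper665_SP

/-- a continuous function that does not decrease immediately to the right of any point -/
theorem mono_right {f : ℝ → ℝ} {a b : ℝ} (hab : a ≤ b) (hf : ContinuousOn f (Icc a b))
    (h : ∀ x, a ≤ x → x < b → ∃ δ > 0, ∀ y, x < y → y < x + δ → y ≤ b → f x ≤ f y) :
    f a ≤ f b := by
  have key : Icc a b ⊆ {t | f a ≤ f t} := by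
    refine IsClosed.Icc_subset_of_forall_mem_nhdsWithin ?_ (by simp) ?_
    · have : {t | f a ≤ f t} ∩ Icc a b = Icc a b ∩ f ⁻¹' Ici (f a) := by
        ext t
        simp only [mem_inter_iff, mem_setOf_eq, mem_preimage, mem_Ici]
        exact and_comm
      rw [this]
      exact hf.preimage_isClosed_of_isClosed isClosed_Icc isClosed_Ici
    · rintro x ⟨hx1, hx2, hx3⟩
      obtain ⟨δ, hδ, h'⟩ := h x hx2 hx3
      have : Ioo x (min (x + δ) b) ∈ 𝓝[>] x := Ioo_mem_nhdsGT (lt_min (by linarith) hx3)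
      refine Filter.mem_of_superset this fun y hy => ?_
      have y1 := hy.2.trans_le (min_le_left _ _)
      have y2 := hy.2.trans_le (min_le_right _ _)
      exact le_trans hx1 (h' y hy.1 y1 y2.le)
  exact key (right_mem_Icc.2 hab)

/-- one branch, from the short chords only -/
theorem exArmL {K : ℝ → ℂ} (hK : Continuous K) (K0 : K 0 = 0) {ρ : ℝ} (hρ : 0 < ρ)
    (h0 : ∀ x, 0 < x → x < ρ → K x ≠ 0) (hne : ∀ x y, 0 < x → x < y → y < ρ → K x ≠ K y)
    (h : ∀ x, 0 < x → x < ρ → ∃ δ > 0, ∀ y, x < y → y < x + δ → y < ρ →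
      100 * |((starRingEnd ℂ) (K x) * (K y - K x)).im| ≤
        ((starRingEnd ℂ) (K x) * (K y - K x)).re) :
    ∃ R > 0, ∃ α : ℝ → ℝ, Slow α R ∧ ∀ t, 0 < t → t < ρ / 2 → ‖K t‖ < R ∧ K t = zz α ‖K t‖ := by
  have mono0 : ∀ x, 0 < x → x < ρ → ∃ δ > 0, ∀ y, x < y → y < x + δ → y < ρ →
      ‖K x‖ < ‖K y‖ := by
    intro x hx hxρ
    obtain ⟨δ, hδ, h'⟩ := h x hx hxρ
    refine ⟨δ, hδ, fun y hxy hyδ hy => ?_⟩
    have k0 := h0 x hx (by linarith)
    have k1 := h' y hxy hyδ hy
    have k2 := abs_nonneg ((starRingEnd ℂ) (K x) * (K y - K x)).im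
    have k3 : 0 < ((starRingEnd ℂ) (K x) * (K y - K x)).re := by
      refine lt_of_le_of_ne (by linarith) fun k4 => ?_
      have k5 : ((starRingEnd ℂ) (K x) * (K y - K x)).im = 0 := abs_eq_zero.1 (by linarith)
      exact (mul_ne_zero ((map_ne_zero _).2 k0) (sub_ne_zero.2 (hne x y hx hxy hy).symm))
        (Complex.ext k4.symm k5)
    rw [(re_conj_sub _ _).1] at k3
    have k6 : ((starRingEnd ℂ) (K x) * K y).re ≤ ‖K x‖ * ‖K y‖ := by
      refine (Complex.re_le_norm _).trans ?_
      rw [norm_mul, RCLike.norm_conj]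
    have k7 : 0 < ‖K x‖ := norm_pos_iff.2 k0
    nlinarith
  have mono1 : ∀ x y, 0 < x → x ≤ y → y < ρ → ‖K x‖ ≤ ‖K y‖ := by
    intro x y hx hxy hy
    refine mono_right (f := fun t => ‖K t‖) hxy (by fun_prop) fun a ha hab => ?_
    obtain ⟨δ, hδ, h'⟩ := mono0 a (by linarith) (by linarith)
    exact ⟨δ, hδ, fun b h1 h2 h3 => (h' b h1 h2 (by linarith)).le⟩
  have mono : ∀ x y, 0 < x → x < y → y < ρ → ‖K x‖ < ‖K y‖ := by
    intro x y hx hxy hy
    obtain ⟨δ, hδ, h'⟩ := mono0 x hx (by linarith)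
    obtain ⟨z, z1, z2⟩ := exists_between (lt_min hxy (by linarith : x < x + δ))
    have z3 := z2.trans_le (min_le_left _ _)
    have z4 := z2.trans_le (min_le_right _ _)
    exact (h' z z1 z4 (by linarith)).trans_le (mono1 z y (by linarith) z3.le hy)
  obtain ⟨d, hd⟩ : ∃ d, d = ρ / 2 := ⟨_, rfl⟩
  have hd0 : 0 < d := by rw [hd]; positivity
  have hdρ : d < ρ := by rw [hd]; linarith
  obtain ⟨k, hk, hke⟩ := H777R2.exists_log (X := ℝ) (g := fun u => K (d * Real.exp (-(max u 0))))
    (by fun_prop) (fun u => h0 _ (by positivity) (by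
      have : Real.exp (-(max u 0)) ≤ 1 := Real.exp_le_one_iff.2 (by
        have := le_max_right u 0
        linarith)
      nlinarith))
  obtain ⟨φ, hφ⟩ : ∃ φ : ℝ → ℝ, ∀ t, φ t = (k (Real.log (d / t))).im := ⟨_, fun _ => rfl⟩
  have hpol : ∀ t, 0 < t → t ≤ d → K t = ‖K t‖ * exp (φ t * I) := by
    intro t ht htd
    have h1 : 1 ≤ d / t := by rwa [le_div_iff₀ ht, one_mul]
    have h2 : 0 ≤ Real.log (d / t) := Real.log_nonneg h1
    have e := hke (Real.log (d / t))
    rw [max_eq_left h2, Real.exp_neg, Real.exp_log (by positivity), inv_div,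
      mul_div_cancel₀ _ hd0.ne'] at e
    have e2 : ‖K t‖ = Real.exp (k (Real.log (d / t))).re := by rw [← e, Complex.norm_exp]
    rw [e2, ofReal_exp, hφ, ← Complex.exp_add, re_add_im, e]
  have hφc : ContinuousOn φ (Ioc 0 d) := by
    have : φ = fun t => (k (Real.log (d / t))).im := funext hφ
    rw [this]
    have h1 : ContinuousOn (fun t : ℝ => Real.log (d / t)) (Ioc 0 d) := by
      refine ContinuousOn.log (continuousOn_const.div continuousOn_id fun t ht => ht.1.ne') ?_
      intro t ht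
      have := ht.1
      positivity
    exact Complex.continuous_im.comp_continuousOn (hk.comp_continuousOn h1)
  -- the angle is a slow function of the radius
  have slow : ∀ x y, 0 < x → x < y → y ≤ d → 100 * (‖K x‖ * |φ y - φ x|) ≤ ‖K y‖ - ‖K x‖ := by
    intro x y hx hxy hy
    have hsub : Icc x y ⊆ Ioc 0 d := fun z hz => ⟨by linarith [hz.1], hz.2.trans hy⟩
    have hKx : 0 < ‖K x‖ := norm_pos_iff.2 (h0 x hx (by linarith))
    have loc : ∀ a, x ≤ a → a < y → ∃ δ > 0, ∀ b, a < b → b < a + δ → b ≤ y →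
        100 * (‖K x‖ * |φ b - φ a|) ≤ ‖K b‖ - ‖K a‖ := by
      intro a ha hay
      obtain ⟨δ, hδ, h'⟩ := h a (by linarith) (by linarith)
      obtain ⟨η, hη, hu⟩ := Metric.continuousOn_iff.1 (hφc.mono hsub) a ⟨ha, hay.le⟩ 1 one_pos
      refine ⟨min δ η, lt_min hδ hη, fun b hab hbδ hb => ?_⟩
      have b1 := min_le_left δ η
      have b2 := min_le_right δ η
      · have hD := hu b ⟨by linarith, hb⟩ (by
          rw [Real.dist_eq, abs_of_pos (by linarith)]; linarith)
        rw [Real.dist_eq] at hD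
        obtain ⟨Δ, hΔ⟩ : ∃ Δ, Δ = φ b - φ a := ⟨_, rfl⟩
        rw [← hΔ] at hD ⊢
        have h1 := h' b hab (by linarith) (by linarith)
        have hKa : 0 < ‖K a‖ := norm_pos_iff.2 (h0 a (by linarith) (by linarith))
        have hKb : 0 < ‖K b‖ := norm_pos_iff.2 (h0 b (by linarith) (by linarith))
        have hax : ‖K x‖ ≤ ‖K a‖ := by
          rcases ha.eq_or_lt with h | h
          · rw [h]
          · exact (mono x a hx h (by linarith)).le
        have e : (starRingEnd ℂ) (K a) * K b = ((‖K a‖ * ‖K b‖ : ℝ) : ℂ) * exp (Δ * I) := by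
          conv_lhs => rw [hpol a (by linarith) (by linarith), hpol b (by linarith) (by linarith)]
          rw [map_mul, conj_ofReal, ← exp_conj, map_mul, conj_ofReal, conj_I, hΔ]
          rw [show (‖K a‖ : ℂ) * exp (φ a * -I) * (‖K b‖ * exp (φ b * I)) =
            ‖K a‖ * ‖K b‖ * (exp (φ a * -I) * exp (φ b * I)) by ring, ← Complex.exp_add]
          push_cast
          congr 2
          ring
        have e1 : ((starRingEnd ℂ) (K a) * K b).re = ‖K a‖ * ‖K b‖ * Real.cos Δ := by
          rw [e, re_ofReal_mul, exp_ofReal_mul_I_re]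
        have e2 : ((starRingEnd ℂ) (K a) * K b).im = ‖K a‖ * ‖K b‖ * Real.sin Δ := by
          rw [e, im_ofReal_mul, exp_ofReal_mul_I_im]
        rw [(re_conj_sub _ _).1, (re_conj_sub _ _).2, e1, e2, abs_mul,
          abs_of_pos (by positivity)] at h1
        have h2 : 100 * (‖K b‖ * |Real.sin Δ|) ≤ ‖K b‖ * Real.cos Δ - ‖K a‖ := by
          have : ‖K a‖ * (100 * (‖K b‖ * |Real.sin Δ|)) ≤
              ‖K a‖ * (‖K b‖ * Real.cos Δ - ‖K a‖) := by
            calc _ = 100 * (‖K a‖ * ‖K b‖ * |Real.sin Δ|) := by ring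
              _ ≤ _ := h1
              _ = _ := by ring
          exact le_of_mul_le_mul_left this hKa
        have hpi : (1:ℝ) < Real.pi / 2 := by linarith [Real.pi_gt_three]
        have hD' := abs_lt.1 hD
        have hcos : 0 < Real.cos Δ := Real.cos_pos_of_mem_Ioo ⟨by linarith, by linarith⟩
        have hsin : |Δ| * Real.cos Δ ≤ |Real.sin Δ| := by
          rcases le_total 0 Δ with h3 | h3
          · have h4 := Real.le_tan h3 (by linarith)
            rw [Real.tan_eq_sin_div_cos, le_div_iff₀ hcos] at h4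
            rw [abs_of_nonneg h3]
            exact h4.trans (le_abs_self _)
          · have h4 := Real.le_tan (x := -Δ) (by linarith) (by linarith)
            rw [Real.tan_eq_sin_div_cos, Real.cos_neg, le_div_iff₀ hcos, Real.sin_neg] at h4
            rw [abs_of_nonpos h3]
            exact h4.trans (neg_le_abs _)
        have hcos1 := Real.cos_le_one Δ
        have h5 : 100 * (‖K b‖ * (|Δ| * Real.cos Δ)) ≤ ‖K b‖ * Real.cos Δ - ‖K a‖ :=
          le_trans (by nlinarith [mul_le_mul_of_nonneg_left hsin hKb.le]) h2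
        have h6 : ‖K a‖ ≤ ‖K b‖ * Real.cos Δ := by
          have : 0 ≤ 100 * (‖K b‖ * (|Δ| * Real.cos Δ)) := by positivity
          linarith
        have h7 : ‖K x‖ * |Δ| ≤ ‖K b‖ * (|Δ| * Real.cos Δ) := by
          calc ‖K x‖ * |Δ| ≤ ‖K b‖ * Real.cos Δ * |Δ| :=
                mul_le_mul_of_nonneg_right (hax.trans h6) (abs_nonneg _)
            _ = _ := by ring
        have h8 : ‖K b‖ * Real.cos Δ ≤ ‖K b‖ := mul_le_of_le_one_right hKb.le hcos1
        linarith
    have m1 := mono_right (f := fun t => ‖K t‖ - 100 * (‖K x‖ * φ t)) hxy.le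
      (by have := hφc.mono hsub; fun_prop) (fun a ha hay => by
        obtain ⟨δ, hδ, h'⟩ := loc a ha hay
        refine ⟨δ, hδ, fun b hab hbδ hb => ?_⟩
        have := h' b hab hbδ hb
        have h2 := le_abs_self (φ b - φ a)
        have h3 := mul_le_mul_of_nonneg_left h2 hKx.le
        nlinarith)
    have m2 := mono_right (f := fun t => ‖K t‖ + 100 * (‖K x‖ * φ t)) hxy.le
      (by have := hφc.mono hsub; fun_prop) (fun a ha hay => by
        obtain ⟨δ, hδ, h'⟩ := loc a ha hay
        refine ⟨δ, hδ, fun b hab hbδ hb => ?_⟩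
        have := h' b hab hbδ hb
        have h2 := neg_le_abs (φ b - φ a)
        have h3 := mul_le_mul_of_nonneg_left h2 hKx.le
        nlinarith)
    rcases abs_cases (φ y - φ x) with ⟨e, -⟩ | ⟨e, -⟩
    · rw [e]; nlinarith
    · rw [e]; nlinarith
  have hR : 0 < ‖K d‖ := norm_pos_iff.2 (h0 d hd0 hdρ)
  have ext : ∀ r, ∃ t, 0 < r → r < ‖K d‖ → 0 < t ∧ t < d ∧ ‖K t‖ = r := by
    intro r
    by_cases hr : 0 < r ∧ r < ‖K d‖
    · obtain ⟨t, ht, e⟩ := intermediate_value_Icc (f := fun t => ‖K t‖) hd0.le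
        (by fun_prop) (show r ∈ Icc _ _ from ⟨by rw [K0, norm_zero]; exact hr.1.le, hr.2.le⟩)
      simp only at e
      refine ⟨t, fun _ _ => ⟨lt_of_le_of_ne ht.1 fun h => ?_, lt_of_le_of_ne ht.2 fun h => ?_, e⟩⟩
      · rw [← h, K0, norm_zero] at e
        linarith [hr.1]
      · rw [h] at e
        linarith [hr.2]
    · exact ⟨0, fun h1 h2 => absurd ⟨h1, h2⟩ hr⟩
  choose τ hτ using ext
  refine ⟨‖K d‖, hR, fun r => φ (τ r), ?_, fun t ht htd => ?_⟩
  · intro r r' hr hrr hr'
    rcases hrr.eq_or_lt with rfl | hlt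
    · simp
    · obtain ⟨a1, a2, a3⟩ := hτ r hr (by linarith)
      obtain ⟨b1, b2, b3⟩ := hτ r' (by linarith) hr'
      have hltτ : τ r < τ r' := by
        by_contra hcon
        push Not at hcon
        rcases hcon.eq_or_lt with h | h
        · rw [h] at b3; linarith
        · have := mono _ _ b1 h (by linarith)
          linarith
      have := slow _ _ a1 hltτ b2.le
      rwa [a3, b3] at this
  · rw [← hd] at htd
    have h1 : ‖K t‖ < ‖K d‖ := mono t d ht htd hdρ
    refine ⟨h1, ?_⟩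
    obtain ⟨a1, a2, a3⟩ := hτ ‖K t‖ (norm_pos_iff.2 (h0 t ht (by linarith))) h1
    have e : τ ‖K t‖ = t := by
      rcases lt_trichotomy (τ ‖K t‖) t with h | h | h
      · have := mono _ _ a1 h (by linarith)
        linarith
      · exact h
      · have := mono _ _ ht h (by linarith)
        linarith
    unfold zz
    simp only
    rw [e]
    exact hpol t ht htd.le

/-- near `s`, on each side, the short chords are almost radial as seen from `c s` -/
def NRL (c : ℝ → ℂ) (s : ℝ) : Prop := ∃ ρ > 0, ∀ x : ℝ, x ≠ s → |x - s| < ρ →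
  ∃ δ > 0, ∀ y : ℝ, |y - x| < δ → (s < x ∧ x < y) ∨ (y < x ∧ x < s) →
  100 * |((starRingEnd ℂ) (c x - c s) * (c y - c x)).im| ≤
    ((starRingEnd ℂ) (c x - c s) * (c y - c x)).re

theorem NRL.rad {c : ℝ → ℂ} (hc : Continuous c) (J : Pool.Agent.H763R2.An.Inj c) {s : ℝ}
    (h : NRL c s) : Rad c s := by
  obtain ⟨ρ0, hρ0, H⟩ := h
  obtain ⟨ρ, hρ, a1, a2⟩ : ∃ ρ > 0, ρ ≤ ρ0 ∧ ρ ≤ 1 := ⟨min ρ0 1, by positivity,
    min_le_left _ _, min_le_right _ _⟩
  obtain ⟨R1, hR1, α, hα, h1⟩ := exArmL (K := fun t => c (s - t) - c s) (ρ := ρ) (by fun_prop)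
    (by simp) hρ (fun x hx hxρ => sub_ne_zero.2 (J _ _ (by linarith) (by linarith)))
    (fun x y hx hxy hy e => by
      simp only [sub_left_inj] at e
      exact J (s - y) (s - x) (by linarith) (by linarith) e.symm)
    (fun x hx hxρ => by
      obtain ⟨δ, hδ, h'⟩ := H (s - x) (by linarith) (by
        rw [show s - x - s = -x by ring, abs_neg, abs_of_pos hx]; linarith)
      refine ⟨δ, hδ, fun y hxy hyδ hy => ?_⟩
      have := h' (s - y) (by
        rw [show s - y - (s - x) = -(y - x) by ring, abs_neg, abs_of_pos (by linarith)]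
        linarith) (Or.inr ⟨by linarith, by linarith⟩)
      rwa [sub_sub_sub_cancel_right])
  obtain ⟨R2, hR2, β, hβ, h2⟩ := exArmL (K := fun t => c (s + t) - c s) (ρ := ρ) (by fun_prop)
    (by simp) hρ (fun x hx hxρ => sub_ne_zero.2 (J _ _ (by linarith) (by linarith)).symm)
    (fun x y hx hxy hy e => by
      simp only [sub_left_inj] at e
      exact J (s + x) (s + y) (by linarith) (by linarith) e)
    (fun x hx hxρ => by
      obtain ⟨δ, hδ, h'⟩ := H (s + x) (by linarith) (by
        rw [show s + x - s = x by ring, abs_of_pos hx]; linarith)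
      refine ⟨δ, hδ, fun y hxy hyδ hy => ?_⟩
      have := h' (s + y) (by
        rw [show s + y - (s + x) = y - x by ring, abs_of_pos (by linarith)]
        linarith) (Or.inl ⟨by linarith, by linarith⟩)
      rwa [sub_sub_sub_cancel_right])
  obtain ⟨e, he, hKe⟩ := Metric.continuous_iff.1 hc s (min R1 R2) (lt_min hR1 hR2)
  have hsm : ∀ x, |x - s| < e → ‖c x - c s‖ < min R1 R2 := fun x hx => by
    have := hKe x (by rwa [Real.dist_eq])
    rwa [dist_eq_norm] at this
  refine ⟨min e (ρ / 2), by positivity, min R1 R2, lt_min hR1 hR2, α, β,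
    fun r r' b1 b2 b3 => hα r r' b1 b2 (b3.trans_le (min_le_left _ _)),
    fun r r' b1 b2 b3 => hβ r r' b1 b2 (b3.trans_le (min_le_right _ _)), fun t t1 t2 => ?_,
    fun t t1 t2 => ?_⟩
  · have l1 := min_le_left e (ρ / 2)
    have l2 := min_le_right e (ρ / 2)
    have := h1 (s - t) (by linarith) (by linarith)
    simp only [sub_sub_cancel] at this
    exact ⟨hsm t (by rw [abs_lt]; constructor <;> linarith), this.2⟩
  · have l1 := min_le_left e (ρ / 2)
    have l2 := min_le_right e (ρ / 2)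
    have := h2 (t - s) (by linarith) (by linarith)
    simp only [add_sub_cancel] at this
    exact ⟨hsm t (by rw [abs_lt]; constructor <;> linarith), this.2⟩

end Pool.Agent.Helper665_SP
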