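import Pool.Agent.Helper665_SP.Area

/-! Close almost radial arms without inscribed squares: one of the two further vertices of the
square on a chord lies outside. -/

set_option autoImplicit false
open Complex Set

namespace Pool.Agent.Helper665_SP

variable {φ α β : ℝ → ℝ} {R : ℝ}

theorem north' {E F : ℂ} (hEF : ‖E‖ = ‖F‖) (hN : 0 < normSq (E + F)) :
    F - E = ((2 * ((starRingEnd ℂ) E * F).im / normSq (E + F) : ℝ) : ℂ) * (I * (E + F)) := by
  have h : normSq E = normSq F := by rw [normSq_eq_norm_sq, normSq_eq_norm_sq, hEF]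
  have hNc : ((normSq (E + F) : ℝ) : ℂ) ≠ 0 := by exact_mod_cast hN.ne'
  have key : (normSq (E + F) : ℂ) * (F - E) = ((2 * ((starRingEnd ℂ) E * F).im : ℝ) : ℂ) *
      (I * (E + F)) := by
    rw [normSq_apply, normSq_apply] at h
    apply Complex.ext
    · rw [re_ofReal_mul, re_ofReal_mul]
      simp only [normSq_apply, mul_im, mul_re, conj_re, conj_im, add_re, add_im, sub_re, I_re, I_im]
      linear_combination (-(E.re + F.re)) * h
    · rw [im_ofReal_mul, im_ofReal_mul]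
      simp only [normSq_apply, mul_im, conj_re, conj_im, add_re, add_im, sub_im, I_re, I_im]
      linear_combination (-(E.im + F.im)) * h
  generalize ((starRingEnd ℂ) E * F).im = s at *
  generalize normSq (E + F) = N at *
  push_cast at key ⊢
  field_simp
  linear_combination key

theorem near_sum {A E F : ℂ} (hA : A ≠ 0) (hE : ‖E - A‖ ≤ ‖A‖ / 12) (hF : ‖F - A‖ ≤ ‖A‖ / 12) :
    14 * |((starRingEnd ℂ) A * (E + F)).im| ≤ 3 * ((starRingEnd ℂ) A * (E + F)).re ∧
      0 < ((starRingEnd ℂ) A * (E + F)).re ∧ 0 < normSq (E + F) := by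
  have hAA : ‖A - A‖ ≤ ‖A‖ / 12 := by rw [sub_self, norm_zero]; positivity
  obtain ⟨h1, h2⟩ := near_sec hA hAA hE
  obtain ⟨h3, h4⟩ := near_sec hA hAA hF
  have e : (starRingEnd ℂ) A * (E + F) = (starRingEnd ℂ) A * E + (starRingEnd ℂ) A * F := by ring
  have h5 := abs_add_le ((starRingEnd ℂ) A * E).im ((starRingEnd ℂ) A * F).im
  have h6 : 0 < ((starRingEnd ℂ) A * (E + F)).re := by rw [e, add_re]; linarith
  refine ⟨?_, h6, ?_⟩
  · rw [e, add_im, add_re]; linarith
  · rw [normSq_pos]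
    intro h0
    rw [h0, mul_zero, zero_re] at h6
    exact lt_irrefl _ h6

theorem eq_of_sigma {A E F : ℂ} (hA : A ≠ 0) (hE : ‖E - A‖ ≤ ‖A‖ / 12) (hF : ‖F - A‖ ≤ ‖A‖ / 12)
    (hEF : ‖E‖ = ‖F‖) (h : ((starRingEnd ℂ) E * F).im = 0) : E = F := by
  have := north' hEF (near_sum hA hE hF).2.2
  rw [h] at this
  simp only [mul_zero, zero_div, ofReal_zero, zero_mul] at this
  exact (sub_eq_zero.1 this).symm

theorem uniq (h : Thin α β R) {a t b t' b' : ℝ} (T : Tr α β R a t b) (T' : Tr α β R a t' b') :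
    t' = t ∧ b' = b := by
  obtain ⟨h1, h2, -, -⟩ := incr h T T' le_rfl (by linarith [T.a0])
  rw [sub_self, mul_zero] at h1 h2
  have e1 := sub_eq_zero.1 (norm_le_zero_iff.1 h1)
  have e2 := sub_eq_zero.1 (norm_le_zero_iff.1 h2)
  have e1' := congrArg norm e1
  have e2' := congrArg norm e2
  rw [norm_zz T.t0.le, norm_zz T'.t0.le] at e1'
  rw [norm_zz T.b0.le, norm_zz T'.b0.le] at e2'
  exact ⟨e1', e2'⟩

theorem sigma_neg (h : Thin α β R)
    (hno : ∀ a t b, Tr α β R a t b → EE α β a t b ≠ zz β ‖EE α β a t b‖) {a t b : ℝ}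
    (T : Tr α β R a t b) :
    ((starRingEnd ℂ) (EE α β a t b) * zz β ‖EE α β a t b‖).im < 0 := by
  have ex : ∀ a, ∃ t b, 0 < a → a < R / 2 → Tr α β R a t b := fun a => by
    by_cases ha : 0 < a ∧ a < R / 2
    · obtain ⟨t, b, hT⟩ := exTr h ha.1 ha.2
      exact ⟨t, b, fun _ _ => hT⟩
    · exact ⟨0, 0, fun h1 h2 => absurd ⟨h1, h2⟩ ha⟩
  choose t1 b1 hT using ex
  obtain ⟨Ef, hEf⟩ : ∃ Ef : ℝ → ℂ, Ef = fun a => EE α β a (t1 a) (b1 a) := ⟨_, rfl⟩
  have hEa : ∀ a, Ef a = EE α β a (t1 a) (b1 a) := fun a => by rw [hEf]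
  have hEc : ContinuousOn Ef (Ioo 0 (R / 2)) := by
    rw [Metric.continuousOn_iff]
    intro x hx ε hε
    obtain ⟨hx0, hxR⟩ := hx
    refine ⟨min (x / 1000) (ε / 16), by positivity, fun y hy hxy => ?_⟩
    rw [Real.dist_eq] at hxy
    have g1 := abs_lt.1 (hxy.trans_le (min_le_left _ _))
    have g2 := abs_lt.1 (hxy.trans_le (min_le_right _ _))
    rw [dist_eq_norm, hEa, hEa]
    rcases le_total x y with hle | hle
    · have := (incr h (hT x hx0 hxR) (hT y hy.1 hy.2) hle (by linarith)).2.2.1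
      linarith
    · have := (incr h (hT y hy.1 hy.2) (hT x hx0 hxR) hle (by linarith)).2.2.1
      rw [norm_sub_rev]
      linarith
  obtain ⟨σ, hσ⟩ : ∃ σ : ℝ → ℝ, σ = fun a => ((starRingEnd ℂ) (Ef a) * zz β ‖Ef a‖).im := ⟨_, rfl⟩
  have hσa : ∀ a, σ a = ((starRingEnd ℂ) (Ef a) * zz β ‖Ef a‖).im := fun a => by rw [hσ]
  have hσc : ContinuousOn σ (Ioo 0 (R / 2)) := by
    have h1 : ContinuousOn (fun a => zz β ‖Ef a‖) (Ioo 0 (R / 2)) := by
      refine (zz_contOn h.sb).comp (f := fun a => ‖Ef a‖) hEc.norm fun x hx => ?_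
      have h2 := abs_le.1 ((hT x hx.1 hx.2).ee h)
      rw [← hEa] at h2
      have := hx.1
      have := hx.2
      constructor <;> simp only <;> linarith
    rw [hσ]
    exact continuous_im.comp_continuousOn ((continuous_conj.comp_continuousOn hEc).mul h1)
  have hσ0 : ∀ x ∈ Ioo 0 (R / 2), σ x ≠ 0 := by
    intro x hx h0
    have Tx := hT x hx.1 hx.2
    rw [hσa, hEa] at h0
    have hxn : ‖zz α x‖ = x := norm_zz hx.1.le
    refine hno _ _ _ Tx (eq_of_sigma (zz_ne hx.1) (A := zz α x) ?_ ?_ ?_ h0)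
    · rw [hxn]; linarith [Tx.dE h, hx.1]
    · rw [hxn]; exact Tx.dE0 h
    · rw [norm_zz (norm_nonneg _)]
  have ha0 := T.a0
  have haR := T.aR
  obtain ⟨u1, u2⟩ := uniq h T (hT a ha0 haR)
  by_contra hcon
  have hpos : 0 < σ a := by
    refine lt_of_le_of_ne ?_ (hσ0 a ⟨ha0, haR⟩).symm
    rw [hσa, hEa, u1, u2]
    exact not_lt.1 hcon
  have hall : ∀ x ∈ Ioo 0 (R / 2), 0 < σ x := by
    intro x hx
    by_contra hc
    obtain ⟨y, hy, hy0⟩ := isPreconnected_Ioo.intermediate_value hx ⟨ha0, haR⟩ hσc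
      (show (0:ℝ) ∈ Icc _ _ from ⟨not_lt.1 hc, hpos.le⟩)
    exact hσ0 y hy hy0
  have hR := h.R0
  obtain ⟨M, hM⟩ : ∃ M, M = 3 / 4 * R := ⟨_, rfl⟩
  have hM1 : M < R := by rw [hM]; linarith
  have hM2 : 2 * R ≤ 3 * M := by rw [hM]; linarith
  have hσx : ∀ x ∈ Ioo 0 (R / 2), 0 ≤ ((starRingEnd ℂ) (EE α β x (t1 x) (b1 x)) *
      zz β ‖EE α β x (t1 x) (b1 x)‖).im := fun x hx => by
    have := hall x hx
    rw [hσa, hEa] at this
    exact this.le
  obtain ⟨P, hP⟩ : ∃ P : ℝ → ℝ, P = fun x => Psi α β M x (t1 x) (b1 x) := ⟨_, rfl⟩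
  have hPx : ∀ x, P x = Psi α β M x (t1 x) (b1 x) := fun x => by rw [hP]
  have hPa : 0 < P a := by
    rw [hPx]
    exact Psi_pos h hM1 hM2 (hT a ha0 haR) (hσx a ⟨ha0, haR⟩)
  obtain ⟨e, he, e1, e2, e3⟩ : ∃ e > 0, e ≤ a ∧ e ≤ 1 ∧ e ≤ P a / 8 :=
    ⟨min a (min 1 (P a / 8)), by positivity, min_le_left _ _,
      (min_le_right _ _).trans (min_le_left _ _), (min_le_right _ _).trans (min_le_right _ _)⟩
  have hmono := mono_loc (P := P) (a := e) (b := a) (C := 40) (η := e / 200) (by positivity) e1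
    (fun x y hx hxy hy hη => by
      rw [hPx, hPx]
      exact Psi_step h hM1 hM2 (hT x (by linarith) (by linarith)) (hT y (by linarith) (by linarith))
        hxy (by linarith) (hσx x ⟨by linarith, by linarith⟩))
  have hPe : P e ≤ 4 * e ^ 2 := by
    rw [hPx]
    exact Psi_hi h hM1 hM2 (hT e he (by linarith))
  nlinarith

/-- for a short chord between the arms one of the two further vertices lies outside -/
theorem near_case (h : Thin α β R)
    (hno : ∀ a t b, Tr α β R a t b → EE α β a t b ≠ zz β ‖EE α β a t b‖) {p q : ℝ} (hp : 0 < p)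
    (hpR : p < R / 2) (hq : 0 < q) {D C : ℂ} (hd : ‖zz β q - zz α p‖ ≤ p / 44)
    (hD : D = zz α p + I * (zz β q - zz α p)) (hC : C = zz β q + I * (zz β q - zz α p)) :
    0 < ((starRingEnd ℂ) D * zz α ‖D‖).im ∨ ((starRingEnd ℂ) C * zz β ‖C‖).im < 0 := by
  obtain ⟨t, b, T⟩ := exTr h hp hpR
  have hσ := sigma_neg h hno T
  have hA : zz α p ≠ 0 := zz_ne hp
  have hAn : ‖zz α p‖ = p := norm_zz hp.le
  have s1 := abs_le.1 (T.bb h)
  have s2 := abs_le.1 (T.ee h)
  have s3 := T.t1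
  have s5 := T.ta
  have hbn : ‖zz β p - zz α p‖ ≤ p / 30 := by
    have e : zz β p - zz α p = zz α p * (exp ((β p - α p : ℝ) * I) - 1) := by
      unfold zz
      have : exp (β p * I) = exp (α p * I) * exp ((β p - α p : ℝ) * I) := by
        rw [← Complex.exp_add]; congr 1; push_cast; ring
      rw [this]; ring
    rw [e, norm_mul, hAn]
    have h1 := norm_exp_sub_one (β p - α p)
    have h2 := h.lt p hp (by linarith)
    have h3 := h.thin p hp (by linarith)
    rw [abs_of_pos (by linarith)] at h1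
    have : p * ‖exp ((β p - α p : ℝ) * I) - 1‖ ≤ p * (1 / 30) :=
      mul_le_mul_of_nonneg_left (by linarith) hp.le
    linarith
  have hqn : |q - p| ≤ p / 44 := by
    have := abs_norm_sub_norm_le (zz β q) (zz α p)
    rw [norm_zz hq.le, hAn] at this
    exact this.trans hd
  have hq' := abs_le.1 hqn
  obtain ⟨E, hE⟩ : ∃ E, E = EE α β p t b := ⟨_, rfl⟩
  obtain ⟨F, hF⟩ : ∃ F, F = zz β ‖E‖ := ⟨_, rfl⟩
  rw [← hE, ← hF] at hσ
  rw [← hE] at s2
  have hEn : 0 < ‖E‖ := by linarith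
  have hFn : ‖E‖ = ‖F‖ := by rw [hF, norm_zz hEn.le]
  have hEA : ‖E - zz α p‖ ≤ ‖zz α p‖ / 12 := by rw [hE, hAn]; linarith [T.dE h]
  have hFA : ‖F - zz α p‖ ≤ ‖zz α p‖ / 12 := by rw [hF, hE, hAn]; exact T.dE0 h
  have hBA : ‖zz β b - zz α p‖ ≤ ‖zz α p‖ / 12 := by rw [hAn]; linarith [T.dB h]
  have hQA : ‖zz β q - zz α p‖ ≤ ‖zz α p‖ / 12 := by rw [hAn]; linarith
  have hDA : ‖zz α t - zz α p‖ ≤ ‖zz α p‖ / 12 := by
    rw [hAn, norm_sub_rev]; linarith [T.dD h]
  have hEe : E = zz β b + I * (zz β b - zz α p) := by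
    rw [hE]; unfold EE; rw [T.sq]
    linear_combination (zz α t - zz α p) * I_sq
  have hDe : zz α t = zz α p + I * (zz β b - zz α p) := by
    rw [T.sq]
    linear_combination (zz α t - zz α p) * I_sq
  rcases le_or_gt b q with hbq | hbq
  · right
    have c1 := cone h.sb T.b0 hbq (by linarith) (by linarith) (near_sec hA
      (show ‖zz α p - zz α p‖ ≤ ‖zz α p‖ / 12 by rw [sub_self, norm_zero]; positivity) hBA).1
    obtain ⟨x, hx⟩ : ∃ x, x = zz β q - zz β b := ⟨_, rfl⟩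
    rw [← hx] at c1
    have hCP : ‖C - zz α p‖ ≤ p / 30 := by
      have e : C - zz α p = (1 + I) * (zz β q - zz α p) := by rw [hC]; ring
      rw [e, norm_mul]
      have := mul_le_mul Tr.norm_one_add_I hd (norm_nonneg _) (by norm_num)
      linarith
    have hCn : |‖C‖ - p| ≤ p / 30 := by
      have := abs_norm_sub_norm_le C (zz α p)
      rw [hAn] at this
      exact this.trans hCP
    have hCn' := abs_le.1 hCn
    have hC0 : 0 < ‖C‖ := by linarith
    obtain ⟨G, hG⟩ : ∃ G, G = zz β ‖C‖ := ⟨_, rfl⟩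
    have hGn : ‖C‖ = ‖G‖ := by rw [hG, norm_zz hC0.le]
    have hGA : ‖G - zz α p‖ ≤ ‖zz α p‖ / 12 := by
      have h1 := zz_dist' h.sb (r := p) (r' := ‖C‖) hp hC0 (by linarith) (by linarith)
        (by linarith) (by linarith)
      rw [← hG] at h1
      have h2 := norm_add_le (G - zz β p) (zz β p - zz α p)
      rw [sub_add_sub_cancel] at h2
      rw [hAn]
      linarith
    have hCA : ‖C - zz α p‖ ≤ ‖zz α p‖ / 12 := by rw [hAn]; linarith
    by_contra hcon
    rw [← hG] at hcon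
    have hcon := not_lt.1 hcon
    obtain ⟨m1, m2, m3⟩ := near_sum hA hCA hGA
    obtain ⟨n1, n2, n3⟩ := near_sum hA hEA hFA
    have k1 := north' hGn m3
    have k3 := north' hFn n3
    obtain ⟨k, hk⟩ : ∃ k, k = 2 * ((starRingEnd ℂ) C * G).im / normSq (C + G) := ⟨_, rfl⟩
    obtain ⟨l, hl⟩ : ∃ l, l = 2 * ((starRingEnd ℂ) E * F).im / normSq (E + F) := ⟨_, rfl⟩
    rw [← hk] at k1
    rw [← hl] at k3
    have hk0 : 0 ≤ k := by rw [hk]; positivity
    have hl0 : l < 0 := by rw [hl]; exact div_neg_of_neg_of_pos (by linarith) n3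
    have cc := cone_abs h.sb hA (e := zz α p) (by rw [sub_self, norm_zero]; positivity)
      (r := ‖E‖) (r' := ‖C‖) hEn hC0 (by linarith) (by linarith) (by linarith) (by linarith)
      (by rw [← hF]; exact hFA) (by rw [← hG]; exact hGA)
    rw [← hF, ← hG] at cc
    have eq : (starRingEnd ℂ) (zz α p) * (G - F) =
        (k : ℂ) * (I * ((starRingEnd ℂ) (zz α p) * (C + G))) +
        (1 + I) * ((starRingEnd ℂ) (zz α p) * x) -
        (l : ℂ) * (I * ((starRingEnd ℂ) (zz α p) * (E + F))) := by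
      have e1 : G - F = (G - C) + (C - E) - (F - E) := by ring
      have e2 : C - E = (1 + I) * x := by rw [hC, hEe, hx]; ring
      rw [e1, k1, e2, k3]
      ring
    obtain ⟨X, hX⟩ : ∃ X, X = (starRingEnd ℂ) (zz α p) * x := ⟨_, rfl⟩
    obtain ⟨Y, hY⟩ : ∃ Y, Y = (starRingEnd ℂ) (zz α p) * (C + G) := ⟨_, rfl⟩
    obtain ⟨Z, hZ⟩ : ∃ Z, Z = (starRingEnd ℂ) (zz α p) * (E + F) := ⟨_, rfl⟩
    rw [← hX, ← hY, ← hZ] at eq
    rw [← hX] at c1
    rw [← hY] at m1 m2
    rw [← hZ] at n1 n2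
    have i1 : ((starRingEnd ℂ) (zz α p) * (G - F)).im = k * Y.re + (X.re + X.im) - l * Z.re := by
      rw [eq]
      simp only [add_im, sub_im, ofReal_re, ofReal_im, mul_im, mul_re, I_re, I_im, one_re, one_im, add_re]
      ring
    have i2 : ((starRingEnd ℂ) (zz α p) * (G - F)).re = -(k * Y.im) + (X.re - X.im) + l * Z.im := by
      rw [eq]
      simp only [add_re, sub_re, ofReal_re, ofReal_im, mul_im, mul_re, I_re, I_im, one_re, one_im, add_im]
      ring
    rw [i1, i2] at cc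
    have X1 := abs_le.1 (le_refl |X.im|)
    have X0 := abs_nonneg X.im
    have ky : |k * Y.im| ≤ k * Y.re * (3 / 14) := by
      rw [abs_mul, abs_of_nonneg hk0]; nlinarith
    have lz : |l * Z.im| ≤ -(l * Z.re) * (3 / 14) := by
      rw [abs_mul, abs_of_neg hl0]; nlinarith
    have ky0 : 0 ≤ k * Y.re := mul_nonneg hk0 m2.le
    have lz0 : l * Z.re < 0 := mul_neg_of_neg_of_pos hl0 n2
    have ky' := abs_le.1 ky
    have lz' := abs_le.1 lz
    have a1 := le_abs_self (k * Y.re + (X.re + X.im) - l * Z.re)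
    have a2 : |-(k * Y.im) + (X.re - X.im) + l * Z.im| ≤ k * Y.re * (3 / 14) + (X.re + |X.im|) +
        -(l * Z.re) * (3 / 14) := by
      rw [abs_le]
      constructor <;> linarith
    linarith
  · left
    have c1 := cone h.sb hq hbq.le (by linarith) (by linarith) (near_sec hA
      (show ‖zz α p - zz α p‖ ≤ ‖zz α p‖ / 12 by rw [sub_self, norm_zero]; positivity) hQA).1
    obtain ⟨y, hy⟩ : ∃ y, y = zz β b - zz β q := ⟨_, rfl⟩
    rw [← hy] at c1
    have hy0 : y ≠ 0 := by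
      intro h0
      rw [hy] at h0
      have := congrArg norm (sub_eq_zero.1 h0)
      rw [norm_zz T.b0.le, norm_zz hq.le] at this
      linarith
    have hDP : ‖D - zz α p‖ ≤ p / 44 := by
      have e : D - zz α p = I * (zz β q - zz α p) := by rw [hD]; ring
      rw [e, norm_mul, norm_I, one_mul]
      exact hd
    have hDn : |‖D‖ - p| ≤ p / 44 := by
      have := abs_norm_sub_norm_le D (zz α p)
      rw [hAn] at this
      exact this.trans hDP
    have hDn' := abs_le.1 hDn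
    have hD0 : 0 < ‖D‖ := by linarith
    obtain ⟨G, hG⟩ : ∃ G, G = zz α ‖D‖ := ⟨_, rfl⟩
    have hGn : ‖D‖ = ‖G‖ := by rw [hG, norm_zz hD0.le]
    have hGA : ‖G - zz α p‖ ≤ ‖zz α p‖ / 12 := by
      have h1 := zz_dist' h.sa (r := p) (r' := ‖D‖) hp hD0 (by linarith) (by linarith)
        (by linarith) (by linarith)
      rw [← hG] at h1
      rw [hAn]
      linarith
    have hDA' : ‖D - zz α p‖ ≤ ‖zz α p‖ / 12 := by rw [hAn]; linarith
    by_contra hcon
    rw [← hG] at hcon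
    have hcon := not_lt.1 hcon
    obtain ⟨m1, m2, m3⟩ := near_sum hA hDA' hGA
    have k1 := north' hGn m3
    obtain ⟨k, hk⟩ : ∃ k, k = 2 * ((starRingEnd ℂ) D * G).im / normSq (D + G) := ⟨_, rfl⟩
    rw [← hk] at k1
    have hk0 : k ≤ 0 := by rw [hk]; exact div_nonpos_of_nonpos_of_nonneg (by linarith) m3.le
    have cc := cone_abs h.sa hA (e := zz α p) (by rw [sub_self, norm_zero]; positivity)
      (r := t) (r' := ‖D‖) T.t0 hD0 (by linarith) (by linarith) (by linarith) (by linarith)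
      hDA (by rw [← hG]; exact hGA)
    rw [← hG] at cc
    have eq : (starRingEnd ℂ) (zz α p) * (G - zz α t) =
        (k : ℂ) * (I * ((starRingEnd ℂ) (zz α p) * (D + G))) -
        I * ((starRingEnd ℂ) (zz α p) * y) := by
      have e1 : G - zz α t = (G - D) + (D - zz α t) := by ring
      have e2 : D - zz α t = -(I * y) := by rw [hD, hDe, hy]; ring
      rw [e1, k1, e2]
      ring
    obtain ⟨X, hX⟩ : ∃ X, X = (starRingEnd ℂ) (zz α p) * y := ⟨_, rfl⟩
    obtain ⟨Y, hY⟩ : ∃ Y, Y = (starRingEnd ℂ) (zz α p) * (D + G) := ⟨_, rfl⟩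
    have hX0 : X ≠ 0 := by
      rw [hX]
      exact mul_ne_zero ((map_ne_zero _).2 hA) hy0
    rw [← hX, ← hY] at eq
    rw [← hX] at c1
    rw [← hY] at m1 m2
    have X1 := abs_le.1 (le_refl |X.im|)
    have X0 := abs_nonneg X.im
    have hXre : 0 < X.re := by
      refine lt_of_le_of_ne (by linarith) fun h0 => hX0 ?_
      apply Complex.ext
      · rw [zero_re, ← h0]
      · rw [zero_im]
        have : |X.im| ≤ 0 := by linarith
        exact abs_nonpos_iff.1 this
    have i1 : ((starRingEnd ℂ) (zz α p) * (G - zz α t)).im = k * Y.re - X.re := by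
      rw [eq]
      simp only [sub_im, ofReal_re, ofReal_im, mul_im, mul_re, I_re, I_im]
      ring
    have i2 : ((starRingEnd ℂ) (zz α p) * (G - zz α t)).re = -(k * Y.im) + X.im := by
      rw [eq]
      simp only [sub_re, ofReal_re, ofReal_im, mul_im, mul_re, I_re, I_im]
      ring
    rw [i1, i2] at cc
    have ky : |k * Y.im| ≤ -(k * Y.re) * (3 / 14) := by
      rw [abs_mul, abs_of_nonpos hk0]; nlinarith
    have ky0 : k * Y.re ≤ 0 := mul_nonpos_of_nonpos_of_nonneg hk0 m2.le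
    have ky' := abs_le.1 ky
    have a1 := neg_abs_le (k * Y.re - X.re)
    have a2 : |-(k * Y.im) + X.im| ≤ -(k * Y.re) * (3 / 14) + |X.im| := by
      rw [abs_le]
      constructor <;> linarith
    linarith

end Pool.Agent.Helper665_SP
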