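import Pool.Agent.Helper665_SP.Out

/-! Good scales of two almost radial arms. -/

set_option autoImplicit false
open Complex Set

namespace Pool.Agent.Helper665_SP

variable {φ α β : ℝ → ℝ} {R : ℝ}

/-- one of the two further vertices of the square on the left of the chord lies outside -/
def Gd (α β : ℝ → ℝ) (P Q : ℂ) : Prop := Out α β (P + I * (Q - P)) ∨ Out α β (Q + I * (Q - P))

theorem Thin.arms (h : Thin α β R) : Arms α β R :=
  ⟨h.R0, h.sa, h.sb, h.lt, fun r a b => by linarith [h.thin r a b, Real.pi_gt_three]⟩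

/-- the curve formed by the two arms contains no squares of the relevant kind -/
def NoTr (α β : ℝ → ℝ) (R : ℝ) : Prop :=
  ∀ a t b, Tr α β R a t b → EE α β a t b ≠ zz β ‖EE α β a t b‖

theorem thin_pair (h : Thin α β R) (hno : NoTr α β R) {p q : ℝ} (hp : 0 < p) (hq : 0 < q)
    (hpR : 4 * p < R) (hqR : 4 * q < R) : Gd α β (zz α p) (zz β q) := by
  have hπ := Real.pi_gt_three
  have hpn : ‖zz α p‖ = p := norm_zz hp.le
  have hqn : ‖zz β q‖ = q := norm_zz hq.le
  have near : ‖zz β q - zz α p‖ ≤ p / 44 → Gd α β (zz α p) (zz β q) := by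
    intro hd
    obtain ⟨D, hD⟩ : ∃ D, D = zz α p + I * (zz β q - zz α p) := ⟨_, rfl⟩
    obtain ⟨C, hC⟩ : ∃ C, C = zz β q + I * (zz β q - zz α p) := ⟨_, rfl⟩
    have nD : ‖D - zz α p‖ ≤ p / 44 := by
      rw [hD, add_sub_cancel_left, norm_mul, norm_I, one_mul]; exact hd
    have nC : ‖C - zz α p‖ ≤ p / 22 := by
      have e : C - zz α p = (zz β q - zz α p) + I * (zz β q - zz α p) := by rw [hC]; ring
      rw [e]
      refine (norm_add_le _ _).trans ?_
      rw [norm_mul, norm_I, one_mul]
      linarith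
    have nD' := abs_le.1 ((abs_norm_sub_norm_le _ _).trans nD)
    have nC' := abs_le.1 ((abs_norm_sub_norm_le _ _).trans nC)
    rw [hpn] at nD' nC'
    have tD := h.thin _ (show 0 < ‖D‖ by linarith) (by linarith)
    have tC := h.thin _ (show 0 < ‖C‖ by linarith) (by linarith)
    rcases near_case h hno hp (by linarith) hq hd hD hC with h1 | h1
    · left
      rw [← hD]
      exact out_below (by linarith) (by linarith) h1
    · right
      rw [← hC]
      exact out_above (by linarith) (by linarith) h1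
  rcases le_or_gt q p with hqp | hqp
  · by_cases hd : p / 45 ≤ ‖zz β q - zz α p‖
    · left
      exact chordW h.arms hp hpR (by linarith [h.thin p hp (by linarith)]) (by rw [hqn]; exact hqp)
        (Or.inl hd)
    · push Not at hd
      exact near (by linarith)
  · by_cases hd : q / 45 ≤ ‖zz α p - zz β q‖
    · right
      exact chordW' h.arms hq hqR (by linarith [h.thin q hq (by linarith)]) (by rw [hpn]; linarith)
        (Or.inl hd)
    · push Not at hd
      refine near ?_
      have := abs_norm_sub_norm_le (zz α p) (zz β q)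
      rw [hpn, hqn] at this
      have := abs_le.1 this
      rw [norm_sub_rev]
      linarith

theorem zz_mul (φ ψ : ℝ → ℝ) (r r' : ℝ) : (starRingEnd ℂ) (zz φ r) * zz ψ r' =
    ((r * r' : ℝ) : ℂ) * exp ((ψ r' - φ r : ℝ) * I) := by
  rw [zz_conj]
  unfold zz
  have : exp ((ψ r' - φ r : ℝ) * I) = exp ((-φ r : ℝ) * I) * exp (ψ r' * I) := by
    rw [← Complex.exp_add]
    congr 1
    push_cast
    ring
  rw [this]
  push_cast
  ring

theorem zz_dsq (φ ψ : ℝ → ℝ) {r r' : ℝ} (hr : 0 ≤ r) (hr' : 0 ≤ r') :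
    ‖zz ψ r' - zz φ r‖ ^ 2 = r' ^ 2 + r ^ 2 - 2 * (r * r' * Real.cos (ψ r' - φ r)) := by
  have h1 : ((starRingEnd ℂ) (zz φ r) * zz ψ r').re = r * r' * Real.cos (ψ r' - φ r) := by
    rw [zz_mul, re_ofReal_mul, exp_ofReal_mul_I_re]
  have h2 := norm_zz (φ := φ) hr
  have h3 := norm_zz (φ := ψ) hr'
  have h2' : normSq (zz φ r) = r ^ 2 := by rw [normSq_eq_norm_sq, h2]
  have h3' : normSq (zz ψ r') = r' ^ 2 := by rw [normSq_eq_norm_sq, h3]
  rw [← h1, ← h2', ← h3', ← normSq_eq_norm_sq]
  simp only [normSq_apply, sub_re, sub_im, mul_re, conj_re, conj_im]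
  ring

theorem wide_dist (h : Arms α β R) {a : ℝ} (haR : a < R) (h1 : α a + 1 / 30 ≤ β a)
    (h2 : β a ≤ α a + Real.pi) {q : ℝ} (hq : 0 < q) (hqa : q ≤ a) :
    a / 45 ≤ ‖zz β q - zz α a‖ := by
  have ha : 0 < a := by linarith
  rcases le_or_gt q (44 / 45 * a) with hc | hc
  · have := abs_norm_sub_norm_le (zz β q) (zz α a)
    rw [norm_zz hq.le, norm_zz ha.le] at this
    have := (abs_le.1 this).1
    linarith
  · have hs := h.sb q a hq hqa haR
    have hs2 : |β a - β q| ≤ 1 / 4000 := by
      by_contra hcon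
      push Not at hcon
      have := mul_lt_mul_of_pos_left hcon hq
      nlinarith
    have hs2' := abs_le.1 hs2
    have hπ := Real.pi_gt_three
    obtain ⟨δ, hδ⟩ : ∃ δ, δ = β q - α a := ⟨_, rfl⟩
    have hδ1 : 1 / 31 ≤ δ := by linarith
    have hδ2 : δ ≤ Real.pi + 1 / 4000 := by linarith
    have hd := zz_dsq α β (r := a) (r' := q) ha.le hq.le
    rw [← hδ] at hd
    have hn := norm_nonneg (zz β q - zz α a)
    have hsq : (a / 45) ^ 2 ≤ ‖zz β q - zz α a‖ ^ 2 := by
      rw [hd]
      rcases le_or_gt δ (Real.pi / 2) with hc2 | hc2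
      · have m1 := Real.sin_le_sin_of_le_of_le_pi_div_two (x := 1 / 31) (y := δ) (by linarith) hc2 hδ1
        have m2 := Real.sin_gt_sub_cube (x := 1 / 31) (by norm_num)
        have m3 : 1 / 40 ≤ Real.sin δ := by
          have : (1 / 40 : ℝ) ≤ 1 / 31 - (1 / 31) ^ 3 / 6 := by norm_num
          linarith
        have m4 := Real.sin_sq_add_cos_sq δ
        have e : q ^ 2 + a ^ 2 - 2 * (a * q * Real.cos δ) = (q - a * Real.cos δ) ^ 2 +
            a ^ 2 * Real.sin δ ^ 2 := by
          linear_combination (-a ^ 2) * m4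
        rw [e]
        have m5 : (1 / 40) ^ 2 ≤ Real.sin δ ^ 2 := pow_le_pow_left₀ (by norm_num) m3 2
        nlinarith [sq_nonneg (q - a * Real.cos δ), sq_nonneg a]
      · have m1 := Real.cos_nonpos_of_pi_div_two_le_of_le hc2.le (by linarith)
        have : a * q * Real.cos δ ≤ 0 := mul_nonpos_of_nonneg_of_nonpos (by positivity) m1
        nlinarith [sq_nonneg q, sq_nonneg a]
    exact (sq_le_sq₀ (by positivity) hn).1 hsq

/-- a good scale -/
def GS (α β : ℝ → ℝ) (r : ℝ) : Prop := β r ≤ α r + Real.pi ∧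
  (∀ q, 0 < q → q ≤ r → Gd α β (zz α r) (zz β q)) ∧ ∀ p, 0 < p → p ≤ r → Gd α β (zz α p) (zz β r)

theorem thin_GS (h : Thin α β R) (hno : NoTr α β R) {r : ℝ} (hr : 0 < r) (hrR : 4 * r < R) :
    GS α β r := by
  refine ⟨?_, fun q h1 h2 => thin_pair h hno hr h1 hrR (by linarith), fun p h1 h2 =>
    thin_pair h hno h1 hr (by linarith) hrR⟩
  linarith [h.thin r hr (by linarith), Real.pi_gt_three]

theorem wide_GS (h : Arms α β R) {r : ℝ} (hr : 0 < r) (hrR : 4 * r < R)
    (h1 : α r + 1 / 30 ≤ β r) (h2 : β r ≤ α r + Real.pi) : GS α β r := by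
  refine ⟨h2, fun q a b => Or.inl ?_, fun p a b => Or.inr ?_⟩
  · exact chordW h hr hrR h2 (by rw [norm_zz a.le]; exact b)
      (Or.inl (wide_dist h (by linarith) h1 h2 a b))
  · refine chordW' h hr hrR h2 (by rw [norm_zz a.le]; exact b) (Or.inl ?_)
    have := wide_dist h.conj (a := r) (by linarith) (by linarith) (by linarith) a b
    rw [← zz_conj, ← zz_conj, ← map_sub, RCLike.norm_conj] at this
    exact this

/-- the arms of the reflected curve -/
theorem Arms.flip (h : Arms α β R) : Arms (fun r => -α r) (fun r => -β r + 2 * Real.pi) R :=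
  ⟨h.R0, h.sa.neg, h.sb.neg.add_const _, fun r a b => by linarith [h.lt2 r a b], fun r a b => by
    linarith [h.lt r a b]⟩

theorem Arms.shrink (h : Arms α β R) {R' : ℝ} (hR' : 0 < R') (hR : R' ≤ R) : Arms α β R' :=
  ⟨hR', fun r r' a b d => h.sa r r' a b (by linarith), fun r r' a b d => h.sb r r' a b (by linarith),
    fun r a b => h.lt r a (by linarith), fun r a b => h.lt2 r a (by linarith)⟩

/-- every pair of arms has good scales on one of its two sides -/
theorem exGS (h : Arms α β R) (n1 : ∀ R', R' ≤ R → Thin α β R' → NoTr α β R')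
    (n2 : ∀ R', R' ≤ R → Thin (fun r => -α r) (fun r => -β r + 2 * Real.pi) R' →
      NoTr (fun r => -α r) (fun r => -β r + 2 * Real.pi) R') :
    ∃ r, 0 < r ∧ 4 * r < R ∧ (GS α β r ∨ GS (fun r => -α r) (fun r => -β r + 2 * Real.pi) r) := by
  have hR := h.R0
  have hπ := Real.pi_gt_three
  by_cases hA : ∃ r, 0 < r ∧ 4 * r < R ∧ α r + 1 / 30 ≤ β r ∧ β r ≤ α r + 2 * Real.pi - 1 / 30
  · obtain ⟨r, hr, hrR, h1, h2⟩ := hA
    rcases le_total (β r) (α r + Real.pi) with hc | hc
    · exact ⟨r, hr, hrR, Or.inl (wide_GS h hr hrR h1 hc)⟩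
    · exact ⟨r, hr, hrR, Or.inr (wide_GS h.flip hr hrR (by linarith) (by linarith))⟩
  · push Not at hA
    have hcont : ContinuousOn (fun r => β r - α r) (Ioo 0 (R / 4)) :=
      (h.sb.cont.sub h.sa.cont).mono fun r hr => ⟨hr.1, by linarith [hr.2]⟩
    have nomid : ∀ r ∈ Ioo 0 (R / 4), β r - α r ≠ 1 := fun r hr h1 => by
      have := hA r hr.1 (by linarith [hr.2]) (by linarith)
      linarith
    have h8 : R / 8 ∈ Ioo 0 (R / 4) := ⟨by linarith, by linarith⟩
    rcases le_or_gt 1 (β (R / 8) - α (R / 8)) with hc | hc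
    · -- thin on the other side
      have hbig : ∀ r ∈ Ioo 0 (R / 4), 1 < β r - α r := by
        intro r hr
        by_contra hcon
        push Not at hcon
        obtain ⟨y, hy, hy1⟩ := isPreconnected_Ioo.intermediate_value hr h8 hcont
          (show (1:ℝ) ∈ Icc _ _ from ⟨hcon, hc⟩)
        exact nomid y hy hy1
      have hT : Thin (fun r => -α r) (fun r => -β r + 2 * Real.pi) (R / 4) := by
        have hs := h.flip.shrink (show 0 < R / 4 by linarith) (by linarith)
        refine ⟨hs.R0, hs.sa, hs.sb, hs.lt, fun r a b => ?_⟩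
        have h1 := hbig r ⟨a, b⟩
        have h2 := hA r a (by linarith) (by linarith)
        linarith
      exact ⟨R / 20, by linarith, by linarith, Or.inr (thin_GS hT (n2 _ (by linarith) hT)
        (by linarith) (by linarith))⟩
    · have hsmall : ∀ r ∈ Ioo 0 (R / 4), β r - α r < 1 := by
        intro r hr
        by_contra hcon
        push Not at hcon
        obtain ⟨y, hy, hy1⟩ := isPreconnected_Ioo.intermediate_value h8 hr hcont
          (show (1:ℝ) ∈ Icc _ _ from ⟨hc.le, hcon⟩)
        exact nomid y hy hy1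
      have hT : Thin α β (R / 4) := by
        have hs := h.shrink (show 0 < R / 4 by linarith) (by linarith)
        refine ⟨hs.R0, hs.sa, hs.sb, hs.lt, fun r a b => ?_⟩
        have h1 := hsmall r ⟨a, b⟩
        by_contra hcon
        push Not at hcon
        have h2 := hA r a (by linarith) hcon
        linarith
      exact ⟨R / 20, by linarith, by linarith, Or.inl (thin_GS hT (n1 _ (by linarith) hT)
        (by linarith) (by linarith))⟩

end Pool.Agent.Helper665_SP
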