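import Pool.Agent.Helper665_SP.Bridge

/-! Almost radial points of a Jordan curve. -/

set_option autoImplicit false
open Complex Set Topology Metric

namespace Pool.Agent.Helper665_SP

open Pool.Agent.H763R2 Pool.Agent.H763R2.An Pool.Agent.W675.Peg Pool.Agent.TH569.Peg
open Pool.Agent.Y535.PEG Pool.Agent.Helper584_CU
open Pool.Agent.H763R2.Dm (NoSq)

variable {c K : ℝ → ℂ} {θ : ℝ → ℝ → ℝ} {g : ℤ} {s ρ R : ℝ} {α β : ℝ → ℝ}

/-- the two branches of the curve at `s` leave `c s` almost radially -/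
def Rad (c : ℝ → ℂ) (s : ℝ) : Prop := ∃ ρ > 0, ∃ R > 0, ∃ α β : ℝ → ℝ, Slow α R ∧ Slow β R ∧
  (∀ t, s - ρ < t → t < s → ‖c t - c s‖ < R ∧ c t - c s = zz α ‖c t - c s‖) ∧
  (∀ t, s < t → t < s + ρ → ‖c t - c s‖ < R ∧ c t - c s = zz β ‖c t - c s‖)

structure Grm (K : ℝ → ℂ) (s ρ : ℝ) (α β : ℝ → ℝ) (R : ℝ) : Prop where
  ρ0 : 0 < ρ
  arms : Arms α β R
  cont : Continuous K
  K0 : K s = 0
  k1 : ∀ t, s - ρ < t → t < s → ‖K t‖ < R → K t = zz α ‖K t‖
  k2 : ∀ t, s < t → t < s + ρ → ‖K t‖ < R → K t = zz β ‖K t‖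
  m1 : ∀ x y, s - ρ < x → x < y → y ≤ s → ‖K y‖ < ‖K x‖
  m2 : ∀ x y, s ≤ x → x < y → y < s + ρ → ‖K x‖ < ‖K y‖
  s1 : ∀ r, 0 < r → r < R → ∃ t, s - ρ < t ∧ t < s ∧ ‖K t‖ = r
  s2 : ∀ r, 0 < r → r < R → ∃ t, s < t ∧ t < s + ρ ∧ ‖K t‖ = r
  near : ∀ z ∈ range K, ‖z‖ < R → ∃ t', |t' - s| < ρ ∧ K t' = z

theorem shift_arms {β0 : ℝ → ℝ} (hR : 0 < R) (sa : Slow α R) (sb : Slow β0 R)
    (hne : ∀ r, 0 < r → r < R → exp (α r * I) ≠ exp (β0 r * I)) :
    ∃ n : ℤ, Arms α (fun r => β0 r + n * (2 * Real.pi)) R := by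
  have hπ := Real.pi_pos
  obtain ⟨f, hf⟩ : ∃ f : ℝ → ℝ, f = fun r => (β0 r - α r) / (2 * Real.pi) := ⟨_, rfl⟩
  have hfr : ∀ r, f r = (β0 r - α r) / (2 * Real.pi) := fun r => by rw [hf]
  have hfc : ContinuousOn f (Ioo 0 R) := by
    rw [hf]
    exact (sb.cont.sub sa.cont).div_const _
  have hni : ∀ r ∈ Ioo 0 R, ∀ n : ℤ, f r ≠ n := by
    intro r hr n h
    rw [hfr, div_eq_iff (by positivity)] at h
    refine hne r hr.1 hr.2 ?_
    rw [eq_comm, Complex.exp_eq_exp_iff_exists_int]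
    refine ⟨n, ?_⟩
    have e : β0 r = α r + n * (2 * Real.pi) := by linarith
    rw [e]
    push_cast
    ring
  have hm : R / 2 ∈ Ioo 0 R := ⟨by linarith, by linarith⟩
  obtain ⟨n, hn⟩ : ∃ n, n = ⌊f (R / 2)⌋ := ⟨_, rfl⟩
  have n1 : (n : ℝ) ≤ f (R / 2) := by rw [hn]; exact Int.floor_le _
  have n2 : f (R / 2) < n + 1 := by rw [hn]; exact Int.lt_floor_add_one _
  have lo : ∀ r ∈ Ioo 0 R, (n : ℝ) < f r := by
    intro r hr
    by_contra hcon
    push Not at hcon
    obtain ⟨y, hy, hy1⟩ := isPreconnected_Ioo.intermediate_value hr hm hfc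
      (show (n : ℝ) ∈ Icc _ _ from ⟨hcon, n1⟩)
    exact hni y hy n hy1
  have hi : ∀ r ∈ Ioo 0 R, f r < n + 1 := by
    intro r hr
    by_contra hcon
    push Not at hcon
    obtain ⟨y, hy, hy1⟩ := isPreconnected_Ioo.intermediate_value hm hr hfc
      (show (n : ℝ) + 1 ∈ Icc _ _ from ⟨n2.le, hcon⟩)
    exact hni y hy (n + 1) (by rw [hy1]; push_cast; rfl)
  refine ⟨-n, hR, sa, sb.add_const _, fun r a b => ?_, fun r a b => ?_⟩
  · have := lo r ⟨a, b⟩
    rw [hfr, lt_div_iff₀ (by positivity)] at this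
    push_cast
    linarith
  · have := hi r ⟨a, b⟩
    rw [hfr, div_lt_iff₀ (by positivity)] at this
    push_cast
    linarith

theorem Rad.grm (L : Loop c) (J : Inj c) (h : Rad c s) :
    ∃ ρ R α β, ρ ≤ 1 / 4 ∧ Grm (fun t => c t - c s) s ρ α β R := by
  obtain ⟨ρ0, hρ0, R0, hR0, α, β0, sa, sb, h1, h2⟩ := h
  obtain ⟨ρ, hρ, l1, l2⟩ : ∃ ρ > 0, ρ ≤ ρ0 ∧ ρ ≤ 1 / 4 := ⟨min ρ0 (1 / 4), by positivity,
    min_le_left _ _, min_le_right _ _⟩
  obtain ⟨K, hK⟩ : ∃ K : ℝ → ℂ, K = fun t => c t - c s := ⟨_, rfl⟩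
  have hKt : ∀ t, K t = c t - c s := fun t => by rw [hK]
  have hcc := L.cont
  have hKc : Continuous K := by rw [hK]; fun_prop
  have K0 : K s = 0 := by rw [hKt, sub_self]
  have injK : ∀ x y, s - ρ < x → x < y → y < s + ρ → K x ≠ K y := by
    intro x y a b d e
    rw [hKt, hKt] at e
    exact J x y b (by linarith) (by linear_combination e)
  have pos1 : ∀ t, s - ρ < t → t < s → 0 < ‖K t‖ := fun t a b =>
    norm_pos_iff.2 fun e => injK t s a b (by linarith) (by rw [e, K0])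
  have pos2 : ∀ t, s < t → t < s + ρ → 0 < ‖K t‖ := fun t a b =>
    norm_pos_iff.2 fun e => injK s t (by linarith) a b (by rw [e, K0])
  have k1 : ∀ t, s - ρ < t → t < s → K t = zz α ‖K t‖ := fun t a b => by
    rw [hKt]; exact (h1 t (by linarith) b).2
  have k2 : ∀ t, s < t → t < s + ρ → K t = zz β0 ‖K t‖ := fun t a b => by
    rw [hKt]; exact (h2 t a (by linarith)).2
  have m2 : ∀ x y, s ≤ x → x < y → y < s + ρ → ‖K x‖ < ‖K y‖ := by
    intro x y a b d
    by_contra hcon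
    push Not at hcon
    have hy := pos2 y (by linarith) d
    obtain ⟨t, ht, hte⟩ := intermediate_value_Icc a hKc.norm.continuousOn
      (show ‖K y‖ ∈ Icc ‖K s‖ ‖K x‖ from ⟨by rw [K0, norm_zero]; exact hy.le, hcon⟩)
    replace hte : ‖K t‖ = ‖K y‖ := hte
    have hts : s < t := lt_of_le_of_ne ht.1 fun e => by
      rw [← e, K0, norm_zero] at hte
      linarith
    refine injK t y (by linarith) (by linarith [ht.2]) d ?_
    rw [k2 t hts (by linarith [ht.2]), k2 y (by linarith) d, hte]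
  have m1 : ∀ x y, s - ρ < x → x < y → y ≤ s → ‖K y‖ < ‖K x‖ := by
    intro x y a b d
    by_contra hcon
    push Not at hcon
    have hx := pos1 x a (by linarith)
    obtain ⟨t, ht, hte⟩ := intermediate_value_Icc' d hKc.norm.continuousOn
      (show ‖K x‖ ∈ Icc ‖K s‖ ‖K y‖ from ⟨by rw [K0, norm_zero]; exact hx.le, hcon⟩)
    replace hte : ‖K t‖ = ‖K x‖ := hte
    have hts : t < s := lt_of_le_of_ne ht.2 fun e => by
      rw [e, K0, norm_zero] at hte
      linarith
    refine injK x t a (by linarith [ht.1]) (by linarith) ?_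
    rw [k1 t (by linarith [ht.1]) hts, k1 x a (by linarith), hte]
  obtain ⟨ρ1, hρ1, hn⟩ := near_par L J hρ
  have q1 := pos1 (s - ρ / 2) (by linarith) (by linarith)
  have q2 := pos2 (s + ρ / 2) (by linarith) (by linarith)
  obtain ⟨R, hR, r1, r2, r3, r4⟩ : ∃ R > 0, R ≤ R0 ∧ R ≤ ρ1 ∧ R ≤ ‖K (s - ρ / 2)‖ ∧
      R ≤ ‖K (s + ρ / 2)‖ :=
    ⟨min (min R0 ρ1) (min ‖K (s - ρ / 2)‖ ‖K (s + ρ / 2)‖), by positivity,
      (min_le_left _ _).trans (min_le_left _ _), (min_le_left _ _).trans (min_le_right _ _),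
      (min_le_right _ _).trans (min_le_left _ _), (min_le_right _ _).trans (min_le_right _ _)⟩
  have s1 : ∀ r, 0 < r → r < R → ∃ t, s - ρ < t ∧ t < s ∧ ‖K t‖ = r := by
    intro r a b
    obtain ⟨t, ht, hte⟩ := intermediate_value_Icc' (by linarith : s - ρ / 2 ≤ s)
      hKc.norm.continuousOn (show r ∈ Icc ‖K s‖ ‖K (s - ρ / 2)‖ from
        ⟨by rw [K0, norm_zero]; exact a.le, by linarith⟩)
    replace hte : ‖K t‖ = r := hte
    refine ⟨t, by linarith [ht.1], lt_of_le_of_ne ht.2 fun e => ?_, hte⟩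
    rw [e, K0, norm_zero] at hte
    linarith
  have s2 : ∀ r, 0 < r → r < R → ∃ t, s < t ∧ t < s + ρ ∧ ‖K t‖ = r := by
    intro r a b
    obtain ⟨t, ht, hte⟩ := intermediate_value_Icc (by linarith : s ≤ s + ρ / 2)
      hKc.norm.continuousOn (show r ∈ Icc ‖K s‖ ‖K (s + ρ / 2)‖ from
        ⟨by rw [K0, norm_zero]; exact a.le, by linarith⟩)
    replace hte : ‖K t‖ = r := hte
    refine ⟨t, lt_of_le_of_ne ht.1 fun e => ?_, by linarith [ht.2], hte⟩
    rw [← e, K0, norm_zero] at hte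
    linarith
  have sa' : Slow α R := fun r r' a b d => sa r r' a b (by linarith)
  have sb' : Slow β0 R := fun r r' a b d => sb r r' a b (by linarith)
  obtain ⟨n, hA⟩ := shift_arms hR sa' sb' (fun r a b e => by
    obtain ⟨t1, a1, a2, a3⟩ := s1 r a b
    obtain ⟨t2, b1, b2, b3⟩ := s2 r a b
    refine injK t1 t2 a1 (by linarith) b2 ?_
    rw [k1 t1 a1 a2, k2 t2 b1 b2, a3, b3]
    unfold zz
    rw [e])
  refine ⟨ρ, R, α, fun r => β0 r + n * (2 * Real.pi), l2, ?_⟩
  rw [← hK]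
  refine ⟨hρ, hA, hKc, K0, fun t a b _ => k1 t a b, fun t a b _ => ?_, m1, m2, s1, s2, ?_⟩
  · rw [zz_add_two_pi]; exact k2 t a b
  · rintro z ⟨t, rfl⟩ hz
    rw [hKt] at hz
    obtain ⟨m, e, he, hte⟩ := hn t s (by linarith)
    refine ⟨s + e, by rwa [add_sub_cancel_left], ?_⟩
    rw [hKt, hKt, hte, L.per_int]

theorem Grm.flip (G : Grm K s ρ α β R) :
    Grm (fun t => (starRingEnd ℂ) (K t)) s ρ (fun r => -α r) (fun r => -β r + 2 * Real.pi) R := by
  have hK := G.cont
  refine ⟨G.ρ0, G.arms.flip, by fun_prop, by simp only [G.K0, map_zero], fun t a b d => ?_,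
    fun t a b d => ?_, fun x y a b d => ?_, fun x y a b d => ?_, fun r a b => ?_, fun r a b => ?_,
    ?_⟩
  · simp only [RCLike.norm_conj] at d ⊢
    rw [← zz_conj, ← G.k1 t a b d]
  · simp only [RCLike.norm_conj] at d ⊢
    have := zz_add_two_pi (φ := fun r => -β r) 1 ‖K t‖
    simp only [Int.cast_one, one_mul] at this
    rw [this, ← zz_conj, ← G.k2 t a b d]
  · simp only [RCLike.norm_conj]; exact G.m1 x y a b d
  · simp only [RCLike.norm_conj]; exact G.m2 x y a b d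
  · simp only [RCLike.norm_conj]; exact G.s1 r a b
  · simp only [RCLike.norm_conj]; exact G.s2 r a b
  · rintro z ⟨t, rfl⟩ hz
    simp only [RCLike.norm_conj] at hz
    obtain ⟨t', h1, h2⟩ := G.near (K t) ⟨t, rfl⟩ hz
    exact ⟨t', h1, by simp only [h2]⟩

theorem Grm.mem1 (G : Grm K s ρ α β R) {r : ℝ} (hr : 0 < r) (hrR : r < R) : zz α r ∈ range K := by
  obtain ⟨t, a, b, d⟩ := G.s1 r hr hrR
  exact ⟨t, by rw [G.k1 t a b (by rw [d]; exact hrR), d]⟩

theorem Grm.mem2 (G : Grm K s ρ α β R) {r : ℝ} (hr : 0 < r) (hrR : r < R) : zz β r ∈ range K := by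
  obtain ⟨t, a, b, d⟩ := G.s2 r hr hrR
  exact ⟨t, by rw [G.k2 t a b (by rw [d]; exact hrR), d]⟩

theorem Grm.noTr (G : Grm K s ρ α β R) (nosq : NoSq (range K)) {R' : ℝ} (hR' : R' ≤ R)
    (hT : Thin α β R') : NoTr α β R' := by
  intro a t b T h0
  have ha0 := T.a0
  have haR := T.aR
  have s1 := abs_le.1 (T.bb hT)
  have s2 := abs_le.1 (T.ee hT)
  have hE : EE α β a t b ∈ range K := by
    rw [h0]; exact G.mem2 (by linarith) (by linarith)
  refine nosq ⟨zz α t, zz α a - zz α t, ?_, G.mem1 T.t0 (by linarith [T.ta]), ?_, ?_, ?_⟩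
  · intro h
    have := congrArg norm (sub_eq_zero.1 h)
    rw [norm_zz ha0.le, norm_zz T.t0.le] at this
    linarith [T.ta]
  · rw [show zz α t + (zz α a - zz α t) = zz α a by ring]
    exact G.mem1 ha0 (by linarith)
  · rw [show zz α t + (zz α a - zz α t) + I * (zz α a - zz α t) = zz β b by rw [T.sq]; ring]
    exact G.mem2 T.b0 (by linarith)
  · rw [show zz α t + I * (zz α a - zz α t) = EE α β a t b by unfold EE; rw [T.sq]; ring]
    exact hE

/-- at a good scale all the chords of the bridge are good -/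
theorem Grm.brd (G : Grm K s ρ α β R) {r : ℝ} (hr : 0 < r) (hrR : 4 * r < R) (hG : GS α β r)
    {p q : ℝ} (p1 : s - ρ < p) (p2 : p < s) (p3 : ‖K p‖ = r) (q1 : s < q) (q2 : q < s + ρ)
    (q3 : ‖K q‖ = r) {v : ℝ × ℝ} (hv : v ∈ Brd p q) : Gd α β (K v.1) (K v.2) := by
  obtain ⟨g1, g2, g3⟩ := hG
  have hh := G.arms
  have eP : K p = zz α r := by rw [G.k1 p p1 p2 (by linarith), p3]
  have eQ : K q = zz β r := by rw [G.k2 q q1 q2 (by linarith), q3]
  rcases hv with ⟨y, hy, rfl⟩ | ⟨x, hx, rfl⟩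
  · simp only
    rw [eP]
    rcases lt_trichotomy y s with h | h | h
    · -- both points on the first arm
      have hlt := G.m1 p y p1 hy.1 h.le
      rw [p3] at hlt
      have h0 : 0 < ‖K y‖ := by
        have := G.m1 y s (by linarith [hy.1]) h le_rfl
        rwa [G.K0, norm_zero] at this
      have eY := G.k1 y (by linarith [hy.1]) h (by linarith)
      left
      refine chordW hh hr hrR g1 hlt.le ?_
      rcases le_or_gt (r / 2) ‖K y‖ with hc | hc
      · right
        refine ⟨?_, hlt⟩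
        rw [norm_sub_rev]
        nth_rewrite 1 [eY]
        exact zz_dist hh.sa h0 hlt.le (by linarith) (by linarith)
      · left
        have := abs_norm_sub_norm_le (K y) (zz α r)
        rw [norm_zz hr.le] at this
        linarith [(abs_le.1 this).1]
    · rw [h, G.K0]
      left
      refine chordW hh hr hrR g1 (by rw [norm_zero]; exact hr.le) (Or.inl ?_)
      rw [zero_sub, norm_neg, norm_zz hr.le]
      linarith
    · have hle : ‖K y‖ ≤ r := by
        rcases hy.2.eq_or_lt with h4 | h4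
        · rw [h4, q3]
        · have := G.m2 y q h.le h4 q2
          linarith
      have h0 : 0 < ‖K y‖ := by
        have := G.m2 s y le_rfl h (by linarith [hy.2])
        rwa [G.K0, norm_zero] at this
      have eY := G.k2 y h (by linarith [hy.2]) (by linarith)
      rw [eY]
      exact g2 _ h0 hle
  · simp only
    rw [eQ]
    rcases lt_trichotomy x s with h | h | h
    · have hle : ‖K x‖ ≤ r := by
        rcases hx.1.eq_or_lt with h4 | h4
        · rw [← h4, p3]
        · have := G.m1 p x p1 h4 h.le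
          linarith
      have h0 : 0 < ‖K x‖ := by
        have := G.m1 x s (by linarith [hx.1]) h le_rfl
        rwa [G.K0, norm_zero] at this
      have eX := G.k1 x (by linarith [hx.1]) h (by linarith)
      rw [eX]
      exact g3 _ h0 hle
    · rw [h, G.K0]
      right
      refine chordW' hh hr hrR g1 (by rw [norm_zero]; exact hr.le) (Or.inl ?_)
      rw [zero_sub, norm_neg, norm_zz hr.le]
      linarith
    · have hlt := G.m2 x q h.le hx.2 q2
      rw [q3] at hlt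
      have h0 : 0 < ‖K x‖ := by
        have := G.m2 s x le_rfl h (by linarith [hx.2])
        rwa [G.K0, norm_zero] at this
      have eX := G.k2 x h (by linarith [hx.2]) (by linarith)
      right
      refine chordW' hh hr hrR g1 hlt.le ?_
      rcases le_or_gt (r / 2) ‖K x‖ with hc | hc
      · right
        refine ⟨?_, hlt⟩
        rw [norm_sub_rev]
        nth_rewrite 1 [eX]
        exact zz_dist hh.sb h0 hlt.le (by linarith) (by linarith)
      · left
        have := abs_norm_sub_norm_le (K x) (zz β r)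
        rw [norm_zz hr.le] at this
        linarith [(abs_le.1 this).1]

end Pool.Agent.Helper665_SP
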