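import Pool.Agent.Helper665_SP.Rad

/-! Jordan curves all of whose points are locally monotone, cusps or nearly radial points, apart from
finitely many linked arcs. -/

set_option autoImplicit false
open Complex Set Topology Metric

namespace Pool.Agent.Helper665_SP

open Pool.Agent.H763R2 Pool.Agent.H763R2.An Pool.Agent.W675.Peg Pool.Agent.TH569.Peg
open Pool.Agent.Y535.PEG Pool.Agent.Helper584_CU
open Pool.Agent.H763R2.Dm (NoSq)

variable {c : ℝ → ℂ} {θ : ℝ → ℝ → ℝ} {g : ℤ}

/-- the number of half turns is constant along an arc with isolated singular points -/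
theorem arc_const' (L : Loop c) (J : Inj c) (nosq : NoSq (range c)) (A : Ang c (mgc c) θ g)
    {a b : ℝ} (hab : a < b) (hba : b < a + 1) (Ca : Cone c a) (Cb : Cone c b)
    (H : ∀ s ∈ Icc a b, Mon c s ∨ Sg c s) {k l : ℤ} (hk : KL θ a k) (hl : KL θ b l) : k = l := by
  obtain ⟨Z, hZ⟩ : ∃ Z : Set ℝ, Z = {t | t ∈ Icc a b ∧ ∃ q, a ≤ q ∧ q ≤ t ∧ Cone c q ∧ KL θ q k ∧
    ∀ r ∈ Icc q t, Mon c r} := ⟨_, rfl⟩
  have haZ : a ∈ Z := by
    rw [hZ]
    refine ⟨⟨le_rfl, hab.le⟩, a, le_rfl, le_rfl, Ca, hk, fun r hr => ?_⟩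
    rw [le_antisymm hr.2 hr.1]
    exact cone_mon Ca
  have hbd : BddAbove Z := ⟨b, fun t ht => by rw [hZ] at ht; exact ht.1.2⟩
  obtain ⟨T, hT⟩ : ∃ T, T = sSup Z := ⟨_, rfl⟩
  have hleT : ∀ t ∈ Z, t ≤ T := fun t ht => by rw [hT]; exact le_csSup hbd ht
  have haT : a ≤ T := hleT a haZ
  have hTb : T ≤ b := by
    rw [hT]
    exact csSup_le ⟨a, haZ⟩ fun t ht => by rw [hZ] at ht; exact ht.1.2
  have hnear : ∀ ε > 0, ∃ t ∈ Z, T - ε < t := fun ε hε =>
    exists_lt_of_lt_csSup ⟨a, haZ⟩ (by rw [← hT]; linarith)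
  by_cases hM : Mon c T
  · obtain ⟨ρ, hρ, hM'⟩ := mon_nbhd hM
    obtain ⟨t, htZ, ht⟩ := hnear ρ hρ
    have htT := hleT t htZ
    have htZ' := htZ
    rw [hZ] at htZ'
    obtain ⟨⟨-, -⟩, q, hq1, hq2, hq3, hq4, hq5⟩ := htZ'
    have hall : ∀ r ∈ Icc q (min (T + ρ / 2) b), Mon c r := by
      intro r hr
      rcases le_or_gt r t with h | h
      · exact hq5 r ⟨hr.1, h⟩
      · refine hM' r ?_
        have := hr.2.trans (min_le_left _ _)
        rw [abs_lt]
        constructor <;> linarith
    have hmem : min (T + ρ / 2) b ∈ Z := by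
      rw [hZ]
      have h1 : t ≤ min (T + ρ / 2) b := le_min (by linarith) (by linarith)
      exact ⟨⟨by linarith, min_le_right _ _⟩, q, hq1, by linarith, hq3, hq4, hall⟩
    have hTb' : T = b := by
      have := hleT _ hmem
      rcases le_total (T + ρ / 2) b with h | h
      · rw [min_eq_left h] at this; linarith
      · rw [min_eq_right h] at this; linarith
    rw [hTb', min_eq_right (by linarith)] at hall
    rcases (show q ≤ b by linarith).eq_or_lt with h | h
    · rw [h] at hq4
      exact hq4.uniq hl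
    · exact (monoX jP jT2 Y407.PEG.sgU jI L J nosq A h (by linarith) hq3 Cb hall hq4 hl).symm
  · exfalso
    have hC : Sg c T := (H T ⟨haT, hTb⟩).resolve_left hM
    have hTb' : T < b := lt_of_le_of_ne hTb fun h => hM (by rw [h]; exact cone_mon Cb)
    obtain ⟨r1, hr1, hN⟩ := hC.1
    obtain ⟨r2, hr2, hK⟩ := hC.2 θ g A
    obtain ⟨r, hr, l1, l2, l3⟩ : ∃ r > 0, r ≤ r1 ∧ r ≤ r2 ∧ r ≤ b - T := by
      have : 0 < b - T := by linarith
      exact ⟨min (min r1 r2) (b - T), by positivity, (min_le_left _ _).trans (min_le_left _ _),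
        (min_le_left _ _).trans (min_le_right _ _), min_le_right _ _⟩
    obtain ⟨t, htZ, ht⟩ := hnear r hr
    have htT := hleT t htZ
    rw [hZ] at htZ
    obtain ⟨⟨-, -⟩, q, hq1, hq2, hq3, hq4, hq5⟩ := htZ
    have htT' : t < T := lt_of_le_of_ne htT fun h => hM (hq5 T ⟨by linarith, by linarith⟩)
    have hp1 : |(t + T) / 2 - T| < r := by rw [abs_lt]; constructor <;> linarith
    have hq1' : |T + r / 2 - T| < r := by rw [abs_lt]; constructor <;> linarith
    have Cp : Cone c ((t + T) / 2) := hN _ (hp1.trans_le l1) (by intro h; linarith)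
    have Cq : Cone c (T + r / 2) := hN _ (hq1'.trans_le l1) (by intro h; linarith)
    obtain ⟨kp, hkp⟩ := exKL L J A Cp
    obtain ⟨kq, hkq⟩ := exKL L J A Cq
    have e1 : kp = k := monoX jP jT2 Y407.PEG.sgU jI L J nosq A (by linarith) (by linarith) hq3 Cp
      (fun r' hr' => by
        rcases le_or_gt r' t with h | h
        · exact hq5 r' ⟨hr'.1, h⟩
        · have h2 := hr'.2
          refine cone_mon (hN r' ?_ (by intro h; linarith))
          rw [abs_lt]
          constructor <;> linarith) hq4 hkp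
    have e2 := hK _ _ (hp1.trans_le l2) (hq1'.trans_le l2) (by linarith) Cp Cq _ _ hkp hkq
    have hmem : T + r / 2 ∈ Z := by
      rw [hZ]
      refine ⟨⟨by linarith, by linarith⟩, T + r / 2, by linarith, le_rfl, Cq, ?_, fun r' hr' => ?_⟩
      · rw [← e1, e2]; exact hkq
      · rw [le_antisymm hr'.2 hr'.1]
        exact cone_mon Cq
    linarith [hleT _ hmem]

/-- the case without linked arcs -/
theorem all_tame (L : Loop c) (J : Inj c) (nosq : NoSq (range c))
    (H : ∀ s, Mon c s ∨ Sg c s) : False := by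
  have hc := L.cont
  have hper := L.per
  by_cases hall : ∀ s, Mon c s
  · have hJ : H145R2.TSq.Jor c := by
      refine ⟨hc, hper, fun s t hst => ?_⟩
      by_contra hcon
      push Not at hcon
      have e1 : c (s - ⌊s - t⌋) = c s := by
        have := L.per_int s (-⌊s - t⌋)
        push_cast at this
        rwa [← sub_eq_add_neg] at this
      have h1 := Int.floor_le (s - t)
      have h2 := Int.lt_floor_add_one (s - t)
      refine J t (s - ⌊s - t⌋) (lt_of_le_of_ne (by linarith) fun h => hcon ⌊s - t⌋ (by linarith))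
        (by linarith) (by rw [e1, hst])
    have hloc : H145R2.TSq.LocMono c := by
      intro τ
      obtain ⟨ρ, hρ, w, hw⟩ := hall τ
      have hw0 : w ≠ 0 := by
        rintro rfl
        have := hw τ (τ + ρ / 2) (by simpa using hρ) (by
          rw [add_sub_cancel_left, abs_of_pos (by positivity)]; linarith) (by linarith)
        simp at this
      obtain ⟨φ, hφ⟩ : ∃ φ : ℂ →L[ℝ] ℝ, ∀ z, φ z = (w * z).re :=
        ⟨Complex.reCLM.comp ((ContinuousLinearMap.mul ℝ ℂ) w), fun z => rfl⟩
      refine ⟨φ, univ, Filter.univ_mem, 0, fun z _ => φ.differentiableAt, ?_, ?_, ρ, hρ, ?_⟩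
      · intro x _ y _
        rw [φ.fderiv, φ.fderiv]
        simp
      · rw [φ.fderiv]
        intro h
        have := congrArg (fun f : ℂ →L[ℝ] ℝ => f ((starRingEnd ℂ) w)) h
        simp only [hφ, ContinuousLinearMap.zero_apply] at this
        rw [mul_conj, ofReal_re] at this
        exact hw0 (normSq_eq_zero.1 this)
      · intro x hx y hy hxy
        simp only [hφ]
        rcases hxy.eq_or_lt with h | h
        · rw [h]
        · have := hw x y (by rw [abs_lt]; constructor <;> linarith [hx.1, hx.2])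
            (by rw [abs_lt]; constructor <;> linarith [hy.1, hy.2]) h
          rw [mul_sub, sub_re] at this
          linarith
    obtain ⟨ε, hε, h⟩ := H145R2.TSq.main_robust hJ hloc
    exact nosq (h c hJ (fun t => by rw [sub_self, norm_zero]; exact hε.le))
  · push Not at hall
    obtain ⟨s, hs⟩ := hall
    have hC : Sg c s := (H s).resolve_left hs
    obtain ⟨θ, g, A, hodd⟩ := exists_odd L J nosq
    obtain ⟨r1, hr1, hN⟩ := hC.1
    obtain ⟨r2, hr2, hK⟩ := hC.2 θ g A
    obtain ⟨r, hr, l1, l2, l3⟩ : ∃ r > 0, r ≤ r1 ∧ r ≤ r2 ∧ r ≤ 1 / 2 :=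
      ⟨min (min r1 r2) (1 / 2), by positivity, (min_le_left _ _).trans (min_le_left _ _),
        (min_le_left _ _).trans (min_le_right _ _), min_le_right _ _⟩
    have hp : |s - r / 2 - s| < r := by rw [abs_lt]; constructor <;> linarith
    have hq : |s + r / 2 - s| < r := by rw [abs_lt]; constructor <;> linarith
    have Cp : Cone c (s - r / 2) := hN _ (hp.trans_le l1) (by intro h; linarith)
    have Cq : Cone c (s + r / 2) := hN _ (hq.trans_le l1) (by intro h; linarith)
    obtain ⟨k, hk⟩ := exKL L J A Cp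
    obtain ⟨l, hl⟩ := exKL L J A Cq
    have e1 := hK _ _ (hp.trans_le l2) (hq.trans_le l2) (by linarith) Cp Cq _ _ hk hl
    have e2 := arc_const' L J nosq A (a := s + r / 2) (b := s - r / 2 + 1) (by linarith)
      (by linarith) Cq (Cp.per L) (fun t _ => H t) hl (hk.per A)
    have : g = 0 := by linarith
    rw [this] at hodd
    exact absurd hodd (by decide)



theorem _root_.Pool.Agent.Helper584_CU.Csp.sg (L : Loop c) (J : Inj c) (nosq : NoSq (range c))
    {s : ℝ} (h : Csp c s) : Sg c s := ⟨h.nbhd, fun _ _ A => h.KL L J nosq A⟩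

/-- the number of half turns at `p` and at `q` is the same -/
def Lk (c : ℝ → ℂ) (p q : ℝ) : Prop := ∀ (θ : ℝ → ℝ → ℝ) (g : ℤ), Ang c (mgc c) θ g →
  ∀ k l, KL θ p k → KL θ q l → k = l

theorem chain (L : Loop c) (J : Inj c) (nosq : NoSq (range c)) {t : ℤ → ℝ} (ht : StrictMono t)
    {n : ℕ} (hn : ∀ i : ℤ, t (i + n) = t i + 1)
    (H : ∀ i : ℤ, (∀ s ∈ Icc (t i) (t (i + 1)), Mon c s ∨ Sg c s) ∨
      (Cone c (t i) ∧ Cone c (t (i + 1)) ∧ Lk c (t i) (t (i + 1)))) : False := by
  have hn0 : 0 < n := by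
    rcases Nat.eq_zero_or_pos n with h | h
    · have := hn 0
      rw [h] at this
      simp at this
    · exact h
  by_cases hall : ∀ i : ℤ, ∀ s ∈ Icc (t i) (t (i + 1)), Mon c s ∨ Sg c s
  · refine all_tame L J nosq fun s => ?_
    have hk : ∀ k : ℕ, t (k * n) = t 0 + k ∧ t (-(k * n)) = t 0 - k := by
      intro k
      induction k with
      | zero => simp
      | succ k ih =>
        obtain ⟨i1, i2⟩ := ih
        have e1 := hn (k * n)
        have e2 := hn (-((k + 1 : ℕ) * n))
        rw [show (-(((k + 1 : ℕ) : ℤ) * n) + n : ℤ) = -(k * n) by push_cast; ring, i2] at e2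
        rw [show ((k : ℤ) * n + n : ℤ) = ((k + 1 : ℕ) : ℤ) * n by push_cast; ring, i1] at e1
        push_cast at e1 e2 ⊢
        constructor <;> linarith
    obtain ⟨k, hk1⟩ := exists_nat_gt |s - t 0|
    obtain ⟨hk2, hk3⟩ := hk k
    have hs := abs_lt.1 hk1
    obtain ⟨i, hi, hi2⟩ := Int.exists_greatest_of_bdd (P := fun i : ℤ => t i ≤ s)
      ⟨k * n, fun z hz => by
        by_contra hcon
        push Not at hcon
        have := ht hcon
        linarith⟩ ⟨-(k * n), by linarith⟩
    refine hall i s ⟨hi, ?_⟩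
    by_contra hcon
    push Not at hcon
    have := hi2 (i + 1) hcon.le
    omega
  · push Not at hall
    obtain ⟨i0, s0, hs0, hs1⟩ := hall
    have hi0 : ¬ ∀ s ∈ Icc (t i0) (t (i0 + 1)), Mon c s ∨ Sg c s := fun h =>
      (h s0 hs0).elim hs1.1 hs1.2
    obtain ⟨θ, g, A, hodd⟩ := exists_odd L J nosq
    have C0 : Cone c (t i0) := ((H i0).resolve_left hi0).1
    obtain ⟨k, hk⟩ := exKL L J A C0
    have key : ∀ j : ℕ, j ≤ n → ∃ a, Cone c a ∧ KL θ a k ∧ t i0 ≤ a ∧ a ≤ t (i0 + j) ∧
        (1 ≤ j → t i0 < a) ∧ ∀ s ∈ Icc a (t (i0 + j)), Mon c s ∨ Sg c s := by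
      intro j
      induction j with
      | zero =>
        intro _
        refine ⟨t i0, C0, hk, le_rfl, by simp, fun h => absurd h (by norm_num), fun s hs => ?_⟩
        simp only [Nat.cast_zero, add_zero, Icc_self, mem_singleton_iff] at hs
        rw [hs]
        exact Or.inl (cone_mon C0)
      | succ j ih =>
        intro hj
        obtain ⟨a, Ca, ha, a1, a2, a3, a4⟩ := ih (by omega)
        have hstep : t (i0 + j) < t (i0 + j + 1) := ht (by omega)
        rw [show (i0 + ((j + 1 : ℕ) : ℤ)) = i0 + j + 1 by push_cast; ring]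
        by_cases ht1 : ∀ s ∈ Icc (t (i0 + j)) (t (i0 + j + 1)), Mon c s ∨ Sg c s
        · refine ⟨a, Ca, ha, a1, by linarith, fun _ => ?_, fun s hs => ?_⟩
          · rcases Nat.eq_zero_or_pos j with h | h
            · rw [h] at ht1
              simp only [Nat.cast_zero, add_zero] at ht1
              exact absurd ht1 hi0
            · exact a3 h
          · rcases le_total s (t (i0 + j)) with h | h
            · exact a4 s ⟨hs.1, h⟩
            · exact ht1 s ⟨h, hs.2⟩
        · obtain ⟨C1, C2, hL⟩ := (H (i0 + j)).resolve_left ht1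
          obtain ⟨l, hl⟩ := exKL L J A C1
          obtain ⟨m, hm⟩ := exKL L J A C2
          have hlt : t (i0 + j) < t i0 + 1 := by
            rw [← hn i0]
            exact ht (by omega)
          have e1 : k = l := by
            rcases a2.eq_or_lt with h | h
            · rw [h] at ha
              exact ha.uniq hl
            · exact arc_const' L J nosq A h (by linarith) Ca C1 a4 ha hl
          have e2 : l = m := hL θ g A l m hl hm
          refine ⟨t (i0 + j + 1), C2, by rw [e1, e2]; exact hm, by linarith, le_rfl,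
            fun _ => by linarith, fun s hs => ?_⟩
          rw [Icc_self, mem_singleton_iff] at hs
          rw [hs]
          exact Or.inl (cone_mon C2)
    obtain ⟨a, Ca, ha, a1, a2, a3, a4⟩ := key n le_rfl
    have a3 := a3 hn0
    rw [hn i0] at a2 a4
    have Cb : Cone c (t i0 + 1) := C0.per L
    have hb : KL θ (t i0 + 1) (k + 2 * g) := hk.per A
    have e : k = k + 2 * g := by
      rcases a2.eq_or_lt with h | h
      · rw [h] at ha
        exact ha.uniq hb
      · exact arc_const' L J nosq A h (by linarith) Ca Cb a4 ha hb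
    have : g = 0 := by linarith
    rw [this] at hodd
    exact absurd hodd (by decide)

end Pool.Agent.Helper665_SP
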