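import Pool.Agent.Helper665_SP.Glob

/-! Linked arcs: the number of half turns is the same at both ends. -/

set_option autoImplicit false
open Complex Set Topology Metric

namespace Pool.Agent.Helper665_SP

open Pool.Agent.H763R2 Pool.Agent.H763R2.An Pool.Agent.W675.Peg Pool.Agent.TH569.Peg
open Pool.Agent.Y535.PEG Pool.Agent.Helper584_CU
open Pool.Agent.H763R2.Dm (NoSq)

variable {c : ℝ → ℂ} {θ : ℝ → ℝ → ℝ} {g : ℤ}

theorem near_of_closure {B : Set (ℝ × ℝ)} {p : ℝ} (hp : (p, p) ∈ closure B) {r1 r2 : ℝ}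
    (h1 : 0 < r1) (h2 : 0 < r2) : ∃ v ∈ B, |v.1 - p| < r1 ∧ |v.2 - p| < r1 ∧
      |v.1 - p| < r2 ∧ |v.2 - p| < r2 := by
  obtain ⟨v, hv, hd⟩ := Metric.mem_closure_iff.1 hp (min r1 r2) (lt_min h1 h2)
  rw [Prod.dist_eq, max_lt_iff, Real.dist_eq, Real.dist_eq, abs_sub_comm p, abs_sub_comm p] at hd
  exact ⟨v, hv, hd.1.trans_le (min_le_left _ _), hd.2.trans_le (min_le_left _ _),
    hd.1.trans_le (min_le_right _ _), hd.2.trans_le (min_le_right _ _)⟩

/-- the bridge lemma for a connected family of chords -/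
theorem bridgeB (L : Loop c) (J : Inj c) (nosq : NoSq (range c)) (A : Ang c (mgc c) θ g) {p q : ℝ}
    (hpq : p < q) (hqp : q < p + 1) (Cp : Cone c p) (Cq : Cone c q) {B : Set (ℝ × ℝ)}
    (hB : IsPreconnected B) (hBU : ∀ v ∈ B, v.1 < v.2 ∧ v.2 < v.1 + 1) (hBp : (p, p) ∈ closure B)
    (hBq : (q, q) ∈ closure B) {τ : ℝ} (hτ : τ = 1 ∨ τ = -1)
    (H : (∀ v ∈ B, 0 < τ * mgc c (DD c v.1 v.2) ∨ 0 < τ * mgc c (CC c v.1 v.2)) ∨
      (∀ v ∈ B, 0 < τ * mgc c (DD c v.2 v.1) ∨ 0 < τ * mgc c (CC c v.2 v.1)))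
    {k l : ℤ} (hk : KL θ p k) (hl : KL θ q l) : k = l := by
  obtain ⟨r2, hr2, h2⟩ := cone_sign L J Cp
  obtain ⟨r3, hr3, h3⟩ := cone_sign L J Cq
  rcases H with H | H
  · obtain ⟨r1, hr1, h1⟩ := hk
    obtain ⟨r4, hr4, h4⟩ := hl
    obtain ⟨z, hz, z1, z2, z3, z4⟩ := near_of_closure hBp hr1 hr2
    obtain ⟨w, hw, w1, w2, w3, w4⟩ := near_of_closure hBq hr4 hr3
    have bz := hBU z hz
    have bw := hBU w hw
    rw [← h1 z.1 z.2 z1 z2 bz.1, ← h4 w.1 w.2 w1 w2 bw.1]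
    refine quad_floor hB (f := fun v => θ v.1 v.2) (A.cont.mono fun v hv =>
      ⟨(hBU v hv).1, (hBU v hv).2⟩) hτ (fun v hv => ?_) hz hw
      (cs_pos A bz.1 bz.2 (h2 z.1 z.2 z3 z4 bz.1).1)
      (cs_pos A bw.1 bw.2 (h3 w.1 w.2 w3 w4 bw.1).1)
    have bv := hBU v hv
    obtain ⟨r, hr, e1, e2⟩ := A.ex v.1 v.2 bv.1 bv.2
    have := H v hv
    rw [e1, e2] at this
    rcases this with h | h
    · left
      rw [show τ * (r * Real.cos (θ v.1 v.2)) = r * (τ * Real.cos (θ v.1 v.2)) by ring] at h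
      exact (mul_pos_iff_of_pos_left hr).1 h
    · right
      rw [show τ * (r * Real.sin (θ v.1 v.2)) = r * (τ * Real.sin (θ v.1 v.2)) by ring] at h
      exact (mul_pos_iff_of_pos_left hr).1 h
  · obtain ⟨k', hk'⟩ := exKR L J A Cp
    obtain ⟨l', hl'⟩ := exKR L J A Cq
    have hk'' := hk'
    have hl'' := hl'
    obtain ⟨r1, hr1, h1⟩ := hk''
    obtain ⟨r4, hr4, h4⟩ := hl''
    obtain ⟨z, hz, z1, z2, z3, z4⟩ := near_of_closure hBp hr1 hr2
    obtain ⟨w, hw, w1, w2, w3, w4⟩ := near_of_closure hBq hr4 hr3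
    have bz := hBU z hz
    have bw := hBU w hw
    have hUU : ∀ v ∈ B, v.2 < v.1 + 1 ∧ v.1 + 1 < v.2 + 1 := fun v hv => by
      have := hBU v hv
      constructor <;> linarith
    have e : k' = l' := by
      rw [← h1 z.1 z.2 z1 z2 bz.1, ← h4 w.1 w.2 w1 w2 bw.1]
      refine quad_floor hB (f := fun v => θ v.2 (v.1 + 1)) (A.cont.comp
        (f := fun v : ℝ × ℝ => ((v.2, v.1 + 1) : ℝ × ℝ)) (by fun_prop) fun v hv => hUU v hv) hτ
        (fun v hv => ?_) hz hw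
        (cs_pos A (hUU z hz).1 (hUU z hz).2 (by
          rw [DD_per1 L, CC_per1 L]
          exact (h2 z.1 z.2 z3 z4 bz.1).2))
        (cs_pos A (hUU w hw).1 (hUU w hw).2 (by
          rw [DD_per1 L, CC_per1 L]
          exact (h3 w.1 w.2 w3 w4 bw.1).2))
      obtain ⟨r, hr, e1, e2⟩ := A.ex v.2 (v.1 + 1) (hUU v hv).1 (hUU v hv).2
      have := H v hv
      rw [← DD_per1 L, ← CC_per1 L, e1, e2] at this
      rcases this with h | h
      · left
        rw [show τ * (r * Real.cos (θ v.2 (v.1 + 1))) = r * (τ * Real.cos (θ v.2 (v.1 + 1))) by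
          ring] at h
        exact (mul_pos_iff_of_pos_left hr).1 h
      · right
        rw [show τ * (r * Real.sin (θ v.2 (v.1 + 1))) = r * (τ * Real.sin (θ v.2 (v.1 + 1))) by
          ring] at h
        exact (mul_pos_iff_of_pos_left hr).1 h
    have := parityX jP jT1 Y407.PEG.sgU jI L J nosq A hpq hqp Cp Cq hk hl hk' hl'
    linarith

/-- a connected family of chords joining the two ends, with a further vertex of the square on one
side -/
def Lnk (c : ℝ → ℂ) (p q : ℝ) : Prop := ∃ (B : Set (ℝ × ℝ)) (U : Set ℂ) (ε : ℂ),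
  IsPreconnected B ∧ (∀ v ∈ B, v.1 < v.2 ∧ v.2 < v.1 + 1) ∧ (p, p) ∈ closure B ∧
  (q, q) ∈ closure B ∧ IsPreconnected U ∧ (∀ z ∈ U, z ∉ range c) ∧ (ε = I ∨ ε = -I) ∧
  ∀ v ∈ B, c v.1 + ε * (c v.2 - c v.1) ∈ U ∨ c v.2 + ε * (c v.2 - c v.1) ∈ U

theorem Lnk.lk (L : Loop c) (J : Inj c) (nosq : NoSq (range c)) {p q : ℝ} (hpq : p < q)
    (hqp : q < p + 1) (Cp : Cone c p) (Cq : Cone c q) (h : Lnk c p q) : Lk c p q := by
  obtain ⟨B, U, ε, hB, hBU, hBp, hBq, hU, hUc, hε, H⟩ := h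
  intro θ g A k l hk hl
  have nz : ∀ z ∈ U, mgc c z ≠ 0 := fun z h hz => hUc z h ((mgc_sg L).zero L |>.1 hz)
  have hM := (mgc_sg L).cont
  obtain ⟨v0, hv0, -⟩ := near_of_closure hBp one_pos one_pos
  obtain ⟨u, hu⟩ : ∃ u, u ∈ U := by
    rcases H v0 hv0 with h | h
    · exact ⟨_, h⟩
    · exact ⟨_, h⟩
  obtain ⟨τ, hτ, hτu⟩ : ∃ τ : ℝ, (τ = 1 ∨ τ = -1) ∧ ∀ z ∈ U, 0 < τ * mgc c z := by
    rcases lt_or_gt_of_ne (nz u hu) with h | h
    · refine ⟨-1, Or.inr rfl, fun z hz => ?_⟩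
      have := sign_pre hU hM.continuousOn nz hz hu
      have := neg_of_mul_pos_left this h.le
      linarith
    · refine ⟨1, Or.inl rfl, fun z hz => ?_⟩
      have := sign_pre hU hM.continuousOn nz hz hu
      rw [one_mul]
      exact (pos_iff_pos_of_mul_pos this).2 h
  refine bridgeB L J nosq A hpq hqp Cp Cq hB hBU hBp hBq hτ ?_ hk hl
  rcases hε with rfl | rfl
  · left
    intro v hv
    rw [DD_eq, CC_eq]
    exact (H v hv).imp (hτu _) (hτu _)
  · right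
    intro v hv
    rw [DD_eq, CC_eq]
    rw [show c v.2 + I * (c v.1 - c v.2) = c v.2 + -I * (c v.2 - c v.1) by ring,
      show c v.1 + I * (c v.1 - c v.2) = c v.1 + -I * (c v.2 - c v.1) by ring]
    exact (H v hv).symm.imp (hτu _) (hτu _)

/-- an arc that can be turned about both ends without meeting the curve -/
def Trn (c : ℝ → ℂ) (p q : ℝ) : Prop := ∃ (U : Set ℂ) (ε κ κ' : ℂ),
  (ε = I ∨ ε = -I) ∧ (κ = ε ∨ κ = 1 + ε) ∧ (κ' = -ε ∨ κ' = 1 - ε) ∧ IsPreconnected U ∧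
  (∀ z ∈ U, z ∉ range c) ∧ (∀ t ∈ Ioc p q, c p + κ * (c t - c p) ∈ U) ∧
  (∀ t ∈ Ico p q, c q + κ' * (c t - c q) ∈ U)

theorem Trn.lnk {p q : ℝ} (hpq : p < q) (hqp : q < p + 1) (h : Trn c p q) : Lnk c p q := by
  obtain ⟨U, ε, κ, κ', hε, hκ, hκ', hU, hUc, h1, h2⟩ := h
  refine ⟨Brd p q, U, ε, Brd_pre hpq, fun v hv => ?_, ?_, ?_, hU, hUc, hε, ?_⟩
  · have := Brd_lt hv
    constructor <;> linarith
  · rw [Metric.mem_closure_iff]
    intro e he
    obtain ⟨r, hr, a1, a2⟩ : ∃ r > 0, r < e ∧ r ≤ q - p :=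
      ⟨min (e / 2) (q - p), by
        have : 0 < q - p := by linarith
        positivity, (min_le_left _ _).trans_lt (by linarith), min_le_right _ _⟩
    refine ⟨(p, p + r), Or.inl ⟨p + r, ⟨by linarith, by linarith⟩, rfl⟩, ?_⟩
    rw [Prod.dist_eq, dist_self, Real.dist_eq, max_lt_iff]
    refine ⟨he, ?_⟩
    simp only
    rw [abs_lt]; constructor <;> linarith
  · rw [Metric.mem_closure_iff]
    intro e he
    obtain ⟨r, hr, a1, a2⟩ : ∃ r > 0, r < e ∧ r ≤ q - p :=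
      ⟨min (e / 2) (q - p), by
        have : 0 < q - p := by linarith
        positivity, (min_le_left _ _).trans_lt (by linarith), min_le_right _ _⟩
    refine ⟨(q - r, q), Or.inr ⟨q - r, ⟨by linarith, by linarith⟩, rfl⟩, ?_⟩
    rw [Prod.dist_eq, dist_self, Real.dist_eq, max_lt_iff]
    refine ⟨?_, he⟩
    simp only
    rw [abs_lt]; constructor <;> linarith
  · rintro v (⟨y, hy, rfl⟩ | ⟨x, hx, rfl⟩)
    · have := h1 y hy
      simp only
      rcases hκ with rfl | rfl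
      · exact Or.inl this
      · right
        rwa [show c y + ε * (c y - c p) = c p + (1 + ε) * (c y - c p) by ring]
    · have := h2 x hx
      simp only
      rcases hκ' with rfl | rfl
      · right
        rwa [show c q + ε * (c q - c x) = c q + -ε * (c x - c q) by ring]
      · left
        rwa [show c x + ε * (c q - c x) = c q + (1 - ε) * (c x - c q) by ring]

end Pool.Agent.Helper665_SP
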