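import Pool.Agent.Helper665_SP.Core

/-! The outer side of two almost radial arms. -/

set_option autoImplicit false
open Complex Set

namespace Pool.Agent.Helper665_SP

variable {φ α β : ℝ → ℝ} {R : ℝ}

/-- two almost radial arms -/
structure Arms (α β : ℝ → ℝ) (R : ℝ) : Prop where
  R0 : 0 < R
  sa : Slow α R
  sb : Slow β R
  lt : ∀ r, 0 < r → r < R → α r < β r
  lt2 : ∀ r, 0 < r → r < R → β r < α r + 2 * Real.pi

theorem Arms.conj (h : Arms α β R) : Arms (fun r => -β r) (fun r => -α r) R :=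
  ⟨h.R0, h.sb.neg, h.sa.neg, fun r a b => by linarith [h.lt r a b], fun r a b => by
    linarith [h.lt2 r a b]⟩

/-- the points outside -/
def Out (α β : ℝ → ℝ) (z : ℂ) : Prop :=
  0 < ‖z‖ ∧ ∃ η : ℝ, z = ‖z‖ * exp (η * I) ∧ β ‖z‖ - 2 * Real.pi < η ∧ η < α ‖z‖

theorem Out.of_conj {z : ℂ} (h : Out (fun r => -β r) (fun r => -α r) ((starRingEnd ℂ) z)) :
    Out α β z := by
  obtain ⟨h0, η, h1, h2, h3⟩ := h
  rw [RCLike.norm_conj] at h0 h1 h2 h3
  refine ⟨h0, -η - 2 * Real.pi, ?_, by linarith, by linarith⟩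
  have := congrArg (starRingEnd ℂ) h1
  rw [conj_conj, map_mul, conj_ofReal, ← exp_conj, map_mul, conj_ofReal, conj_I] at this
  rw [this, norm_mul, norm_real, Real.norm_eq_abs, abs_of_pos h0]
  have e : ‖exp (η * -I)‖ = 1 := by
    rw [show (η : ℂ) * -I = ((-η : ℝ) : ℂ) * I by push_cast; ring, norm_exp_ofReal_mul_I]
  rw [e, mul_one]
  congr 1
  rw [Complex.exp_eq_exp_iff_exists_int]
  exact ⟨1, by push_cast; ring⟩

theorem pre_sign {X : Type*} [TopologicalSpace X] {V : Set X} (hV : IsPreconnected V) {f : X → ℝ}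
    (hf : ContinuousOn f V) (h : ∀ v ∈ V, f v ≠ 0) {z w : X} (hz : z ∈ V) (hw : w ∈ V) :
    0 < f z * f w := by
  by_contra hcon
  push Not at hcon
  have hne := mul_ne_zero (h z hz) (h w hw)
  have hlt : f z * f w < 0 := lt_of_le_of_ne hcon hne
  rcases mul_neg_iff.1 hlt with ⟨h1, h2⟩ | ⟨h1, h2⟩
  · obtain ⟨v, hv, hv0⟩ := hV.intermediate_value hw hz hf
      (show (0:ℝ) ∈ Icc _ _ from ⟨h2.le, h1.le⟩)
    exact h v hv hv0
  · obtain ⟨v, hv, hv0⟩ := hV.intermediate_value hz hw hf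
      (show (0:ℝ) ∈ Icc _ _ from ⟨h1.le, h2.le⟩)
    exact h v hv hv0

theorem exp_ne {x y : ℝ} (h1 : x < y) (h2 : y < x + 2 * Real.pi) : exp (x * I) ≠ exp (y * I) := by
  intro h
  rw [Complex.exp_eq_exp_iff_exists_int] at h
  obtain ⟨n, hn⟩ := h
  have hπ := Real.pi_pos
  have e : x = y + n * (2 * Real.pi) := by
    have := congrArg Complex.im hn
    simpa using this
  have h3 : (n : ℝ) * (2 * Real.pi) < 0 := by linarith
  have h4 : -(2 * Real.pi) < n * (2 * Real.pi) := by linarith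
  have h5 : (n : ℝ) < 0 := by
    by_contra hc
    push Not at hc
    have := mul_nonneg hc (by positivity : (0:ℝ) ≤ 2 * Real.pi)
    linarith
  have h6 : (-1 : ℝ) < n := by
    by_contra hc
    push Not at hc
    have := mul_le_mul_of_nonneg_right hc (by positivity : (0:ℝ) ≤ 2 * Real.pi)
    linarith
  have h7 : n < 0 := by exact_mod_cast h5
  have h8 : -1 < n := by exact_mod_cast h6
  omega

/-- outside, a function that vanishes at most on the arms has a constant sign -/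
theorem Arms.sign (h : Arms α β R) {m : ℂ → ℝ} (hm : Continuous m) {R1 : ℝ} (hR1 : 0 < R1)
    (hR : R1 ≤ R) (hz : ∀ z, 0 < ‖z‖ → ‖z‖ < R1 → m z = 0 → z = zz α ‖z‖ ∨ z = zz β ‖z‖) :
    ∃ τ : ℝ, (τ = 1 ∨ τ = -1) ∧ ∀ z, Out α β z → ‖z‖ < R1 → 0 < τ * m z := by
  have hπ := Real.pi_pos
  obtain ⟨H, hH⟩ : ∃ H : ℝ × ℝ → ℝ, H = fun p => (1 - p.2) * (β p.1 - 2 * Real.pi) + p.2 * α p.1 :=
    ⟨_, rfl⟩
  have hHp : ∀ p, H p = (1 - p.2) * (β p.1 - 2 * Real.pi) + p.2 * α p.1 := fun p => by rw [hH]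
  obtain ⟨V, hV⟩ : ∃ V : Set (ℝ × ℝ), V = Ioo 0 R1 ×ˢ Ioo 0 1 := ⟨_, rfl⟩
  have hVp : IsPreconnected V := by rw [hV]; exact isPreconnected_Ioo.prod isPreconnected_Ioo
  have hV1 : ∀ p ∈ V, p.1 ∈ Ioo 0 R := fun p hp => by
    rw [hV] at hp
    exact ⟨hp.1.1, hp.1.2.trans_le hR⟩
  have hHc : ContinuousOn H V := by
    have h1 : ContinuousOn (fun p : ℝ × ℝ => β p.1) V :=
      h.sb.cont.comp continuous_fst.continuousOn fun p hp => hV1 p hp
    have h2 : ContinuousOn (fun p : ℝ × ℝ => α p.1) V :=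
      h.sa.cont.comp continuous_fst.continuousOn fun p hp => hV1 p hp
    rw [hH]
    exact ((continuousOn_const.sub continuous_snd.continuousOn).mul (h1.sub continuousOn_const)).add
      (continuous_snd.continuousOn.mul h2)
  have hFc : ContinuousOn (fun p : ℝ × ℝ => m ((p.1 : ℂ) * exp ((H p : ℝ) * I))) V := by
    have h3 : ContinuousOn (fun p : ℝ × ℝ => (p.1 : ℂ) * exp ((H p : ℝ) * I)) V := by
      fun_prop
    exact hm.comp_continuousOn h3
  have hnn : ∀ p ∈ V, ‖(p.1 : ℂ) * exp ((H p : ℝ) * I)‖ = p.1 := fun p hp => by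
    rw [norm_mul, norm_exp_ofReal_mul_I, mul_one, norm_real, Real.norm_eq_abs,
      abs_of_pos (hV1 p hp).1]
  have hne : ∀ p ∈ V, m ((p.1 : ℂ) * exp ((H p : ℝ) * I)) ≠ 0 := by
    intro p hp h0
    have hp1 := hV1 p hp
    have hp' := hp
    rw [hV] at hp'
    have ha := h.lt p.1 hp1.1 hp1.2
    have hb := h.lt2 p.1 hp1.1 hp1.2
    obtain ⟨-, hp2, hp3⟩ := hp'
    have hc : (p.1 : ℂ) ≠ 0 := by exact_mod_cast hp1.1.ne'
    have hlow : β p.1 - 2 * Real.pi < H p := by rw [hHp]; nlinarith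
    have hupp : H p < α p.1 := by rw [hHp]; nlinarith
    rcases hz _ (by rw [hnn p hp]; exact hp1.1) (by rw [hnn p hp, ]; rw [hV] at hp; exact hp.1.2)
      h0 with h1 | h1
    · rw [hnn p hp] at h1
      unfold zz at h1
      exact exp_ne (x := H p) (y := α p.1) hupp (by linarith) (mul_left_cancel₀ hc h1)
    · rw [hnn p hp] at h1
      unfold zz at h1
      exact exp_ne (x := H p) (y := β p.1) (by linarith) (by linarith) (mul_left_cancel₀ hc h1)
  have hbase : ((R1 / 2, 1 / 2) : ℝ × ℝ) ∈ V := by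
    rw [hV]
    exact ⟨⟨by simp only; linarith, by simp only; linarith⟩, ⟨by norm_num, by norm_num⟩⟩
  have key : ∀ z, Out α β z → ‖z‖ < R1 → ∃ p ∈ V, (p.1 : ℂ) * exp ((H p : ℝ) * I) = z := by
    rintro z ⟨h0, η, h1, h2, h3⟩ hzR
    have ha := h.lt ‖z‖ h0 (by linarith)
    have hb := h.lt2 ‖z‖ h0 (by linarith)
    have hden : 0 < α ‖z‖ - (β ‖z‖ - 2 * Real.pi) := by linarith
    refine ⟨(‖z‖, (η - (β ‖z‖ - 2 * Real.pi)) / (α ‖z‖ - (β ‖z‖ - 2 * Real.pi))), ?_, ?_⟩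
    · rw [hV]
      refine ⟨⟨h0, hzR⟩, ⟨div_pos (by linarith) hden, ?_⟩⟩
      simp only
      rw [div_lt_one hden]
      linarith
    · have e : H (‖z‖, (η - (β ‖z‖ - 2 * Real.pi)) / (α ‖z‖ - (β ‖z‖ - 2 * Real.pi))) = η := by
        rw [hHp]
        simp only
        field_simp
        ring
      rw [e]
      exact h1.symm
  rcases lt_or_gt_of_ne (hne _ hbase) with hs | hs
  · refine ⟨-1, Or.inr rfl, fun z hz1 hz2 => ?_⟩
    obtain ⟨p, hp, rfl⟩ := key z hz1 hz2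
    have := pre_sign hVp hFc hne hp hbase
    by_contra hc
    have h3 : 0 ≤ m ((p.1 : ℂ) * exp ((H p : ℝ) * I)) := by linarith
    linarith [mul_nonpos_of_nonneg_of_nonpos h3 hs.le]
  · refine ⟨1, Or.inl rfl, fun z hz1 hz2 => ?_⟩
    obtain ⟨p, hp, rfl⟩ := key z hz1 hz2
    have := (mul_pos_iff_of_pos_right hs).1 (pre_sign hVp hFc hne hp hbase)
    linarith

/-- the criterion for points below the first arm -/
theorem outW (h : Arms α β R) {a : ℝ} (ha : 0 < a) (haR : a < R) (hψ : β a ≤ α a + Real.pi)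
    {w : ℂ} (hre : 0 ≤ w.re) (hst : (1 + ‖w - 1‖) * ‖w - 1‖ / 100 < -w.im) (hw : 2 / 5 ≤ ‖w‖)
    (hx : ‖w - 1‖ ≤ 2) (hD : a * ‖w‖ < R) : Out α β (zz α a * w) := by
  obtain ⟨x, hxe⟩ : ∃ x, x = ‖w - 1‖ := ⟨_, rfl⟩
  rw [← hxe] at hst hx
  have hx0 : 0 ≤ x := by rw [hxe]; exact norm_nonneg _
  have hπ := Real.pi_gt_three
  have hn : ‖zz α a * w‖ = a * ‖w‖ := by rw [norm_mul, norm_zz ha.le]
  have hw0 : 0 < ‖w‖ := by linarith
  have hwx : |‖w‖ - 1| ≤ x := by
    have := abs_norm_sub_norm_le w 1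
    rwa [norm_one, ← hxe] at this
  have hwx' := abs_le.1 hwx
  have him : w.im < 0 := by nlinarith
  have harg : w.arg < 0 := arg_neg_iff.2 him
  have harg2 := abs_le.1 (abs_arg_le_pi_div_two_iff.2 hre)
  have hs := Real.sin_le (x := -w.arg) (by linarith)
  rw [Real.sin_neg, sin_arg] at hs
  have hs2 : (1 + x) * x / 100 / ‖w‖ < -(w.im / ‖w‖) := by
    rw [← neg_div]
    exact div_lt_div_of_pos_right hst hw0
  have had : |a * ‖w‖ - a| ≤ a * x := by
    rw [show a * ‖w‖ - a = a * (‖w‖ - 1) by ring, abs_mul, abs_of_pos ha]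
    exact mul_le_mul_of_nonneg_left hwx ha.le
  refine ⟨by rw [hn]; positivity, α a + w.arg, ?_, ?_, ?_⟩
  · rw [hn]
    conv_lhs => rw [← norm_mul_exp_arg_mul_I w]
    unfold zz
    push_cast
    rw [add_mul, Complex.exp_add]
    ring
  · rw [hn]
    have h1 := h.sb.abs (r := a) (r' := a * ‖w‖) (c := 2 / 5 * a) (by positivity) (by linarith)
      (by nlinarith) haR hD
    have h2 : |β (a * ‖w‖) - β a| ≤ 1 / 20 := by
      by_contra hcon
      push Not at hcon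
      have := mul_lt_mul_of_pos_left hcon ha
      nlinarith
    have h2' := (abs_le.1 h2).2
    linarith
  · rw [hn]
    have key : |α (a * ‖w‖) - α a| ≤ (1 + x) * x / 100 / ‖w‖ := by
      rcases le_total 1 ‖w‖ with hc | hc
      · have h1 := h.sa.abs (r := a) (r' := a * ‖w‖) (c := a) ha le_rfl (by nlinarith) haR hD
        have h2 : |α (a * ‖w‖) - α a| ≤ x / 100 := by
          by_contra hcon
          push Not at hcon
          have := mul_lt_mul_of_pos_left hcon ha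
          nlinarith
        refine h2.trans ?_
        rw [le_div_iff₀ hw0]
        have : ‖w‖ ≤ 1 + x := by linarith
        nlinarith
      · have h1 := h.sa.abs (r := a) (r' := a * ‖w‖) (c := a * ‖w‖) (by positivity) (by nlinarith)
          le_rfl haR hD
        rw [le_div_iff₀ hw0]
        have h3 : |α (a * ‖w‖) - α a| * ‖w‖ ≤ x / 100 := by
          by_contra hcon
          push Not at hcon
          have := mul_lt_mul_of_pos_left hcon ha
          nlinarith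
        nlinarith
    have key' := (abs_le.1 key).1
    linarith

/-- the first further vertex of the square on a long chord lies outside -/
theorem chordW (h : Arms α β R) {a : ℝ} (ha : 0 < a) (haR : 4 * a < R)
    (hψ : β a ≤ α a + Real.pi) {Q : ℂ} (hQ : ‖Q‖ ≤ a)
    (hd : a / 45 ≤ ‖Q - zz α a‖ ∨ ‖Q - zz α a‖ ≤ 51 / 50 * (a - ‖Q‖) ∧ ‖Q‖ < a) :
    Out α β (zz α a + I * (Q - zz α a)) := by
  have hA : zz α a ≠ 0 := zz_ne ha
  have hAn : ‖zz α a‖ = a := norm_zz ha.le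
  obtain ⟨q, hq⟩ : ∃ q, q = Q / zz α a := ⟨_, rfl⟩
  have hQq : Q = zz α a * q := by rw [hq]; field_simp
  have hqn : ‖q‖ ≤ 1 := by
    rw [hq, norm_div, hAn, div_le_one ha]; exact hQ
  have hQn : ‖Q‖ = a * ‖q‖ := by rw [hQq, norm_mul, hAn]
  obtain ⟨w, hw⟩ : ∃ w, w = 1 + I * (q - 1) := ⟨_, rfl⟩
  have hD : zz α a + I * (Q - zz α a) = zz α a * w := by rw [hQq, hw]; ring
  obtain ⟨x, hx⟩ : ∃ x, x = ‖w - 1‖ := ⟨_, rfl⟩
  have hxq : x = ‖q - 1‖ := by
    rw [hx, hw, add_sub_cancel_left, norm_mul, norm_I, one_mul]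
  have hx0 : 0 ≤ x := by rw [hx]; exact norm_nonneg _
  have hdx : ‖Q - zz α a‖ = a * x := by
    rw [hxq, ← hAn, ← norm_mul, hQq, hAn]
    congr 1
    ring
  have hx2 : x ≤ 2 := by
    rw [hxq]
    refine (norm_sub_le _ _).trans ?_
    rw [norm_one]; linarith
  have hwre : w.re = 1 - q.im := by rw [hw]; simp [sub_eq_add_neg]
  have hwim : w.im = q.re - 1 := by rw [hw]; simp
  have hqi := (abs_le.1 ((abs_im_le_norm q).trans hqn)).2
  have hqr : q.re ≤ ‖q‖ := (le_abs_self _).trans (abs_re_le_norm q)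
  have hxs : x ^ 2 ≤ 2 * (1 - q.re) := by
    rw [hxq, ← normSq_eq_norm_sq, normSq_apply, sub_re, sub_im, one_re, one_im]
    have h1 : ‖q‖ ^ 2 ≤ 1 := by
      have := norm_nonneg q
      nlinarith
    rw [← normSq_eq_norm_sq, normSq_apply] at h1
    nlinarith
  have hst : (1 + x) * x / 100 < -w.im := by
    rw [hwim]
    have hcase : 1 / 45 ≤ x ∨ x ≤ 51 / 50 * (1 - ‖q‖) ∧ ‖q‖ < 1 := by
      rcases hd with hd | ⟨hd, hd2⟩
      · left
        rw [hdx] at hd
        by_contra hcon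
        push Not at hcon
        nlinarith
      · right
        rw [hdx, hQn] at hd
        rw [hQn] at hd2
        refine ⟨?_, ?_⟩
        · by_contra hcon
          push Not at hcon
          nlinarith
        · by_contra hcon
          push Not at hcon
          nlinarith
    rcases hcase with hc | ⟨hc, hc2⟩
    · nlinarith
    · nlinarith
  have hwn : 2 / 5 ≤ ‖w‖ := by
    have e : w = (1 - I) + I * q := by rw [hw]; ring
    have h1 : 7 / 5 ≤ ‖(1 - I : ℂ)‖ := by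
      rw [← sq_le_sq₀ (by norm_num) (norm_nonneg _), ← normSq_eq_norm_sq, normSq_apply]
      norm_num
    have h2 := norm_sub_norm_le (1 - I : ℂ) (-(I * q))
    rw [norm_neg, norm_mul, norm_I, one_mul, sub_neg_eq_add, ← e] at h2
    linarith
  have hwn3 : ‖w‖ ≤ 3 := by
    have := abs_le.1 (abs_norm_sub_norm_le w 1)
    rw [norm_one, ← hx] at this
    linarith [this.2]
  rw [hD]
  exact outW h ha (by linarith) hψ (by rw [hwre]; linarith) (by rw [← hx]; exact hst) hwn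
    (by rw [← hx]; exact hx2) (by nlinarith)

/-- the same for the second arm -/
theorem chordW' (h : Arms α β R) {a : ℝ} (ha : 0 < a) (haR : 4 * a < R)
    (hψ : β a ≤ α a + Real.pi) {P : ℂ} (hP : ‖P‖ ≤ a)
    (hd : a / 45 ≤ ‖P - zz β a‖ ∨ ‖P - zz β a‖ ≤ 51 / 50 * (a - ‖P‖) ∧ ‖P‖ < a) :
    Out α β (zz β a + I * (zz β a - P)) := by
  apply Out.of_conj
  have e : (starRingEnd ℂ) (zz β a + I * (zz β a - P)) =
      zz (fun r => -β r) a + I * ((starRingEnd ℂ) P - zz (fun r => -β r) a) := by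
    rw [← zz_conj]
    simp only [map_add, map_mul, map_sub, conj_I]
    ring
  rw [e]
  have hd' : ‖(starRingEnd ℂ) P - zz (fun r => -β r) a‖ = ‖P - zz β a‖ := by
    rw [← zz_conj, ← map_sub, RCLike.norm_conj]
  refine chordW h.conj ha haR (by linarith) (by rw [RCLike.norm_conj]; exact hP) ?_
  rw [hd', RCLike.norm_conj]
  exact hd

theorem out_below {z : ℂ} (hz : 0 < ‖z‖)
    (hψ : β ‖z‖ ≤ α ‖z‖ + Real.pi) (hs : 0 < ((starRingEnd ℂ) z * zz α ‖z‖).im) : Out α β z := by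
  obtain ⟨v, hv⟩ : ∃ v, v = (starRingEnd ℂ) z * zz α ‖z‖ := ⟨_, rfl⟩
  rw [← hv] at hs
  have h1 : 0 < v.arg := by
    have h2 : 0 ≤ v.arg := arg_nonneg_iff.2 hs.le
    refine lt_of_le_of_ne h2 fun h3 => ?_
    have := (arg_eq_zero_iff (z := v)).1 h3.symm
    linarith [this.2]
  have h2 : v.arg < Real.pi := by
    refine lt_of_le_of_ne (arg_le_pi v) fun h3 => ?_
    have := (arg_eq_pi_iff (z := v)).1 h3
    linarith [this.2]
  have hvn : ‖v‖ = ‖z‖ ^ 2 := by
    rw [hv, norm_mul, RCLike.norm_conj, norm_zz hz.le]; ring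
  have hzc : ((‖z‖ : ℝ) : ℂ) ≠ 0 := by exact_mod_cast hz.ne'
  refine ⟨hz, α ‖z‖ - v.arg, ?_, by linarith, by linarith⟩
  have e1 : (‖z‖ : ℂ) ^ 2 * exp (v.arg * I) = (starRingEnd ℂ) z * (‖z‖ * exp (α ‖z‖ * I)) := by
    have := norm_mul_exp_arg_mul_I v
    rw [hvn] at this
    push_cast at this
    rw [this, hv]
    rfl
  have e2 : z * (starRingEnd ℂ) z = (‖z‖ : ℂ) ^ 2 := by
    rw [mul_conj, normSq_eq_norm_sq]; push_cast; ring
  have e3 : exp (((α ‖z‖ - v.arg : ℝ) : ℂ) * I) = exp (α ‖z‖ * I) * exp (-(v.arg * I)) := by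
    rw [← Complex.exp_add]; congr 1; push_cast; ring
  have e4 : exp (v.arg * I) * exp (-(v.arg * I)) = 1 := by
    rw [← Complex.exp_add, add_neg_cancel, Complex.exp_zero]
  have e5 : (‖z‖ : ℂ) ^ 2 * z = (‖z‖ : ℂ) ^ 2 * (‖z‖ * exp (((α ‖z‖ - v.arg : ℝ) : ℂ) * I)) := by
    rw [e3]
    calc (‖z‖ : ℂ) ^ 2 * z = (‖z‖ : ℂ) ^ 2 * exp (v.arg * I) * z * exp (-(v.arg * I)) := by
          linear_combination (-(‖z‖ : ℂ) ^ 2 * z) * e4
      _ = (z * (starRingEnd ℂ) z) * (‖z‖ * exp (α ‖z‖ * I)) * exp (-(v.arg * I)) := by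
          rw [e1]; ring
      _ = _ := by rw [e2]; ring
  exact mul_left_cancel₀ (pow_ne_zero 2 hzc) e5

theorem out_above {z : ℂ} (hz : 0 < ‖z‖)
    (hψ : β ‖z‖ ≤ α ‖z‖ + Real.pi) (hs : ((starRingEnd ℂ) z * zz β ‖z‖).im < 0) : Out α β z := by
  apply Out.of_conj
  refine out_below (by rwa [RCLike.norm_conj])
    (by rw [RCLike.norm_conj]; linarith) ?_
  rw [RCLike.norm_conj, ← zz_conj, ← map_mul, conj_im]
  linarith

end Pool.Agent.Helper665_SP
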