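import Pool.Agent.Helper665_SP.Germ

/-! The number of half turns of the angle function does not change at almost radial points. -/

set_option autoImplicit false
open Complex Set Topology Metric

namespace Pool.Agent.Helper665_SP

open Pool.Agent.H763R2 Pool.Agent.H763R2.An Pool.Agent.W675.Peg Pool.Agent.TH569.Peg
open Pool.Agent.Y535.PEG Pool.Agent.Helper584_CU
open Pool.Agent.H763R2.Dm (NoSq)

variable {c K : ℝ → ℂ} {θ : ℝ → ℝ → ℝ} {g : ℤ} {s ρ R : ℝ} {α β : ℝ → ℝ}

theorem Grm.cone_at (G : Grm (fun t => c t - c s) s ρ α β R) {t : ℝ} (h1 : s - ρ < t)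
    (h2 : t < s + ρ) (hts : t ≠ s) (hR : ‖c t - c s‖ < R / 2) : Cone c t := by
  have hKc : Continuous fun t => c t - c s := G.cont
  obtain ⟨T, hT⟩ : ∃ T, T = c t - c s := ⟨_, rfl⟩
  rw [← hT] at hR
  have hT0 : 0 < ‖T‖ := by
    rcases lt_or_gt_of_ne hts with h | h
    · have := G.m1 t s h1 h le_rfl
      simp only [sub_self, norm_zero] at this
      rwa [hT]
    · have := G.m2 s t le_rfl h h2
      simp only [sub_self, norm_zero] at this
      rwa [hT]
  have hTne : T ≠ 0 := norm_pos_iff.1 hT0
  obtain ⟨e, he, hKe⟩ := Metric.continuous_iff.1 hKc t (‖T‖ / 12) (by positivity)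
  have hnear : ∀ x, |x - t| < e → ‖c x - c s - T‖ ≤ ‖T‖ / 12 := fun x hx => by
    have := hKe x (by rwa [Real.dist_eq])
    rw [dist_eq_norm] at this
    rw [hT]
    exact this.le.trans (by rw [hT])
  have hns : ‖T - T‖ ≤ ‖T‖ / 12 := by rw [sub_self, norm_zero]; positivity
  have hnorm : ∀ x, |x - t| < e → 11 / 12 * ‖T‖ ≤ ‖c x - c s‖ ∧ ‖c x - c s‖ ≤ 13 / 12 * ‖T‖ :=
    fun x hx => by
      have := abs_le.1 ((abs_norm_sub_norm_le (c x - c s) T).trans (hnear x hx))
      constructor <;> linarith
  have strict : ∀ v : ℂ, v ≠ 0 → 4 * |((starRingEnd ℂ) T * v).im| ≤ ((starRingEnd ℂ) T * v).re →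
      |((starRingEnd ℂ) T * v).im| < ((starRingEnd ℂ) T * v).re := by
    intro v hv h
    have h0 := abs_nonneg ((starRingEnd ℂ) T * v).im
    rcases h0.eq_or_lt with h3 | h3
    · rw [← h3] at h ⊢
      refine lt_of_le_of_ne (by linarith) fun h4 => ?_
      have h5 := abs_eq_zero.1 h3.symm
      exact (mul_ne_zero ((map_ne_zero _).2 hTne) hv) (Complex.ext h4.symm h5)
    · linarith
  rcases lt_or_gt_of_ne hts with h | h
  · obtain ⟨r, hr, r1, r2, r3⟩ : ∃ r > 0, r ≤ e ∧ r ≤ s - t ∧ r ≤ t - (s - ρ) :=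
      ⟨min e (min (s - t) (t - (s - ρ))), lt_min he (lt_min (by linarith) (by linarith)),
        min_le_left _ _, (min_le_right _ _).trans (min_le_left _ _),
        (min_le_right _ _).trans (min_le_right _ _)⟩
    refine ⟨r, hr, -(starRingEnd ℂ) T, fun x y hx hy hxy => ?_⟩
    have hx' := abs_lt.1 hx
    have hy' := abs_lt.1 hy
    have hxe := hx.trans_le r1
    have hye := hy.trans_le r1
    have hlt := G.m1 x y (by linarith) hxy (by linarith)
    have nx := hnorm x hxe
    have ny := hnorm y hye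
    have kx := G.k1 x (by linarith) (by linarith) (by linarith)
    have ky := G.k1 y (by linarith) (by linarith) (by linarith)
    have hny := hnear y hye
    rw [ky] at hny
    have cc := cone G.arms.sa (r := ‖c y - c s‖) (r' := ‖c x - c s‖) (by linarith) hlt.le
      (by linarith) (by linarith) (near_sec hTne hns hny).1
    rw [← kx, ← ky] at cc
    have e1 : -(starRingEnd ℂ) T * (c y - c x) =
        (starRingEnd ℂ) T * (c x - c s - (c y - c s)) := by ring
    rw [e1]
    refine strict _ ?_ cc
    intro h0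
    have := congrArg norm (sub_eq_zero.1 h0)
    linarith
  · obtain ⟨r, hr, r1, r2, r3⟩ : ∃ r > 0, r ≤ e ∧ r ≤ t - s ∧ r ≤ s + ρ - t :=
      ⟨min e (min (t - s) (s + ρ - t)), lt_min he (lt_min (by linarith) (by linarith)),
        min_le_left _ _, (min_le_right _ _).trans (min_le_left _ _),
        (min_le_right _ _).trans (min_le_right _ _)⟩
    refine ⟨r, hr, (starRingEnd ℂ) T, fun x y hx hy hxy => ?_⟩
    have hx' := abs_lt.1 hx
    have hy' := abs_lt.1 hy
    have hxe := hx.trans_le r1
    have hye := hy.trans_le r1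
    have hlt := G.m2 x y (by linarith) hxy (by linarith)
    have nx := hnorm x hxe
    have ny := hnorm y hye
    have kx := G.k2 x (by linarith) (by linarith) (by linarith)
    have ky := G.k2 y (by linarith) (by linarith) (by linarith)
    have hnx := hnear x hxe
    rw [kx] at hnx
    have cc := cone G.arms.sb (r := ‖c x - c s‖) (r' := ‖c y - c s‖) (by linarith) hlt.le
      (by linarith) (by linarith) (near_sec hTne hns hnx).1
    rw [← kx, ← ky] at cc
    have e1 : (starRingEnd ℂ) T * (c y - c x) =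
        (starRingEnd ℂ) T * (c y - c s - (c x - c s)) := by ring
    rw [e1]
    refine strict _ ?_ cc
    intro h0
    have := congrArg norm (sub_eq_zero.1 h0)
    linarith

theorem nosq_shift (nosq : NoSq (range c)) (s : ℝ) : NoSq (range fun t => c t - c s) := by
  rintro ⟨z, v, hv, ⟨t1, e1⟩, ⟨t2, e2⟩, ⟨t3, e3⟩, ⟨t4, e4⟩⟩
  simp only at e1 e2 e3 e4
  exact nosq ⟨z + c s, v, hv, ⟨t1, by rw [← e1]; ring⟩, ⟨t2, by linear_combination e2⟩,
    ⟨t3, by linear_combination e3⟩, ⟨t4, by linear_combination e4⟩⟩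

theorem nosq_conj (nosq : NoSq (range K)) : NoSq (range fun t => (starRingEnd ℂ) (K t)) := by
  rintro ⟨z, v, hv, ⟨t1, e1⟩, ⟨t2, e2⟩, ⟨t3, e3⟩, ⟨t4, e4⟩⟩
  simp only at e1 e2 e3 e4
  have e1 := congrArg (starRingEnd ℂ) e1
  have e2 := congrArg (starRingEnd ℂ) e2
  have e3 := congrArg (starRingEnd ℂ) e3
  have e4 := congrArg (starRingEnd ℂ) e4
  simp only [conj_conj, map_add, map_mul, conj_I] at e1 e2 e3 e4
  refine nosq ⟨(starRingEnd ℂ) z - I * (starRingEnd ℂ) v, (starRingEnd ℂ) v,
    (map_ne_zero _).2 hv, ⟨t4, ?_⟩, ⟨t3, ?_⟩, ⟨t2, ?_⟩, ⟨t1, ?_⟩⟩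
  · linear_combination e4
  · linear_combination e3
  · linear_combination e2
  · linear_combination e1

/-- the signs along the bridge at a good scale -/
theorem Grm.brd_sign (G : Grm K s ρ α β R) {r : ℝ} (hr : 0 < r) (hrR : 4 * r < R)
    (hG : GS α β r) {m : ℂ → ℝ} (hm : Continuous m) (hz : ∀ z, m z = 0 → z ∈ range K)
    {p q : ℝ} (p1 : s - ρ < p) (p2 : p < s) (p3 : ‖K p‖ = r) (q1 : s < q) (q2 : q < s + ρ)
    (q3 : ‖K q‖ = r) : ∃ τ : ℝ, (τ = 1 ∨ τ = -1) ∧ ∀ v ∈ Brd p q,
      0 < τ * m (K v.1 + I * (K v.2 - K v.1)) ∨ 0 < τ * m (K v.2 + I * (K v.2 - K v.1)) := by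
  obtain ⟨τ, hτ, H⟩ := G.arms.sign hm G.arms.R0 le_rfl (fun z h1 h2 h3 => by
    obtain ⟨t, ht, hte⟩ := G.near z (hz z h3) h2
    have ht' := abs_lt.1 ht
    rcases lt_trichotomy t s with h | h | h
    · left
      have := G.k1 t (by linarith) h (by rw [hte]; exact h2)
      rwa [hte] at this
    · rw [h, G.K0] at hte
      rw [← hte, norm_zero] at h1
      exact absurd h1 (lt_irrefl _)
    · right
      have := G.k2 t h (by linarith) (by rw [hte]; exact h2)
      rwa [hte] at this)
  refine ⟨τ, hτ, fun v hv => ?_⟩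
  have hb := Brd_lt hv
  have key : ∀ x, p ≤ x → x ≤ q → ‖K x‖ ≤ r := by
    intro x h1 h2
    rcases le_total x s with h | h
    · rcases h1.eq_or_lt with h4 | h4
      · rw [← h4, p3]
      · have := G.m1 p x p1 h4 h
        linarith
    · rcases h2.eq_or_lt with h4 | h4
      · rw [h4, q3]
      · have := G.m2 x q h h4 q2
        linarith
  have n1 := key v.1 hb.1 (by linarith)
  have n2 := key v.2 (by linarith) hb.2.2
  have nI : ‖I * (K v.2 - K v.1)‖ ≤ 2 * r := by
    rw [norm_mul, norm_I, one_mul]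
    exact (norm_sub_le _ _).trans (by linarith)
  rcases G.brd hr hrR hG p1 p2 p3 q1 q2 q3 hv with h | h
  · left
    exact H _ h ((norm_add_le _ _).trans_lt (by linarith))
  · right
    exact H _ h ((norm_add_le _ _).trans_lt (by linarith))

/-- two points near a singular point on both sides of it with the same number of half turns -/
theorem Grm.KL0 (L : Loop c) (J : Inj c) (nosq : NoSq (range c)) (A : Ang c (mgc c) θ g)
    (hρ4 : ρ ≤ 1 / 4) (G : Grm (fun t => c t - c s) s ρ α β R) :
    ∃ p q, s - ρ < p ∧ p < s ∧ s < q ∧ q < s + ρ ∧ ‖c p - c s‖ < R / 2 ∧ ‖c q - c s‖ < R / 2 ∧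
      ∀ k l, KL θ p k → KL θ q l → k = l := by
  have nosqK := nosq_shift nosq s
  obtain ⟨r, hr, hrR, hG⟩ := exGS G.arms (fun R' h1 h2 => G.noTr nosqK h1 h2)
    (fun R' h1 h2 => G.flip.noTr (nosq_conj nosqK) h1 h2)
  obtain ⟨p, p1, p2, p3⟩ := G.s1 r hr (by linarith)
  obtain ⟨q, q1, q2, q3⟩ := G.s2 r hr (by linarith)
  have hp2 : ‖c p - c s‖ < R / 2 := by
    have : ‖c p - c s‖ = r := p3
    linarith
  have hq2 : ‖c q - c s‖ < R / 2 := by
    have : ‖c q - c s‖ = r := q3
    linarith
  have Cp : Cone c p := G.cone_at p1 (by linarith) p2.ne hp2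
  have Cq : Cone c q := G.cone_at (by linarith) q2 q1.ne' hq2
  have hmc := (mgc_sg L).cont
  have hM0 : ∀ z, mgc c z = 0 → z ∈ range c := fun z hz => ((mgc_sg L).zero L).1 hz
  refine ⟨p, q, p1, p2, q1, q2, hp2, hq2, fun k l hk hl => ?_⟩
  rcases hG with hG | hG
  · obtain ⟨τ, hτ, H⟩ := G.brd_sign hr hrR hG (m := fun z => mgc c (z + c s)) (by fun_prop)
      (fun z hz => by
        obtain ⟨t, ht⟩ := hM0 _ hz
        exact ⟨t, by simp only; rw [ht]; ring⟩) p1 p2 p3 q1 q2 q3
    refine bridge L J nosq A (by linarith) (by linarith) Cp Cq hτ (Or.inl fun v hv => ?_) hk hl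
    have := H v hv
    rw [DD_eq, CC_eq]
    rw [show c v.1 - c s + I * (c v.2 - c s - (c v.1 - c s)) + c s =
      c v.1 + I * (c v.2 - c v.1) by ring, show c v.2 - c s + I * (c v.2 - c s - (c v.1 - c s)) +
      c s = c v.2 + I * (c v.2 - c v.1) by ring] at this
    exact this
  · obtain ⟨τ, hτ, H⟩ := G.flip.brd_sign hr hrR hG
      (m := fun z => mgc c ((starRingEnd ℂ) z + c s)) (by fun_prop)
      (fun z hz => by
        obtain ⟨t, ht⟩ := hM0 _ hz
        exact ⟨t, by simp only; rw [ht]; simp⟩) p1 p2 (by simp only [RCLike.norm_conj]; exact p3)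
      q1 q2 (by simp only [RCLike.norm_conj]; exact q3)
    refine bridge L J nosq A (by linarith) (by linarith) Cp Cq hτ (Or.inr fun v hv => ?_) hk hl
    have := (H v hv).symm
    simp only [map_add, map_mul, map_sub, conj_conj, conj_I] at this
    rw [DD_eq, CC_eq]
    rw [show c v.2 - c s + -I * (c v.2 - c s - (c v.1 - c s)) + c s =
      c v.2 + I * (c v.1 - c v.2) by ring, show c v.1 - c s + -I * (c v.2 - c s - (c v.1 - c s)) +
      c s = c v.1 + I * (c v.1 - c v.2) by ring] at this
    exact this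

/-- an isolated singular point at which the number of half turns does not change -/
def Sg (c : ℝ → ℂ) (s : ℝ) : Prop := (∃ ρ > 0, ∀ t, |t - s| < ρ → t ≠ s → Cone c t) ∧
  ∀ (θ : ℝ → ℝ → ℝ) (g : ℤ), Ang c (mgc c) θ g → ∃ ρ > 0, ∀ p q, |p - s| < ρ → |q - s| < ρ → p < q →
    Cone c p → Cone c q → ∀ k l, KL θ p k → KL θ q l → k = l

theorem Rad.sg (L : Loop c) (J : Inj c) (nosq : NoSq (range c)) (h : Rad c s) : Sg c s := by
  obtain ⟨ρ, R, α, β, hρ4, G⟩ := h.grm L J
  have hρ0 := G.ρ0
  have hR0 := G.arms.R0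
  have hKc : Continuous fun t => c t - c s := G.cont
  obtain ⟨e, he, hKe⟩ := Metric.continuous_iff.1 hKc s (R / 2) (by positivity)
  have hsm : ∀ x, |x - s| < e → ‖c x - c s‖ < R / 2 := fun x hx => by
    have := hKe x (by rwa [Real.dist_eq])
    rwa [dist_eq_norm, sub_self, sub_zero] at this
  obtain ⟨r, hr, r1, r2⟩ : ∃ r > 0, r ≤ e ∧ r ≤ ρ := ⟨min e ρ, by positivity, min_le_left _ _,
    min_le_right _ _⟩
  have hC : ∀ t, |t - s| < r → t ≠ s → Cone c t := fun t ht hts => by
    have ht' := abs_lt.1 ht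
    exact G.cone_at (by linarith) (by linarith) hts (hsm t (ht.trans_le r1))
  refine ⟨⟨r, hr, hC⟩, fun θ g A => ⟨r, hr, fun p q hp hq hpq Cp Cq k l hk hl => ?_⟩⟩
  have hp' := abs_lt.1 hp
  have hq' := abs_lt.1 hq
  by_cases hcs : Cone c s
  · refine (monoX jP jT2 Y407.PEG.sgU jI L J nosq A hpq (by linarith) Cp Cq (fun z hz => ?_)
      hk hl).symm
    by_cases hzs : z = s
    · rw [hzs]; exact cone_mon hcs
    · refine cone_mon (hC z ?_ hzs)
      rw [abs_lt]
      constructor <;> linarith [hz.1, hz.2]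
  · have hps : p ≠ s := fun e => hcs (by rw [← e]; exact Cp)
    have hqs : q ≠ s := fun e => hcs (by rw [← e]; exact Cq)
    rcases lt_or_gt_of_ne hps with h1 | h1
    · rcases lt_or_gt_of_ne hqs with h2 | h2
      · -- both on the left
        refine (monoX jP jT2 Y407.PEG.sgU jI L J nosq A hpq (by linarith) Cp Cq (fun z hz => ?_)
          hk hl).symm
        refine cone_mon (hC z ?_ (by intro h; linarith [hz.2]))
        rw [abs_lt]
        constructor <;> linarith [hz.1, hz.2]
      · -- on both sides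
        obtain ⟨p', q', b1, b2, b3, b4, b5, b6, b7⟩ := G.KL0 L J nosq A hρ4
        have Cp' : Cone c p' := G.cone_at b1 (by linarith) b2.ne b5
        have Cq' : Cone c q' := G.cone_at (by linarith) b4 b3.ne' b6
        obtain ⟨k', hk'⟩ := exKL L J A Cp'
        obtain ⟨l', hl'⟩ := exKL L J A Cq'
        have e0 := b7 k' l' hk' hl'
        have hn1 : ∀ z, min p p' ≤ z → z < s → Cone c z := by
          intro z z1 z2
          have hz1 : s - ρ < z := by
            have : s - ρ < min p p' := lt_min (by linarith) b1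
            linarith
          refine G.cone_at hz1 (by linarith) z2.ne ?_
          rcases min_le_iff.1 z1 with h | h
          · rcases h.eq_or_lt with h3 | h3
            · rw [← h3]; exact hsm p (hp.trans_le r1)
            · have := G.m1 p z (by linarith) h3 z2.le
              exact lt_trans this (hsm p (hp.trans_le r1))
          · rcases h.eq_or_lt with h3 | h3
            · rw [← h3]; exact b5
            · have := G.m1 p' z b1 h3 z2.le
              exact lt_trans this b5
        have hn2 : ∀ z, z ≤ max q q' → s < z → Cone c z := by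
          intro z z1 z2
          have hz1 : z < s + ρ := by
            have : max q q' < s + ρ := max_lt (by linarith) b4
            linarith
          refine G.cone_at (by linarith) hz1 z2.ne' ?_
          rcases le_max_iff.1 z1 with h | h
          · rcases h.eq_or_lt with h3 | h3
            · rw [h3]; exact hsm q (hq.trans_le r1)
            · have := G.m2 z q z2.le h3 (by linarith)
              exact lt_trans this (hsm q (hq.trans_le r1))
          · rcases h.eq_or_lt with h3 | h3
            · rw [h3]; exact b6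
            · have := G.m2 z q' z2.le h3 b4
              exact lt_trans this b6
        have e1 : k = k' := by
          rcases lt_trichotomy p p' with h | h | h
          · exact (monoX jP jT2 Y407.PEG.sgU jI L J nosq A h (by linarith) Cp Cp' (fun z hz =>
              cone_mon (hn1 z ((min_le_left _ _).trans hz.1) (by linarith [hz.2]))) hk hk').symm
          · rw [← h] at hk'; exact hk.uniq hk'
          · exact monoX jP jT2 Y407.PEG.sgU jI L J nosq A h (by linarith) Cp' Cp (fun z hz =>
              cone_mon (hn1 z ((min_le_right _ _).trans hz.1) (by linarith [hz.2]))) hk' hk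
        have e2 : l' = l := by
          rcases lt_trichotomy q q' with h | h | h
          · exact monoX jP jT2 Y407.PEG.sgU jI L J nosq A h (by linarith) Cq Cq' (fun z hz =>
              cone_mon (hn2 z (hz.2.trans (le_max_right _ _)) (by linarith [hz.1]))) hl hl'
          · rw [← h] at hl'; exact hl'.uniq hl
          · exact (monoX jP jT2 Y407.PEG.sgU jI L J nosq A h (by linarith) Cq' Cq (fun z hz =>
              cone_mon (hn2 z (hz.2.trans (le_max_left _ _)) (by linarith [hz.1]))) hl' hl).symm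
        rw [e1, e0, e2]
    · -- both on the right
      refine (monoX jP jT2 Y407.PEG.sgU jI L J nosq A hpq (by linarith) Cp Cq (fun z hz => ?_)
        hk hl).symm
      refine cone_mon (hC z ?_ (by intro h; linarith [hz.1]))
      rw [abs_lt]
      constructor <;> linarith [hz.1, hz.2]

end Pool.Agent.Helper665_SP
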