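import Pool.Agent.Helper665_SP.Arm

/-! Right isosceles triangles between two arms that leave a point almost radially and close to each
other. -/

set_option autoImplicit false
open Complex Set

namespace Pool.Agent.Helper665_SP

variable {φ α β : ℝ → ℝ} {R : ℝ}

theorem Slow.abs (h : Slow φ R) {r r' c : ℝ} (hc : 0 < c) (h1 : c ≤ r) (h2 : c ≤ r') (hr : r < R)
    (hr' : r' < R) : 100 * (c * |φ r' - φ r|) ≤ |r' - r| := by
  have h0 := abs_nonneg (φ r' - φ r)
  rcases le_total r r' with hle | hle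
  · have := h r r' (by linarith) hle hr'
    rw [abs_of_nonneg (show 0 ≤ r' - r by linarith)]
    nlinarith
  · have := h r' r (by linarith) hle hr
    rw [abs_sub_comm (φ r)] at this
    rw [abs_of_nonpos (show r' - r ≤ 0 by linarith)]
    nlinarith

/-- two arms close to each other -/
structure Thin (α β : ℝ → ℝ) (R : ℝ) : Prop where
  R0 : 0 < R
  sa : Slow α R
  sb : Slow β R
  lt : ∀ r, 0 < r → r < R → α r < β r
  thin : ∀ r, 0 < r → r < R → β r < α r + 1 / 30

/-- the inscribed right isosceles triangle over the radius `a` -/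
structure Tr (α β : ℝ → ℝ) (R a t b : ℝ) : Prop where
  a0 : 0 < a
  aR : a < R / 2
  t1 : 24 / 25 * a ≤ t
  ta : t < a
  b0 : 0 < b
  sq : zz β b = (1 + I) * zz α a - I * zz α t

theorem exTr (T : Thin α β R) {a : ℝ} (ha : 0 < a) (haR : a < R / 2) : ∃ t b, Tr α β R a t b := by
  have hA : zz α a ≠ 0 := zz_ne ha
  have hAn : ‖zz α a‖ = a := norm_zz ha.le
  obtain ⟨W, hW⟩ : ∃ W : ℝ → ℂ, W = fun t => 1 + I * (1 - zz α t / zz α a) := ⟨_, rfl⟩
  have hWt : ∀ t, W t = 1 + I * (1 - zz α t / zz α a) := fun t => by rw [hW]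
  have hBf : ∀ t, (1 + I) * zz α a - I * zz α t = zz α a * W t := fun t => by
    rw [hWt]; field_simp; ring
  have hd : ∀ t ∈ Icc (24 / 25 * a) a, ‖W t - 1‖ ≤ 1 / 24 := fun t ht => by
    have h1 := zz_dist T.sa (r := t) (r' := a) (by linarith [ht.1]) ht.2 (by linarith [ht.1])
      (by linarith)
    have e : W t - 1 = I * ((zz α a - zz α t) / zz α a) := by
      rw [hWt]; field_simp; ring
    rw [e, norm_mul, norm_I, one_mul, norm_div, hAn, div_le_iff₀ ha]
    linarith [ht.1]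
  have hre : ∀ t ∈ Icc (24 / 25 * a) a, 0 < (W t).re := fun t ht => by
    have := (abs_le.1 ((abs_re_le_norm _).trans (hd t ht))).1
    rw [sub_re, one_re] at this
    linarith
  have hnorm : ∀ t ∈ Icc (24 / 25 * a) a, 23 / 24 ≤ ‖W t‖ ∧ ‖W t‖ ≤ 25 / 24 := fun t ht => by
    have h1 := abs_le.1 ((abs_norm_sub_norm_le (W t) 1).trans (hd t ht))
    rw [norm_one] at h1
    constructor <;> linarith
  have hcz : ContinuousOn (fun t => zz α t) (Icc (24 / 25 * a) a) := (zz_contOn T.sa).mono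
    fun t ht => ⟨by linarith [ht.1], by linarith [ht.2]⟩
  have hcW : ContinuousOn W (Icc (24 / 25 * a) a) := by
    rw [hW]
    fun_prop
  have hcarg : ContinuousOn (fun t => (W t).arg) (Icc (24 / 25 * a) a) := fun t ht =>
    (continuousAt_arg (Or.inl (hre t ht))).comp_continuousWithinAt (hcW t ht)
  have hcb : ContinuousOn (fun t => β (a * ‖W t‖)) (Icc (24 / 25 * a) a) := by
    refine T.sb.cont.comp (f := fun t => a * ‖W t‖) (by fun_prop) fun t ht => ?_
    obtain ⟨h1, h2⟩ := hnorm t ht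
    constructor
    · positivity
    · nlinarith
  have hch : ContinuousOn (fun t => (W t).arg + α a - β (a * ‖W t‖)) (Icc (24 / 25 * a) a) :=
    (hcarg.add continuousOn_const).sub hcb
  have hWa : W a = 1 := by rw [hWt, div_self hA]; ring
  have h1 : (W a).arg + α a - β (a * ‖W a‖) < 0 := by
    rw [hWa, norm_one, arg_one, mul_one]
    linarith [T.lt a ha (by linarith)]
  have h0 : 0 < (W (24 / 25 * a)).arg + α a - β (a * ‖W (24 / 25 * a)‖) := by
    have hm : (24 / 25 * a) ∈ Icc (24 / 25 * a) a := ⟨le_rfl, by linarith⟩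
    obtain ⟨n1, n2⟩ := hnorm _ hm
    obtain ⟨t0, ht0⟩ : ∃ t0, t0 = 24 / 25 * a := ⟨_, rfl⟩
    rw [← ht0] at hm n1 n2 ⊢
    have him : 1 / 25 ≤ (W t0).im := by
      have e : (W t0).im = 1 - (zz α t0 / zz α a).re := by
        rw [hWt]; simp
      have h3 : (zz α t0 / zz α a).re ≤ 24 / 25 := by
        refine (le_abs_self _).trans ((abs_re_le_norm _).trans ?_)
        rw [norm_div, hAn, norm_zz (by rw [ht0]; positivity), ht0]
        rw [div_le_iff₀ ha]
      rw [e]; linarith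
    have harg0 : 0 ≤ (W t0).arg := arg_nonneg_iff.2 (by linarith)
    have hs := Real.sin_le harg0
    rw [sin_arg] at hs
    have hn0 : 0 < ‖W t0‖ := by linarith
    have hs2 : 24 / 625 ≤ (W t0).im / ‖W t0‖ := by
      rw [le_div_iff₀ hn0]; linarith
    have hb := T.sb.abs (r := a) (r' := a * ‖W t0‖) (c := 23 / 24 * a) (by positivity)
      (by linarith) (by nlinarith) (by linarith) (by nlinarith)
    have hb2 : |a * ‖W t0‖ - a| ≤ a / 24 := by
      rw [abs_le]; constructor <;> nlinarith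
    have hb3 := (abs_le.1 (show |β (a * ‖W t0‖) - β a| ≤ 1 / 2000 by
      by_contra hcon
      push Not at hcon
      have := mul_lt_mul_of_pos_left hcon ha
      linarith)).2
    have := T.thin a ha (by linarith)
    linarith
  obtain ⟨t, ht, hht⟩ := intermediate_value_Icc' (by linarith : 24 / 25 * a ≤ a) hch
    (show (0:ℝ) ∈ Icc _ _ from ⟨h1.le, h0.le⟩)
  obtain ⟨n1, n2⟩ := hnorm t ht
  have hn0 : 0 < ‖W t‖ := by linarith
  simp only at hht
  refine ⟨t, a * ‖W t‖, ha, haR, ht.1, lt_of_le_of_ne ht.2 ?_, by positivity, ?_⟩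
  · rintro rfl
    linarith
  · rw [hBf, ← norm_mul_exp_arg_mul_I (W t)]
    have e : ‖(‖W t‖ : ℂ) * exp ((W t).arg * I)‖ = ‖W t‖ := by
      rw [norm_mul_exp_arg_mul_I]
    rw [e]
    unfold zz
    have e2 : β (a * ‖W t‖) = α a + (W t).arg := by linarith
    rw [e2]
    push_cast
    rw [add_mul, Complex.exp_add]
    ring

/-- the linear estimate behind the motion of the triangle -/
theorem lin {p q r : ℂ} (hq : q = (1 - I) * p + I * r) (hp : 4 * |p.im| ≤ p.re)
    (hr : 4 * |r.im| ≤ |r.re|) (hq' : 4 * |q.im| ≤ |q.re|) :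
    0 ≤ r.re ∧ r.re ≤ 2 * p.re ∧ 0 ≤ q.re ∧ q.re ≤ 2 * p.re ∧ 0 ≤ (r + q - p).re := by
  have e1 : q.re = p.re + p.im - r.im := by rw [hq]; simp; ring
  have e2 : q.im = p.im - p.re + r.re := by rw [hq]; simp; ring
  have e3 : (r + q - p).re = r.re + q.re - p.re := by simp
  rw [e3]
  have p1 := abs_le.1 (le_refl |p.im|)
  have r1 := abs_le.1 (le_refl |r.im|)
  have q1 := abs_le.1 (le_refl |q.im|)
  have hpn := abs_nonneg p.im
  have hrn := abs_nonneg r.im
  have hqn := abs_nonneg q.im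
  rcases le_total 0 r.re with c1 | c1
  · rw [abs_of_nonneg c1] at hr
    rcases le_total 0 q.re with c2 | c2
    · rw [abs_of_nonneg c2] at hq'
      refine ⟨c1, ?_, c2, ?_, ?_⟩ <;> linarith
    · rw [abs_of_nonpos c2] at hq'
      have : p.re = 0 := by linarith
      have : r.re = 0 := by linarith
      refine ⟨c1, ?_, ?_, ?_, ?_⟩ <;> linarith
  · rw [abs_of_nonpos c1] at hr
    rcases le_total 0 q.re with c2 | c2
    · rw [abs_of_nonneg c2] at hq'
      have h1 : p.re = 0 := by linarith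
      have h2 : r.re = 0 := by linarith
      refine ⟨?_, ?_, c2, ?_, ?_⟩ <;> linarith
    · rw [abs_of_nonpos c2] at hq'
      have h1 : p.re = 0 := by linarith
      have h2 : r.re = 0 := by linarith
      refine ⟨?_, ?_, ?_, ?_, ?_⟩ <;> linarith

/-- the cone property without order -/
theorem cone_abs (h : Slow φ R) {A e : ℂ} (hA : A ≠ 0) (he : ‖e - A‖ ≤ ‖A‖ / 12) {r r' : ℝ}
    (hr : 0 < r) (hr' : 0 < r') (h1 : r ≤ 2 * r') (h2 : r' ≤ 2 * r) (hR : r < R) (hR' : r' < R)
    (hz : ‖zz φ r - A‖ ≤ ‖A‖ / 12) (hz' : ‖zz φ r' - A‖ ≤ ‖A‖ / 12) :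
    4 * |((starRingEnd ℂ) e * (zz φ r' - zz φ r)).im| ≤
      |((starRingEnd ℂ) e * (zz φ r' - zz φ r)).re| := by
  rcases le_total r r' with hle | hle
  · exact (cone h hr hle h2 hR' (near_sec hA he hz).1).trans (le_abs_self _)
  · have := (cone h hr' hle h1 hR (near_sec hA he hz').1).trans (le_abs_self _)
    have e1 : (starRingEnd ℂ) e * (zz φ r' - zz φ r) = -((starRingEnd ℂ) e * (zz φ r - zz φ r')) := by
      ring
    rw [e1, neg_im, neg_re, abs_neg, abs_neg]
    exact this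

/-- the fourth vertex of the square -/
noncomputable def EE (α β : ℝ → ℝ) (a t b : ℝ) : ℂ := zz β b + zz α t - zz α a

namespace Tr

variable {a t b : ℝ}

theorem t0 (T : Tr α β R a t b) : 0 < t := by linarith [T.t1, T.a0]

theorem sub1 (T : Tr α β R a t b) : zz β b - zz α a = I * (zz α a - zz α t) := by
  rw [T.sq]; ring

theorem sub2 (T : Tr α β R a t b) : EE α β a t b - zz α a = (1 + I) * (I * (zz α a - zz α t)) := by
  unfold EE
  rw [T.sq]
  ring_nf
  rw [I_sq]; ring

theorem dD (h : Thin α β R) (T : Tr α β R a t b) : ‖zz α a - zz α t‖ ≤ 51 / 1250 * a := by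
  have h1 := zz_dist h.sa (r := t) (r' := a) T.t0 T.ta.le (by linarith [T.t1, T.a0])
    (by linarith [T.aR, T.a0])
  linarith [T.t1]

theorem dB (h : Thin α β R) (T : Tr α β R a t b) : ‖zz β b - zz α a‖ ≤ 51 / 1250 * a := by
  rw [T.sub1, norm_mul, norm_I, one_mul]
  exact T.dD h

theorem norm_one_add_I : ‖(1 + I : ℂ)‖ ≤ 71 / 50 := by
  rw [← sq_le_sq₀ (norm_nonneg _) (by norm_num), ← normSq_eq_norm_sq, normSq_apply]
  norm_num

theorem dE (h : Thin α β R) (T : Tr α β R a t b) : ‖EE α β a t b - zz α a‖ ≤ 3 / 50 * a := by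
  rw [T.sub2, norm_mul, norm_mul, norm_I, one_mul]
  have := T.dD h
  have h2 := norm_one_add_I
  have := T.a0
  have : ‖(1 + I : ℂ)‖ * ‖zz α a - zz α t‖ ≤ 71 / 50 * (51 / 1250 * a) :=
    mul_le_mul h2 (T.dD h) (norm_nonneg _) (by norm_num)
  linarith

theorem bb (h : Thin α β R) (T : Tr α β R a t b) : |b - a| ≤ 51 / 1250 * a := by
  have := (abs_norm_sub_norm_le (zz β b) (zz α a)).trans (T.dB h)
  rwa [norm_zz T.b0.le, norm_zz T.a0.le] at this

theorem ee (h : Thin α β R) (T : Tr α β R a t b) : |‖EE α β a t b‖ - a| ≤ 3 / 50 * a := by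
  have := (abs_norm_sub_norm_le (EE α β a t b) (zz α a)).trans (T.dE h)
  rwa [norm_zz T.a0.le] at this

/-- the distance between the radii of the last two vertices -/
theorem eb (_h : Thin α β R) (T : Tr α β R a t b) :
    |‖EE α β a t b‖ - b| ≤ ‖zz α a - zz α t‖ := by
  have h1 := abs_norm_sub_norm_le (EE α β a t b) (zz β b)
  rw [norm_zz T.b0.le] at h1
  refine h1.trans ?_
  have : EE α β a t b - zz β b = -(zz α a - zz α t) := by unfold EE; ring
  rw [this, norm_neg]

/-- the point of the second arm with the radius of the last vertex -/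
theorem dE0 (h : Thin α β R) (T : Tr α β R a t b) :
    ‖zz β ‖EE α β a t b‖ - zz α a‖ ≤ a / 12 := by
  have h1 := T.eb h
  have h2 := T.dD h
  have h3 := abs_le.1 (T.bb h)
  have h4 := abs_le.1 (T.ee h)
  have h5 := T.a0
  have h6 := T.aR
  have h7 := zz_dist' h.sb (r := b) (r' := ‖EE α β a t b‖) T.b0 (by linarith) (by linarith)
    (by linarith) (by linarith) (by linarith)
  have h8 := norm_add_le (zz β ‖EE α β a t b‖ - zz β b) (zz β b - zz α a)
  rw [sub_add_sub_cancel] at h8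
  have h9 := T.dB h
  linarith

end Tr

/-- comparison of two triangles -/
theorem two (h : Thin α β R) {a t b a' t' b' : ℝ} (T : Tr α β R a t b) (T' : Tr α β R a' t' b')
    (haa : a ≤ a') (ha' : a' ≤ 201 / 200 * a) {e : ℂ} (he : ‖e - zz α a‖ ≤ a / 12) :
    (0 ≤ ((starRingEnd ℂ) e * (zz β b' - zz β b)).re ∧
      ((starRingEnd ℂ) e * (zz β b' - zz β b)).re ≤ 2 * ((starRingEnd ℂ) e * (zz α a' - zz α a)).re ∧
      0 ≤ ((starRingEnd ℂ) e * (zz α t' - zz α t)).re ∧
      ((starRingEnd ℂ) e * (zz α t' - zz α t)).re ≤ 2 * ((starRingEnd ℂ) e * (zz α a' - zz α a)).re ∧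
      0 ≤ ((starRingEnd ℂ) e * (EE α β a' t' b' - EE α β a t b)).re) ∧
    4 * |((starRingEnd ℂ) e * (zz β b' - zz β b)).im| ≤
      |((starRingEnd ℂ) e * (zz β b' - zz β b)).re| ∧
    4 * |((starRingEnd ℂ) e * (zz α t' - zz α t)).im| ≤
      |((starRingEnd ℂ) e * (zz α t' - zz α t)).re| := by
  have hA : zz α a ≠ 0 := zz_ne T.a0
  have hAn : ‖zz α a‖ = a := norm_zz T.a0.le
  have ha0 := T.a0
  have haR := T.aR
  have haR' := T'.aR
  have s1 := abs_le.1 (T.bb h)
  have s2 := abs_le.1 (T'.bb h)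
  have s3 := T.t1
  have s4 := T'.t1
  have s5 := T.ta
  have s6 := T'.ta
  have hAA : ‖zz α a' - zz α a‖ ≤ a / 190 := by
    have := zz_dist h.sa ha0 haa (by linarith) (by linarith)
    linarith
  have tri : ∀ z, ‖z - zz α a'‖ ≤ 51 / 1250 * a' → ‖z - zz α a‖ ≤ ‖zz α a‖ / 12 := fun z hz => by
    have h8 := norm_add_le (z - zz α a') (zz α a' - zz α a)
    rw [sub_add_sub_cancel] at h8
    rw [hAn]
    linarith
  have hB' := tri _ (T'.dB h)
  have hD' := tri (zz α t') (by rw [norm_sub_rev]; exact T'.dD h)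
  have hB : ‖zz β b - zz α a‖ ≤ ‖zz α a‖ / 12 := by rw [hAn]; linarith [T.dB h]
  have hD : ‖zz α t - zz α a‖ ≤ ‖zz α a‖ / 12 := by
    rw [hAn, norm_sub_rev]; linarith [T.dD h]
  replace he : ‖e - zz α a‖ ≤ ‖zz α a‖ / 12 := by rw [hAn]; exact he
  have cp := cone h.sa ha0 haa (by linarith) (by linarith)
    (near_sec hA he (by simpa using (by positivity : (0:ℝ) ≤ ‖zz α a‖ / 12))).1
  have cr := cone_abs h.sb hA he T.b0 T'.b0 (by linarith) (by linarith) (by linarith)
    (by linarith) hB hB'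
  have cq := cone_abs h.sa hA he T.t0 T'.t0 (by linarith) (by linarith) (by linarith)
    (by linarith) hD hD'
  have hl := lin (p := (starRingEnd ℂ) e * (zz α a' - zz α a))
    (q := (starRingEnd ℂ) e * (zz α t' - zz α t)) (r := (starRingEnd ℂ) e * (zz β b' - zz β b))
    (by
      rw [T.sq, T'.sq]
      ring_nf
      rw [I_sq]; ring) cp cr cq
  obtain ⟨l1, l2, l3, l4, l5⟩ := hl
  refine ⟨⟨l1, l2, l3, l4, ?_⟩, cr, cq⟩
  have e5 : (starRingEnd ℂ) e * (EE α β a' t' b' - EE α β a t b) =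
      (starRingEnd ℂ) e * (zz β b' - zz β b) + (starRingEnd ℂ) e * (zz α t' - zz α t) -
        (starRingEnd ℂ) e * (zz α a' - zz α a) := by unfold EE; ring
  rw [e5]
  exact l5

end Pool.Agent.Helper665_SP
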